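import Pool.Agent.Lib.MP_730078_an.HDefs

set_option autoImplicit false

open MeasureTheory Set Filter Topology Complex
open scoped ENNReal Real NNReal

namespace Pool.Agent.Lib.MP_730078_an.PC

noncomputable section

/-- the character `exp (2 π i s)` -/
def ch (s : ℝ) : ℂ := cexp (2 * π * s * I)

/-- the damping factor `exp (- 2 π s)` -/
def dm (s : ℝ) : ℂ := (Real.exp (-(2 * π * s)) : ℝ)

/-- the Fourier-Laplace integral of `φ` at the point `x + i y` -/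
def Ex {n : ℕ} (φ : (Fin n → ℝ) → ℂ) (x y : Fin n → ℝ) : ℂ :=
  ∫ t, ch (x ⬝ᵥ t) * dm (y ⬝ᵥ t) * φ t

/-- the Poisson kernel of the line -/
def Pk (s : ℝ) : ℝ := π⁻¹ * (1 + s ^ 2)⁻¹

/-- the dual cone -/
def Du {n : ℕ} (Γ : Set (Fin n → ℝ)) : Set (Fin n → ℝ) := {t | ∀ y ∈ Γ, 0 ≤ y ⬝ᵥ t}

/-- the unrestricted maximal inequality for integrable spectral densities -/
def MaxIneq {n : ℕ} (Γ : Set (Fin n → ℝ)) : Prop :=
  ∃ C : ℝ≥0∞, C ≠ ∞ ∧ ∀ φ : (Fin n → ℝ) → ℂ, Measurable φ → Integrable φ →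
    (∀ t, φ t ≠ 0 → t ∈ Du Γ) → ∃ S : (Fin n → ℝ) → ℝ≥0∞, Measurable S ∧
      ∫⁻ x, S x ^ 2 ≤ C * ∫⁻ t, ‖φ t‖ₑ ^ 2 ∧ ∀ x, ∀ y ∈ Γ, ‖Ex φ x y‖ₑ ≤ S x

/-- the lacunary scale -/
def de (k : ℕ) : ℝ := (1 / 8) ^ k

/-- an enumeration of the rationals of `[1/4, 3/4]` -/
def aa (k : ℕ) : ℝ := max (1 / 4) (min (3 / 4) ((Denumerable.ofNat ℚ k : ℚ) : ℝ))

/-- the rays which stick out of the octant -/
def ray (k : ℕ) : Fin 4 → ℝ := ![aa k, 1 - aa k, -de k, de k ^ 2]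

/-- the cone: the open octant plus the nonnegative combinations of the rays -/
def Gam : Set (Fin 4 → ℝ) := {y | ∃ w ∈ Submodule.span ℝ≥0 (range ray), ∀ i, w i < y i}

/-- the pieces of the dual cone -/
def piece (m : ℕ) : Set (Fin 4 → ℝ) :=
  {t | 2 * de m * t 3 < t 2 ∧ (m ≠ 0 → t 2 ≤ 2 * de (m - 1) * t 3)}

@[fun_prop] theorem continuous_ch : Continuous ch := by unfold ch; fun_prop

@[fun_prop] theorem continuous_dm : Continuous dm := by unfold dm; fun_prop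

@[fun_prop] theorem continuous_Pk : Continuous Pk := by
  unfold Pk
  exact continuous_const.mul (Continuous.inv₀ (by fun_prop) fun s => by positivity)

@[simp] theorem norm_ch (s : ℝ) : ‖ch s‖ = 1 := by
  rw [ch, show (2 * π * s * I : ℂ) = ((2 * π * s : ℝ) : ℂ) * I by push_cast; ring,
    Complex.norm_exp_ofReal_mul_I]

theorem ch_add (s t : ℝ) : ch (s + t) = ch s * ch t := by
  rw [ch, ch, ch, ← Complex.exp_add]; congr 1; push_cast; ring

@[simp] theorem ch_zero : ch 0 = 1 := by simp [ch]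

theorem dm_add (s t : ℝ) : dm (s + t) = dm s * dm t := by
  rw [dm, dm, dm, ← Complex.ofReal_mul, ← Real.exp_add]; congr 2; ring

@[simp] theorem dm_zero : dm 0 = 1 := by simp [dm]

theorem norm_dm (s : ℝ) : ‖dm s‖ = Real.exp (-(2 * π * s)) := by
  rw [dm, Complex.norm_real, Real.norm_of_nonneg (Real.exp_pos _).le]

theorem norm_dm_le {s : ℝ} (hs : 0 ≤ s) : ‖dm s‖ ≤ 1 := by
  rw [norm_dm]
  exact Real.exp_le_one_iff.2 (neg_nonpos.2 (by positivity))

theorem Pk_pos (s : ℝ) : 0 < Pk s := by unfold Pk; positivity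

theorem integrable_Pk : Integrable Pk := integrable_inv_one_add_sq.const_mul _

theorem de_pos (k : ℕ) : 0 < de k := by unfold de; positivity

theorem de_succ (k : ℕ) : de (k + 1) = de k / 8 := by unfold de; rw [pow_succ]; ring

theorem de_anti {j k : ℕ} (h : j ≤ k) : de k ≤ de j :=
  pow_le_pow_of_le_one (by norm_num) (by norm_num) h

theorem aa_ge (k : ℕ) : 1 / 4 ≤ aa k := le_max_left _ _

theorem aa_le (k : ℕ) : aa k ≤ 3 / 4 := max_le (by norm_num) (min_le_left _ _)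

theorem aa_surj {q : ℚ} (h1 : (1 / 4 : ℝ) ≤ q) (h2 : (q : ℝ) ≤ 3 / 4) : ∃ k, aa k = q := by
  obtain ⟨k, hk⟩ := (Denumerable.eqv ℚ).symm.surjective q
  have hk' : Denumerable.ofNat ℚ k = q := hk
  exact ⟨k, by rw [aa, hk', min_eq_right h2, max_eq_right h1]⟩

theorem ray_dot (k : ℕ) (t : Fin 4 → ℝ) :
    ray k ⬝ᵥ t = aa k * t 0 + (1 - aa k) * t 1 - de k * t 2 + de k ^ 2 * t 3 := by
  simp [ray, dotProduct, Fin.sum_univ_four]; ring

end

end Pool.Agent.Lib.MP_730078_an.PC
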