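import Pool.Agent.Lib.MP_730078_an.PC.Defs

set_option autoImplicit false

open MeasureTheory Set Filter Topology Complex
open scoped ENNReal Real NNReal

namespace Pool.Agent.Lib.MP_730078_an.PC

variable {n : ℕ}

/-- bounded shells whose masses decay geometrically -/
theorem dens_pieces (ν : Measure (Fin n → ℝ)) [IsFiniteMeasure ν] :
    ∃ A : ℕ → Set (Fin n → ℝ), (∀ j, MeasurableSet (A j)) ∧ Pairwise (Function.onFun Disjoint A) ∧
      ⋃ j, A j = univ ∧ (∀ j, Bornology.IsBounded (A j)) ∧ ∑' j, 4 ^ j * ν (A j) ≠ ∞ := by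
  have h0 : Tendsto (fun R : ℕ => ν (Metric.ball 0 (R : ℝ))ᶜ) atTop
      (𝓝 (ν (⋂ R : ℕ, (Metric.ball 0 (R : ℝ))ᶜ))) :=
    tendsto_measure_iInter_atTop (fun R => measurableSet_ball.compl.nullMeasurableSet)
      (fun a b h => compl_subset_compl.2 (Metric.ball_subset_ball (Nat.cast_le.2 h)))
      ⟨0, measure_ne_top _ _⟩
  rw [← compl_iUnion, Metric.iUnion_ball_nat, compl_univ, measure_empty] at h0
  obtain ⟨R, hR, h1⟩ := extraction_forall_of_eventually
    (P := fun j R : ℕ => ν (Metric.ball 0 (R : ℝ))ᶜ ≤ 8⁻¹ ^ j) fun j =>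
      h0.eventually (ge_mem_nhds (ENNReal.pow_pos (by simp) j))
  refine ⟨disjointed fun j => Metric.ball 0 (R j : ℝ),
    MeasurableSet.disjointed fun _ => measurableSet_ball, disjoint_disjointed _, ?_,
    fun j => Metric.isBounded_ball.subset (disjointed_subset _ j), ?_⟩
  · rw [iUnion_disjointed]
    refine eq_univ_of_forall fun t => ?_
    obtain ⟨j, hj⟩ := exists_nat_gt ‖t‖
    exact mem_iUnion.2 ⟨j, mem_ball_zero_iff.2 (hj.trans_le (Nat.cast_le.2 (hR.id_le j)))⟩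
  · rw [tsum_eq_zero_add' ENNReal.summable]
    refine ENNReal.add_ne_top.2 ⟨ENNReal.mul_ne_top (by simp) (measure_ne_top _ _), ?_⟩
    refine ne_top_of_le_ne_top (b := ∑' j : ℕ, 4 * 2⁻¹ ^ j) ?_ (ENNReal.tsum_le_tsum fun j => ?_)
    · rw [ENNReal.tsum_mul_left, ENNReal.tsum_geometric]
      exact ENNReal.mul_ne_top (by simp) (by simp)
    · have h2 : ν (disjointed (fun j => Metric.ball (0 : Fin n → ℝ) (R j : ℝ)) (j + 1)) ≤
          8⁻¹ ^ j := by
        refine le_trans (measure_mono fun t ht => ?_) (h1 j)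
        rw [disjointed_eq_inter_compl] at ht
        exact mem_iInter₂.1 ht.2 j j.lt_succ_self
      have h3 : (4 : ℝ≥0∞) * 8⁻¹ = 2⁻¹ := by
        rw [show (8 : ℝ≥0∞) = 4 * 2 by norm_num, ENNReal.mul_inv (by simp) (by simp), ← mul_assoc,
          ENNReal.mul_inv_cancel (by simp) (by simp), one_mul]
      calc _ ≤ (4 : ℝ≥0∞) ^ (j + 1) * 8⁻¹ ^ j := by gcongr
        _ = _ := by rw [pow_succ', mul_assoc, ← mul_pow, h3]

theorem dens_tendsto {Γ : Set (Fin n → ℝ)} {φ : (Fin n → ℝ) → ℂ} (hm : Measurable φ)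
    (hi : Integrable φ) (hs : ∀ t, φ t ≠ 0 → t ∈ Du Γ) (x : Fin n → ℝ) :
    Tendsto (fun y => Ex φ x y) (𝓝[Γ] 0) (𝓝 (Ex φ x 0)) := by
  refine tendsto_integral_filter_of_dominated_convergence (fun t => ‖φ t‖)
    (Eventually.of_forall fun y => ?_) ?_ hi.norm (ae_of_all _ fun t => ?_)
  · exact (Continuous.aestronglyMeasurable (by fun_prop)).mul hm.aestronglyMeasurable
  · filter_upwards [self_mem_nhdsWithin] with y hy
    refine ae_of_all _ fun t => ?_
    by_cases h : φ t = 0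
    · simp [h]
    · rw [norm_mul, norm_mul, norm_ch, one_mul]
      exact mul_le_of_le_one_left (norm_nonneg _) (norm_dm_le (hs t h y hy))
  · exact (Continuous.tendsto (by fun_prop) 0).mono_left nhdsWithin_le_nhds

/-- from the maximal inequality to almost everywhere convergence -/
theorem ae_of_max {Γ : Set (Fin n → ℝ)} (hΓ : Regular Γ) (hM : MaxIneq Γ)
    {φ : (Fin n → ℝ) → ℂ} (hc : Continuous φ) (h2 : ∫⁻ t, ‖φ t‖ₑ ^ 2 ≠ ∞)
    (hs : ∀ t, φ t ≠ 0 → t ∈ Du Γ) (hi : ∀ y ∈ Γ, Integrable fun t => dm (y ⬝ᵥ t) * φ t) :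
    ∀ᵐ x : Fin n → ℝ, ∃ L : ℂ, Tendsto (fun y => Ex φ x y) (𝓝[Γ] 0) (𝓝 L) := by
  have _ := hΓ
  obtain ⟨C, hC, hM⟩ := hM
  have := isFiniteMeasure_withDensity (μ := (volume : Measure (Fin n → ℝ))) h2
  obtain ⟨A, a1, a2, a3, a4, a5⟩ := dens_pieces (volume.withDensity fun t => ‖φ t‖ₑ ^ 2)
  have b1 : ∀ j, Measurable ((A j).indicator φ) := fun j => hc.measurable.indicator (a1 j)
  have b2 : ∀ j, Integrable ((A j).indicator φ) := fun j => (integrable_indicator_iff (a1 j)).2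
    ((hc.locallyIntegrable.integrableOn_isCompact (a4 j).isCompact_closure).mono_set
      subset_closure)
  have b3 : ∀ j t, (A j).indicator φ t ≠ 0 → t ∈ Du Γ := fun j t h =>
    hs t fun e => h (by simp [indicator, e])
  have b4 : ∀ j, ∫⁻ t, ‖(A j).indicator φ t‖ₑ ^ 2 =
      (volume.withDensity fun t => ‖φ t‖ₑ ^ 2) (A j) := fun j => by
    rw [withDensity_apply _ (a1 j), ← lintegral_indicator (a1 j)]
    refine lintegral_congr fun t => ?_
    by_cases h : t ∈ A j <;> simp [h]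
  choose S s1 s2 s3 using fun j => hM _ (b1 j) (b2 j) (b3 j)
  have m1 : ∀ j, Measurable fun x => 4 ^ j * S j x ^ 2 := fun j =>
    ((s1 j).pow_const 2).const_mul _
  have fin : ∫⁻ x, ∑' j, 4 ^ j * S j x ^ 2 ≠ ∞ := by
    rw [lintegral_tsum fun j => (m1 j).aemeasurable]
    refine ne_top_of_le_ne_top (ENNReal.mul_ne_top hC a5) ?_
    rw [← ENNReal.tsum_mul_left]
    refine ENNReal.tsum_le_tsum fun j => ?_
    rw [lintegral_const_mul _ ((s1 j).pow_const 2), mul_left_comm, ← b4]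
    gcongr
    exact s2 j
  filter_upwards [ae_lt_top (Measurable.tsum m1) fin] with x hx
  refine ⟨∑' j, Ex ((A j).indicator φ) x 0, ?_⟩
  set K := ∑' j, 4 ^ j * S j x ^ 2 with hK
  have key := tendsto_tsum_of_dominated_convergence (𝓕 := 𝓝[Γ] (0 : Fin n → ℝ))
    (f := fun y j => Ex ((A j).indicator φ) x y) (bound := fun j => (1 + K.toReal) * (1 / 2) ^ j)
    (summable_geometric_two.mul_left _) (fun j => dens_tendsto (b1 j) (b2 j) (b3 j) x) (by
      filter_upwards [self_mem_nhdsWithin] with y hy j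
      have c1 : 4 ^ j * ‖Ex ((A j).indicator φ) x y‖ₑ ^ 2 ≤ K := by
        refine le_trans ?_ (ENNReal.le_tsum j)
        gcongr
        exact s3 j x y hy
      have c2 := ENNReal.toReal_mono hx.ne c1
      rw [ENNReal.toReal_mul, ENNReal.toReal_pow, ENNReal.toReal_pow, toReal_enorm,
        show (4 : ℝ≥0∞).toReal = 2 ^ 2 by norm_num, ← pow_mul, mul_comm 2 j, pow_mul,
        ← mul_pow] at c2
      rw [one_div, inv_pow, ← div_eq_mul_inv, le_div_iff₀' (by positivity)]
      nlinarith [sq_nonneg (2 ^ j * ‖Ex ((A j).indicator φ) x y‖ - 1)])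
  refine key.congr' ?_
  filter_upwards [self_mem_nhdsWithin] with y hy
  have d1 : Integrable fun t => ch (x ⬝ᵥ t) * dm (y ⬝ᵥ t) * φ t := by
    simp only [mul_assoc]
    exact (hi y hy).bdd_mul (c := 1) (Continuous.aestronglyMeasurable (by fun_prop))
      (ae_of_all _ fun t => (norm_ch _).le)
  have d2 := hasSum_integral_iUnion a1 a2 d1.integrableOn
  rw [a3, Measure.restrict_univ] at d2
  refine Eq.trans (tsum_congr fun j => ?_) d2.tsum_eq
  rw [Ex, ← integral_indicator (a1 j)]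
  refine integral_congr_ae (ae_of_all _ fun t => ?_)
  by_cases h : t ∈ A j <;> simp [h]

end Pool.Agent.Lib.MP_730078_an.PC
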