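import Pool.Agent.Lib.MP_730078_an.PC.Defs

set_option autoImplicit false

open MeasureTheory Set Filter Topology Complex
open scoped ENNReal Real NNReal

namespace Pool.Agent.Lib.MP_730078_an.PC

theorem span_ind {P : (Fin 4 → ℝ) → Prop} (h0 : P 0) (hr : ∀ k, P (ray k))
    (ha : ∀ a b, P a → P b → P (a + b)) (hs : ∀ c : ℝ, 0 ≤ c → ∀ a, P a → P (c • a))
    {w : Fin 4 → ℝ} (hw : w ∈ Submodule.span ℝ≥0 (range ray)) : P w := by
  induction hw using Submodule.span_induction with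
  | mem x hx => obtain ⟨k, rfl⟩ := hx; exact hr k
  | zero => exact h0
  | add x y _ _ hx hy => exact ha x y hx hy
  | smul c x _ hx => exact hs c c.2 x hx

theorem span_smul {c : ℝ} (hc : 0 ≤ c) {w : Fin 4 → ℝ}
    (hw : w ∈ Submodule.span ℝ≥0 (range ray)) : c • w ∈ Submodule.span ℝ≥0 (range ray) :=
  Submodule.smul_mem _ (⟨c, hc⟩ : ℝ≥0) hw

theorem span_dot {t : Fin 4 → ℝ} (h : ∀ k, 0 ≤ ray k ⬝ᵥ t) {w : Fin 4 → ℝ}
    (hw : w ∈ Submodule.span ℝ≥0 (range ray)) : 0 ≤ w ⬝ᵥ t := by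
  refine span_ind (P := fun w => 0 ≤ w ⬝ᵥ t) (by simp) h (fun a b ha hb => ?_)
    (fun c hc a ha => ?_) hw
  · rw [add_dotProduct]; exact add_nonneg ha hb
  · rw [smul_dotProduct]; exact mul_nonneg hc ha

theorem dot4 (y t : Fin 4 → ℝ) : y ⬝ᵥ t = y 0 * t 0 + y 1 * t 1 + y 2 * t 2 + y 3 * t 3 := by
  simp [dotProduct, Fin.sum_univ_four]

theorem de_le_one (k : ℕ) : de k ≤ 1 := by
  have := de_anti (Nat.zero_le k)
  rwa [show de 0 = 1 from pow_zero _] at this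

theorem span_pos {w : Fin 4 → ℝ} (hw : w ∈ Submodule.span ℝ≥0 (range ray)) :
    0 ≤ w 0 ∧ 0 ≤ w 1 ∧ 0 ≤ w 3 ∧ 0 ≤ w 0 + w 1 + w 2 := by
  refine span_ind (P := fun w => 0 ≤ w 0 ∧ 0 ≤ w 1 ∧ 0 ≤ w 3 ∧ 0 ≤ w 0 + w 1 + w 2) (by simp)
    (fun k => ?_) (fun a b ha hb => ?_) (fun c hc a ha => ?_) hw
  · have h1 := aa_ge k
    have h2 := aa_le k
    have h3 := de_le_one k
    have e0 : ray k 0 = aa k := rfl
    have e1 : ray k 1 = 1 - aa k := rfl
    have e2 : ray k 2 = -de k := rfl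
    have e3 : ray k 3 = de k ^ 2 := rfl
    rw [e0, e1, e2, e3]
    exact ⟨by linarith, by linarith, by positivity, by linarith⟩
  · simp only [Pi.add_apply]
    obtain ⟨a1, a2, a3, a4⟩ := ha
    obtain ⟨b1, b2, b3, b4⟩ := hb
    exact ⟨by linarith, by linarith, by linarith, by linarith⟩
  · simp only [Pi.smul_apply, smul_eq_mul]
    obtain ⟨a1, a2, a3, a4⟩ := ha
    exact ⟨mul_nonneg hc a1, mul_nonneg hc a2, mul_nonneg hc a3, by
      have := mul_nonneg hc a4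
      linarith⟩

theorem Gam_pos4 {y : Fin 4 → ℝ} (hy : y ∈ Gam) :
    0 < y 0 ∧ 0 < y 1 ∧ 0 < y 3 ∧ 0 < y 0 + y 1 + y 2 := by
  obtain ⟨w, hw, h⟩ := hy
  obtain ⟨a1, a2, a3, a4⟩ := span_pos hw
  exact ⟨by linarith [h 0], by linarith [h 1], by linarith [h 3], by linarith [h 0, h 1, h 2]⟩

theorem lin_zero {a b : ℝ} (h : ∀ t : ℝ, 0 < a + t * b) : b = 0 := by
  by_contra hb
  have := h (-a / b)
  rw [div_mul_cancel₀ _ hb] at this
  linarith

theorem regular_Gam : Regular Gam := by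
  refine ⟨?_, ?_, ?_, fun y v hv => ?_⟩
  · have e : Gam = ⋃ w ∈ Submodule.span ℝ≥0 (range ray), ⋂ i, {y : Fin 4 → ℝ | w i < y i} := by
      ext y
      simp [Gam]
    rw [e]
    exact isOpen_biUnion fun w _ => isOpen_iInter_of_finite fun i =>
      isOpen_lt continuous_const (continuous_apply i)
  · rintro y ⟨w, hw, h⟩ y' ⟨w', hw', h'⟩ a b ha hb hab
    refine ⟨a • w + b • w', Submodule.add_mem _ (span_smul ha hw) (span_smul hb hw'), fun i => ?_⟩
    have := convex_Ioi (0 : ℝ) (show y i - w i ∈ Ioi (0 : ℝ) from sub_pos.2 (h i))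
      (show y' i - w' i ∈ Ioi (0 : ℝ) from sub_pos.2 (h' i)) ha hb hab
    simp only [mem_Ioi, smul_eq_mul] at this
    simp only [Pi.add_apply, Pi.smul_apply, smul_eq_mul]
    linarith
  · rintro s hs y ⟨w, hw, h⟩
    exact ⟨s • w, span_smul hs.le hw, fun i => mul_lt_mul_of_pos_left (h i) hs⟩
  · by_contra hc
    push Not at hc
    have k := fun t => Gam_pos4 (hc t)
    simp only [Pi.add_apply, Pi.smul_apply, smul_eq_mul] at k
    have v0 : v 0 = 0 := lin_zero fun t => (k t).1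
    have v1 : v 1 = 0 := lin_zero fun t => (k t).2.1
    have v3 : v 3 = 0 := lin_zero fun t => (k t).2.2.1
    have v2 : v 0 + v 1 + v 2 = 0 :=
      lin_zero (a := y 0 + y 1 + y 2) fun t => by linarith [(k t).2.2.2]
    refine hv (funext fun i => ?_)
    fin_cases i
    · exact v0
    · exact v1
    · show v 2 = 0
      linarith
    · exact v3

theorem Gam_pos {y : Fin 4 → ℝ} (hy : y ∈ Gam) : 0 < y 0 ∧ 0 < y 1 ∧ 0 < y 3 :=
  ⟨(Gam_pos4 hy).1, (Gam_pos4 hy).2.1, (Gam_pos4 hy).2.2.1⟩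

theorem ray_add_mem (k : ℕ) {ρ κ : ℝ} (hρ : 0 ≤ ρ) (hκ : 0 < κ) :
    (ρ • ray k + fun _ => κ) ∈ Gam :=
  ⟨ρ • ray k, span_smul hρ (Submodule.subset_span ⟨k, rfl⟩), fun _ => lt_add_of_pos_right _ hκ⟩

theorem nonneg_of_pert {a s : ℝ} (h : ∀ κ : ℝ, 0 < κ → 0 ≤ a + κ * s) : 0 ≤ a := by
  refine le_of_forall_pos_le_add fun ε hε => ?_
  have h1 : 0 < |s| + 1 := by positivity
  have h2 := h (ε / (|s| + 1)) (by positivity)
  have h3 : ε / (|s| + 1) * s ≤ ε := by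
    rw [div_mul_eq_mul_div, div_le_iff₀ h1]
    exact mul_le_mul_of_nonneg_left (by linarith [le_abs_self s]) hε.le
  linarith

theorem mem_Du {t : Fin 4 → ℝ} : t ∈ Du Gam ↔ (∀ i, 0 ≤ t i) ∧ ∀ k, 0 ≤ ray k ⬝ᵥ t := by
  constructor
  · intro h
    refine ⟨fun i => nonneg_of_pert (s := ∑ j, t j) fun κ hκ => ?_,
      fun k => nonneg_of_pert (s := ∑ j, t j) fun κ hκ => ?_⟩
    · have := h (Pi.single i 1 + fun _ => κ) ⟨0, Submodule.zero_mem _, fun j => by
        have : (0 : ℝ) ≤ (Pi.single i 1 : Fin 4 → ℝ) j := by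
          rw [Pi.single_apply]
          split_ifs <;> norm_num
        simp only [Pi.zero_apply, Pi.add_apply]
        linarith⟩
      rw [add_dotProduct, single_dotProduct, one_mul] at this
      rwa [Finset.mul_sum]
    · have := h _ (ray_add_mem k zero_le_one hκ)
      rw [add_dotProduct, one_smul] at this
      rwa [Finset.mul_sum]
  · rintro ⟨h1, h2⟩ y ⟨w, hw, h⟩
    exact (span_dot h2 hw).trans
      (Finset.sum_le_sum fun i _ => mul_le_mul_of_nonneg_right (h i).le (h1 i))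

theorem dot_pos {t : Fin 4 → ℝ} (h1 : ∀ i, 0 < t i) (h2 : ∀ k, 0 ≤ ray k ⬝ᵥ t) {y : Fin 4 → ℝ}
    (hy : y ∈ Gam) : 0 < y ⬝ᵥ t := by
  obtain ⟨w, hw, h⟩ := hy
  exact (span_dot h2 hw).trans_lt (Finset.sum_lt_sum_of_nonempty Finset.univ_nonempty
    fun i _ => mul_lt_mul_of_pos_right (h i) (h1 i))

theorem measurableSet_piece (m : ℕ) : MeasurableSet (piece m) := by
  have h1 : MeasurableSet {t : Fin 4 → ℝ | 2 * de m * t 3 < t 2} :=
    measurableSet_lt (by fun_prop) (by fun_prop)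
  have h2 : MeasurableSet {t : Fin 4 → ℝ | t 2 ≤ 2 * de (m - 1) * t 3} :=
    measurableSet_le (by fun_prop) (by fun_prop)
  by_cases hm : m = 0
  · have e : piece m = {t : Fin 4 → ℝ | 2 * de m * t 3 < t 2} := by
      ext t
      simp [piece, hm]
    rwa [e]
  · have e : piece m = {t : Fin 4 → ℝ | 2 * de m * t 3 < t 2} ∩
        {t : Fin 4 → ℝ | t 2 ≤ 2 * de (m - 1) * t 3} := by
      ext t
      simp [piece, hm]
    rw [e]
    exact h1.inter h2

theorem piece_le {t : Fin 4 → ℝ} (ht : 0 ≤ t 3) {m l : ℕ} (hm : t ∈ piece m)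
    (hl : t ∈ piece l) : l ≤ m := by
  by_contra hc
  have h1 := hl.2 (by omega)
  have h2 := mul_le_mul_of_nonneg_right (de_anti (show m ≤ l - 1 by omega)) ht
  linarith [hm.1]

theorem piece_unique {t : Fin 4 → ℝ} (ht : 0 ≤ t 3) {m l : ℕ} (hm : t ∈ piece m)
    (hl : t ∈ piece l) : m = l := le_antisymm (piece_le ht hl hm) (piece_le ht hm hl)

/-- the eight generators, `χ = 0` for the first piece and `χ = 1` for the others -/
noncomputable def gen (m : ℕ) (χ : ℝ) : Fin 8 → Fin 4 → ℝ :=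
  ![![1, 0, 0, 0], ![0, 1, 0, 0], ![0, 0, 1, 0], ![0, 0, 0, 1], ray m, ray (m - 1),
    ![0, 0, 1, -(2 * de m)], ![0, 0, -χ, 2 * de (m - 1) * χ]]

theorem gen_sum (m : ℕ) (χ : ℝ) (r : Fin 8 → ℝ) : ∑ i, r i • gen m χ i =
    ![r 0 + r 4 * aa m + r 5 * aa (m - 1), r 1 + r 4 * (1 - aa m) + r 5 * (1 - aa (m - 1)),
      r 2 - r 4 * de m - r 5 * de (m - 1) + r 6 - r 7 * χ,
      r 3 + r 4 * de m ^ 2 + r 5 * de (m - 1) ^ 2 - r 6 * (2 * de m) +
        r 7 * (2 * de (m - 1) * χ)] := by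
  ext i
  fin_cases i <;> simp [gen, ray, Fin.sum_univ_eight] <;> ring

theorem gen_ray (m : ℕ) (χ : ℝ) (hχ : m ≠ 0 → χ = 1) (j : ℕ) :
    ∃ r : Fin 8 → ℝ, (∀ i, 0 ≤ r i) ∧ ray j = ∑ i, r i • gen m χ i := by
  have a1 := aa_ge j
  have a2 := aa_le j
  have d0 := de_pos j
  rcases (by omega : j + 2 ≤ m ∨ j = m - 1 ∨ j = m ∨ m + 1 ≤ j) with h | h | h | h
  · have d1 := de_anti (show j + 1 ≤ m - 1 by omega)
    rw [de_succ] at d1
    refine ⟨![aa j, 1 - aa j, 0, de j * (de j - 2 * de (m - 1)), 0, 0, 0, de j], fun i => ?_, ?_⟩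
    · have := mul_nonneg d0.le (show 0 ≤ de j - 2 * de (m - 1) by linarith)
      fin_cases i <;> simp <;> linarith
    · rw [gen_sum, hχ (by omega)]
      ext i
      fin_cases i <;> simp [ray]
      ring
  · refine ⟨![0, 0, 0, 0, 0, 1, 0, 0], fun i => by fin_cases i <;> simp, ?_⟩
    rw [gen_sum, h]
    ext i
    fin_cases i <;> simp [ray]
  · refine ⟨![0, 0, 0, 0, 1, 0, 0, 0], fun i => by fin_cases i <;> simp, ?_⟩
    rw [gen_sum, h]
    ext i
    fin_cases i <;> simp [ray]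
  · have d1 := de_anti h
    rw [de_succ] at d1
    have d2 := de_pos m
    have b1 := aa_ge m
    have b2 := aa_le m
    obtain ⟨θ, t0, t1, t2⟩ : ∃ θ : ℝ, 0 ≤ θ ∧ θ ≤ 1 / 4 ∧ θ * de m = 2 * de j :=
      ⟨2 * de j / de m, by positivity, by rw [div_le_iff₀ d2]; linarith, by field_simp⟩
    have c1 : θ * aa m ≤ 1 / 4 := by nlinarith
    have c2 : θ * (1 - aa m) ≤ 1 / 4 := by nlinarith
    refine ⟨![aa j - θ * aa m, 1 - aa j - θ * (1 - aa m), 0, de j ^ 2, θ, 0, de j, 0],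
      fun i => ?_, ?_⟩
    · have := sq_nonneg (de j)
      fin_cases i <;> simp <;> linarith
    · rw [gen_sum]
      ext i
      fin_cases i <;> simp [ray]
      · linarith
      · have : θ * de m ^ 2 = 2 * de j * de m := by rw [← t2]; ring
        linarith

/-- on a piece the dual cone is polyhedral -/
theorem exists_gen (m : ℕ) : ∃ g : Fin 8 → Fin 4 → ℝ,
    (∀ t ∈ Du Gam, t ∈ piece m → ∀ i, 0 ≤ g i ⬝ᵥ t) ∧
      ∀ y ∈ Gam, ∃ r : Fin 8 → ℝ, (∀ i, 0 ≤ r i) ∧ y = ∑ i, r i • g i := by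
  refine ⟨gen m (if m = 0 then 0 else 1), fun t ht hp i => ?_, ?_⟩
  · obtain ⟨h1, h2⟩ := mem_Du.1 ht
    have p1 := hp.1
    rw [dot4]
    fin_cases i
    · simpa [gen] using h1 0
    · simpa [gen] using h1 1
    · simpa [gen] using h1 2
    · simpa [gen] using h1 3
    · exact (h2 m).trans_eq (dot4 _ _)
    · exact (h2 (m - 1)).trans_eq (dot4 _ _)
    · simp [gen]
      linarith
    · by_cases hm : m = 0
      · simp [gen, hm]
      · have := hp.2 hm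
        simp [gen, hm]
        linarith
  · rintro y ⟨w, hw, h⟩
    obtain ⟨r, r0, hr⟩ := span_ind (P := fun w => ∃ r : Fin 8 → ℝ, (∀ i, 0 ≤ r i) ∧
        w = ∑ i, r i • gen m (if m = 0 then 0 else 1) i) ⟨0, fun _ => le_rfl, by simp⟩
      (gen_ray m _ fun hm => if_neg hm)
      (fun a b ⟨r, r0, e⟩ ⟨r', r0', e'⟩ => ⟨r + r', fun i => add_nonneg (r0 i) (r0' i), by
        simp only [Pi.add_apply, add_smul, Finset.sum_add_distrib, ← e, ← e']⟩)
      (fun c hc a ⟨r, r0, e⟩ => ⟨c • r, fun i => mul_nonneg hc (r0 i), by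
        simp only [Pi.smul_apply, smul_eq_mul, mul_smul, ← Finset.smul_sum, ← e]⟩) hw
    refine ⟨r + ![y 0 - w 0, y 1 - w 1, y 2 - w 2, y 3 - w 3, 0, 0, 0, 0],
      fun i => add_nonneg (r0 i) ?_, ?_⟩
    · have h0 := h 0
      have h1 := h 1
      have h2 := h 2
      have h3 := h 3
      fin_cases i <;> simp <;> linarith
    · simp only [Pi.add_apply, add_smul, Finset.sum_add_distrib, ← hr]
      rw [gen_sum]
      ext i
      fin_cases i <;> simp

theorem exists_piece {t : Fin 4 → ℝ} (h : 0 < t 2) : ∃ m, t ∈ piece m := by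
  have hex : ∃ m, 2 * de m * t 3 < t 2 := by
    have h1 : Tendsto (fun m => 2 * de m * t 3) atTop (𝓝 (2 * 0 * t 3)) :=
      ((tendsto_pow_atTop_nhds_zero_of_lt_one (by norm_num) (by norm_num)).const_mul 2).mul_const _
    rw [mul_zero, zero_mul] at h1
    exact (h1.eventually_lt_const h).exists
  classical
  exact ⟨Nat.find hex, Nat.find_spec hex, fun h0 => not_lt.1 (Nat.find_min hex (by omega))⟩

theorem test_ray (m k : ℕ) {a : ℝ} (ha : 1 / 4 ≤ a) :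
    0 ≤ a * (32 * de (m + 2) ^ 2) - de k * (8 * de (m + 2)) + de k ^ 2 := by
  have d0 := de_pos (m + 2)
  have d1 := de_pos k
  have h1 := mul_le_mul_of_nonneg_right ha (show 0 ≤ 32 * de (m + 2) ^ 2 by positivity)
  rcases le_or_gt (m + 2) k with h | h
  · have := mul_nonneg d0.le (sub_nonneg.2 (de_anti h))
    nlinarith [sq_nonneg (de k)]
  · have h2 := de_anti (show k ≤ m + 1 by omega)
    have h3 := de_succ (m + 1)
    have := mul_nonneg d1.le (show 0 ≤ de k - 8 * de (m + 2) by linarith)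
    nlinarith [sq_nonneg (de (m + 2))]

theorem few_num {y0 y1 y3 b D s0 s1 s2 s3 u0 u1 t2 t3 a : ℝ} (h3 : 0 < y3) (hb : 0 < b)
    (hD : 0 < D) (c0 : 0 ≤ s0) (c1 : 0 ≤ s1) (c3 : 0 ≤ s3) (c2 : 0 < s2) (d0 : 0 ≤ u0)
    (d1 : 0 ≤ u1) (d2 : 0 < t2) (a1 : 1 / 4 ≤ a) (a2 : a ≤ 3 / 4)
    (sb : (y0 * s0 + y1 * s1 + y3 * s3) / 2 < b * s2) (tb : (u0 + u1 + y3 * t3) / 2 < b * t2)
    (l : t2 ≤ 2 * D * t3) (r : 0 ≤ a * s0 + (1 - a) * s1 - 64 * D * s2 + (64 * D) ^ 2 * s3)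
    (p : 2 * (64 * D) * s3 < s2) (τ0 : 0 ≤ y0 * (32 * D ^ 2) - b * (8 * D) + y3)
    (τ1 : 0 ≤ y1 * (32 * D ^ 2) - b * (8 * D) + y3) : False := by
  have e1 : 0 < t3 := (mul_pos_iff_of_pos_left (show 0 < 2 * D by linarith)).1 (d2.trans_le l)
  have e2 : y3 < 4 * b * D := by
    refine lt_of_mul_lt_mul_right ?_ e1.le
    have := mul_le_mul_of_nonneg_left l hb.le
    linarith
  have e3 : 32 * D * s2 ≤ s0 + s1 := by
    have f1 := mul_lt_mul_of_pos_left p (show 0 < 32 * D by linarith)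
    have f2 := mul_le_mul_of_nonneg_right (show a ≤ 1 by linarith) c0
    have f3 := mul_le_mul_of_nonneg_right (show 1 - a ≤ 1 by linarith) c1
    linarith
  have e4 : b ≤ 8 * D * y0 := le_of_mul_le_mul_left (by linarith) (show 0 < 4 * D by linarith)
  have e5 : b ≤ 8 * D * y1 := le_of_mul_le_mul_left (by linarith) (show 0 < 4 * D by linarith)
  have f1 := mul_le_mul_of_nonneg_right e4 c0
  have f2 := mul_le_mul_of_nonneg_right e5 c1
  have f3 := mul_le_mul_of_nonneg_left e3 hb.le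
  have f4 := mul_nonneg h3.le c3
  have f5 : y0 * s0 + y1 * s1 < 2 * (b * s2) := by linarith
  have f6 := mul_lt_mul_of_pos_left f5 (show 0 < 8 * D by linarith)
  have f7 := mul_pos hD (mul_pos hb c2)
  linarith

/-- only three pieces meet the bad region of a point of the cone -/
theorem few {y : Fin 4 → ℝ} (hy : y ∈ Gam) : ∃ m : ℕ, ∀ t ∈ Du Gam,
    (y 0 * t 0 + y 1 * t 1 + y 3 * t 3) / 2 < -y 2 * t 2 →
      t ∈ piece m ∨ t ∈ piece (m + 1) ∨ t ∈ piece (m + 2) := by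
  obtain ⟨y0, y1, y3⟩ := Gam_pos hy
  have bad : ∀ t ∈ Du Gam, (y 0 * t 0 + y 1 * t 1 + y 3 * t 3) / 2 < -y 2 * t 2 →
      0 < t 2 ∧ 0 < -y 2 := fun t ht hb => by
    have h := (mem_Du.1 ht).1
    have a0 := mul_nonneg y0.le (h 0)
    have a1 := mul_nonneg y1.le (h 1)
    have a3 := mul_nonneg y3.le (h 3)
    have a4 : 0 < -y 2 * t 2 := by linarith
    have a5 : 0 < t 2 := lt_of_le_of_ne (h 2) fun e => by
      rw [← e, mul_zero] at a4
      exact lt_irrefl _ a4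
    exact ⟨a5, (mul_pos_iff_of_pos_right a5).1 a4⟩
  by_cases hex : ∃ m, ∃ t ∈ Du Gam,
      (y 0 * t 0 + y 1 * t 1 + y 3 * t 3) / 2 < -y 2 * t 2 ∧ t ∈ piece m
  swap
  · refine ⟨0, fun t ht hb => ?_⟩
    obtain ⟨l, hl⟩ := exists_piece (bad t ht hb).1
    exact absurd ⟨l, t, ht, hb, hl⟩ hex
  classical
  obtain ⟨s, hs, sb, sp⟩ := Nat.find_spec hex
  refine ⟨Nat.find hex, fun t ht hb => ?_⟩
  obtain ⟨l, hl⟩ := exists_piece (bad t ht hb).1
  have ml : Nat.find hex ≤ l := Nat.find_min' hex ⟨t, ht, hb, hl⟩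
  generalize Nat.find hex = m at sp ml ⊢
  rcases (by omega : l = m ∨ l = m + 1 ∨ l = m + 2 ∨ m + 3 ≤ l) with e | e | e | e
  · exact Or.inl (e ▸ hl)
  · exact Or.inr (Or.inl (e ▸ hl))
  · exact Or.inr (Or.inr (e ▸ hl))
  exfalso
  obtain ⟨t2, b0⟩ := bad t ht hb
  obtain ⟨s2, -⟩ := bad s hs sb
  obtain ⟨hs1, hs2⟩ := mem_Du.1 hs
  have ht1 := (mem_Du.1 ht).1
  have τ0 := mem_Du.2 (show
      (∀ i, 0 ≤ (![32 * de (m + 2) ^ 2, 0, 8 * de (m + 2), 1] : Fin 4 → ℝ) i) ∧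
      ∀ k, 0 ≤ ray k ⬝ᵥ ![32 * de (m + 2) ^ 2, 0, 8 * de (m + 2), 1] from
    ⟨fun i => by have := (de_pos (m + 2)).le; fin_cases i <;> simp <;> positivity, fun k => by
      have := test_ray m k (aa_ge k)
      rw [ray_dot]; simpa using this⟩) y hy
  have τ1 := mem_Du.2 (show
      (∀ i, 0 ≤ (![0, 32 * de (m + 2) ^ 2, 8 * de (m + 2), 1] : Fin 4 → ℝ) i) ∧
      ∀ k, 0 ≤ ray k ⬝ᵥ ![0, 32 * de (m + 2) ^ 2, 8 * de (m + 2), 1] from
    ⟨fun i => by have := (de_pos (m + 2)).le; fin_cases i <;> simp <;> positivity, fun k => by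
      have := test_ray m k (a := 1 - aa k) (by linarith [aa_le k])
      rw [ray_dot]; simpa using this⟩) y hy
  rw [dot4] at τ0 τ1
  simp only [Matrix.cons_val_zero, Matrix.cons_val_one, Matrix.cons_val] at τ0 τ1
  have D0 := de_pos (m + 2)
  have e1 : de m = 64 * de (m + 2) := by
    have := de_succ m
    have := de_succ (m + 1)
    linarith
  have l1 := hl.2 (by omega)
  have l2 := mul_le_mul_of_nonneg_right (de_anti (show m + 2 ≤ l - 1 by omega)) (ht1 3)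
  have r1 := hs2 m
  have p1 := sp.1
  rw [ray_dot, e1] at r1
  rw [e1] at p1
  have a1 := aa_ge m
  have a2 := aa_le m
  exact few_num (b := -y 2) (a := aa m) y3 b0 D0 (hs1 0) (hs1 1) (hs1 3) s2
    (mul_nonneg y0.le (ht1 0)) (mul_nonneg y1.le (ht1 1)) t2 a1 a2 sb hb (by linarith) r1 p1
    (by linarith) (by linarith)

end Pool.Agent.Lib.MP_730078_an.PC
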