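import Pool.Agent.Lib.MP_730078_an.PC.Defs

set_option autoImplicit false

open MeasureTheory Set Filter Topology Complex
open scoped ENNReal Real NNReal FourierTransform

namespace Pool.Agent.Lib.MP_730078_an.PC

theorem KerH.four_dm : Integrable (fun v : ℝ => dm |v|) ∧
    ∀ s : ℝ, 𝓕 (fun v : ℝ => dm |v|) s = (Pk s : ℂ) := by
  have hp := Real.pi_pos
  have hd : (fun v : ℝ => dm |v|) = fun v : ℝ => cexp (-(2 * π * (|v| : ℝ))) := by
    funext v
    rw [dm]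
    push_cast
    rfl
  rw [hd]
  have i1 : ∀ s : ℝ, IntegrableOn (fun v : ℝ => cexp ((2 * π * (1 - s * I)) * v)) (Iic 0) :=
    fun s => integrableOn_exp_mul_complex_Iic (by simp; positivity) 0
  have i2 : ∀ s : ℝ, IntegrableOn (fun v : ℝ => cexp ((2 * π * (-1 - s * I)) * v)) (Ioi 0) :=
    fun s => integrableOn_exp_mul_complex_Ioi (by simp; positivity) 0
  have e1' : ∀ s : ℝ, EqOn (fun v : ℝ => cexp ((2 * π * (1 - s * I)) * v))
      (fun v : ℝ => cexp ((-2 * π * v * s : ℝ) * I) • cexp (-(2 * π * (|v| : ℝ)))) (Iic 0) := by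
    intro s v hv
    simp only [smul_eq_mul, ← Complex.exp_add, abs_of_nonpos (mem_Iic.1 hv)]
    congr 1
    push_cast
    ring
  have e2' : ∀ s : ℝ, EqOn (fun v : ℝ => cexp ((2 * π * (-1 - s * I)) * v))
      (fun v : ℝ => cexp ((-2 * π * v * s : ℝ) * I) • cexp (-(2 * π * (|v| : ℝ)))) (Ioi 0) := by
    intro s v hv
    simp only [smul_eq_mul, ← Complex.exp_add, abs_of_pos (mem_Ioi.1 hv)]
    congr 1
    push_cast
    ring
  have j1 := fun s => (i1 s).congr_fun (e1' s) measurableSet_Iic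
  have j2 := fun s => (i2 s).congr_fun (e2' s) measurableSet_Ioi
  refine ⟨?_, fun s => ?_⟩
  · have := (j1 0).union (j2 0)
    rw [Iic_union_Ioi, integrableOn_univ] at this
    simpa using this
  · rw [Real.fourier_real_eq_integral_exp_smul,
      ← intervalIntegral.integral_Iic_add_Ioi (j1 s) (j2 s),
      ← setIntegral_congr_fun measurableSet_Iic (e1' s),
      ← setIntegral_congr_fun measurableSet_Ioi (e2' s),
      integral_exp_mul_complex_Iic (by simp; positivity),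
      integral_exp_mul_complex_Ioi (by simp; positivity), Pk]
    have h1 : (1 - s * I : ℂ) ≠ 0 := fun h => by simpa using congrArg re h
    have h2 : (-1 - s * I : ℂ) ≠ 0 := fun h => by simpa using congrArg re h
    have h3 : (1 + s ^ 2 : ℂ) ≠ 0 := by exact_mod_cast (by positivity : (1 + s ^ 2 : ℝ) ≠ 0)
    have h4 : (π : ℂ) ≠ 0 := by exact_mod_cast hp.ne'
    simp only [ofReal_zero, mul_zero, Complex.exp_zero]
    push_cast
    field_simp
    linear_combination (-2 * s ^ 2 : ℂ) * I_sq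

/-- the Fourier transform of the Poisson kernel -/
theorem int_Pk (a : ℝ) : ∫ s : ℝ, (Pk s : ℂ) * ch (s * a) = dm |a| := by
  have hF : 𝓕 (fun v : ℝ => dm |v|) = fun s => (Pk s : ℂ) := funext KerH.four_dm.2
  have hi : Integrable (𝓕 (fun v : ℝ => dm |v|)) := hF ▸ integrable_Pk.ofReal
  have hc : Continuous fun v : ℝ => dm |v| := by fun_prop
  have inv := hc.fourierInv_fourier_eq KerH.four_dm.1 hi
  rw [← congrFun inv a, Real.fourierInv_eq', hF]
  congr 1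
  funext s
  simp only [RCLike.inner_apply, conj_trivial, smul_eq_mul, ch]
  rw [mul_comm]
  congr 2
  push_cast
  ring

namespace KerH

theorem one_add_ne (x : ℝ) : (1 + x * I : ℂ) ≠ 0 := fun h => by simpa using congrArg re h

theorem dm_eq (s : ℝ) : dm s = cexp (-(2 * π * s)) := by
  rw [dm]
  push_cast
  rfl

theorem inv_eq_int (x : ℝ) :
    ∫ s in Ioi (0 : ℝ), dm s * ch (-(x * s)) = (2 * π * (1 + x * I) : ℂ)⁻¹ := by
  have hp := Real.pi_pos
  have e : ∀ s : ℝ, dm s * ch (-(x * s)) = cexp ((-(2 * π * (1 + x * I))) * s) := by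
    intro s
    rw [dm_eq, ch, ← Complex.exp_add]
    congr 1
    push_cast
    ring
  simp only [e]
  rw [integral_exp_mul_complex_Ioi (by simp; positivity)]
  simp

theorem intOn_dm {c : ℝ} (hc : 0 < c) : IntegrableOn (fun s : ℝ => dm (c * s)) (Ioi 0) := by
  have hp := Real.pi_pos
  have e : (fun s : ℝ => dm (c * s)) = fun s : ℝ => cexp ((-(2 * π * c) : ℂ) * s) := by
    funext s
    rw [dm_eq]
    congr 1
    push_cast
    ring
  rw [e]
  exact integrableOn_exp_mul_complex_Ioi (by simp; positivity) 0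

theorem int_dm_two : ∫ s in Ioi (0 : ℝ), dm (2 * s) = (4 * π : ℂ)⁻¹ := by
  have hp := Real.pi_pos
  have e : (fun s : ℝ => dm (2 * s)) = fun s : ℝ => cexp ((-(4 * π) : ℂ) * s) := by
    funext s
    rw [dm_eq]
    congr 1
    push_cast
    ring
  rw [e, integral_exp_mul_complex_Ioi (by simp; positivity)]
  simp

theorem ker_step {k : ℝ → ℂ} (hk : Integrable k)
    (h : ∀ τ : ℝ, τ ≤ 0 → ∫ ξ : ℝ, k ξ * ch (ξ * τ) = dm (-τ)) (τ : ℝ) (hτ : τ ≤ 0) :
    ∫ ξ : ℝ, k ξ * (2 * (1 + ξ * I)⁻¹) * ch (ξ * τ) = dm (-τ) := by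
  have h4 : (π : ℂ) ≠ 0 := by exact_mod_cast Real.pi_pos.ne'
  have e : ∀ ξ : ℝ, k ξ * (2 * (1 + ξ * I)⁻¹) * ch (ξ * τ) =
      4 * π * ∫ s in Ioi (0 : ℝ), dm s * (k ξ * ch (ξ * (τ - s))) := by
    intro ξ
    have e2 : ∀ s : ℝ, dm s * (k ξ * ch (ξ * (τ - s))) =
        k ξ * ch (ξ * τ) * (dm s * ch (-(ξ * s))) := by
      intro s
      rw [show ξ * (τ - s) = ξ * τ + -(ξ * s) by ring, ch_add]
      ring
    simp only [e2]
    rw [integral_const_mul, inv_eq_int]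
    have := one_add_ne ξ
    field_simp
    ring
  have hd : Integrable (fun s : ℝ => dm s) (volume.restrict (Ioi 0)) := by
    have := intOn_dm one_pos
    simp only [one_mul] at this
    exact this
  have hi : Integrable (Function.uncurry fun (ξ s : ℝ) => dm s * (k ξ * ch (ξ * (τ - s))))
      (volume.prod (volume.restrict (Ioi 0))) := by
    have h1 := hk.mul_prod hd
    have h2 : Continuous fun p : ℝ × ℝ => ch (p.1 * (τ - p.2)) := by fun_prop
    refine (h1.mul_bdd (c := 1) h2.aestronglyMeasurable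
      (Eventually.of_forall fun p => (norm_ch _).le)).congr (Eventually.of_forall fun p => ?_)
    simp only [Function.uncurry]
    ring
  simp only [e]
  rw [integral_const_mul, integral_integral_swap hi]
  have e3 : EqOn (fun s : ℝ => ∫ ξ : ℝ, dm s * (k ξ * ch (ξ * (τ - s))))
      (fun s : ℝ => dm (-τ) * dm (2 * s)) (Ioi 0) := by
    intro s hs
    have hs' : 0 < s := hs
    simp only
    rw [integral_const_mul, h _ (by linarith), ← dm_add, ← dm_add]
    congr 1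
    ring
  rw [setIntegral_congr_fun measurableSet_Ioi e3, integral_const_mul, int_dm_two]
  field_simp

theorem norm_inv_sq (x : ℝ) : ‖(1 + x * I : ℂ)⁻¹‖ ^ 2 = (1 + x ^ 2)⁻¹ := by
  rw [norm_inv, inv_pow, Complex.sq_norm, Complex.normSq_apply]
  congr 1
  simp
  ring

theorem norm_inv_le (x : ℝ) : ‖(1 + x * I : ℂ)⁻¹‖ ≤ 1 := by
  have h : ‖(1 + x * I : ℂ)⁻¹‖ ^ 2 ≤ 1 := by
    rw [norm_inv_sq]
    exact inv_le_one_of_one_le₀ (by nlinarith [sq_nonneg x])
  exact (pow_le_one_iff_of_nonneg (norm_nonneg _) two_ne_zero).1 h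

theorem cont_ker (j : ℕ) :
    Continuous fun ξ : ℝ => (Pk ξ : ℂ) * (2 * (1 + ξ * I)⁻¹) ^ j := by
  have h : Continuous fun ξ : ℝ => (1 + ξ * I : ℂ)⁻¹ := Continuous.inv₀ (by fun_prop) one_add_ne
  fun_prop

theorem norm_ker (j : ℕ) (ξ : ℝ) : ‖(Pk ξ : ℂ) * (2 * (1 + ξ * I)⁻¹) ^ j‖ =
    2 ^ j * Pk ξ * ‖(1 + ξ * I : ℂ)⁻¹‖ ^ j := by
  rw [norm_mul, norm_pow, norm_mul, Complex.norm_real, Real.norm_of_nonneg (Pk_pos ξ).le, mul_pow]
  simp only [Complex.norm_ofNat]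
  ring

theorem int_ker (j : ℕ) :
    Integrable fun ξ : ℝ => (Pk ξ : ℂ) * (2 * (1 + ξ * I)⁻¹) ^ j := by
  refine (integrable_Pk.const_mul (2 ^ j)).mono' (cont_ker j).aestronglyMeasurable
    (Eventually.of_forall fun ξ => ?_)
  rw [norm_ker]
  have := Pk_pos ξ
  exact mul_le_of_le_one_right (by positivity) (pow_le_one₀ (norm_nonneg _) (norm_inv_le ξ))

theorem four_ker (j : ℕ) : ∀ τ : ℝ, τ ≤ 0 →
    ∫ ξ : ℝ, (Pk ξ : ℂ) * (2 * (1 + ξ * I)⁻¹) ^ j * ch (ξ * τ) = dm (-τ) := by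
  induction j with
  | zero =>
    intro τ hτ
    simp only [pow_zero, mul_one]
    rw [int_Pk, abs_of_nonpos hτ]
  | succ j ih =>
    intro τ hτ
    rw [← ker_step (int_ker j) ih τ hτ]
    simp only [pow_succ, mul_assoc]

end KerH

open KerH in
/-- a kernel with fast decay whose Fourier transform is an exponential on a half line -/
theorem exists_ker : ∃ k : ℝ → ℂ, Continuous k ∧
    Integrable (fun ξ : ℝ => (1 + 9 * ξ ^ 2) ^ 4 * ‖k ξ‖) ∧
      ∀ τ : ℝ, τ ≤ 0 → ∫ ξ : ℝ, k ξ * ch (ξ * τ) = dm (-τ) := by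
  refine ⟨_, cont_ker 8, ?_, four_ker 8⟩
  have hc := cont_ker 8
  refine (integrable_Pk.const_mul (9 ^ 4 * 2 ^ 8)).mono'
    (Continuous.aestronglyMeasurable (by fun_prop)) (Eventually.of_forall fun ξ => ?_)
  have hP := Pk_pos ξ
  rw [Real.norm_of_nonneg (by positivity), norm_ker,
    show ‖(1 + ξ * I : ℂ)⁻¹‖ ^ 8 = (‖(1 + ξ * I : ℂ)⁻¹‖ ^ 2) ^ 4 by ring, norm_inv_sq]
  have h1 : (1 + 9 * ξ ^ 2) * (1 + ξ ^ 2)⁻¹ ≤ 9 := by
    rw [← div_eq_mul_inv, div_le_iff₀ (by positivity)]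
    nlinarith [sq_nonneg ξ]
  have h2 : ((1 + 9 * ξ ^ 2) * (1 + ξ ^ 2)⁻¹) ^ 4 ≤ 9 ^ 4 :=
    pow_le_pow_left₀ (by positivity) h1 4
  calc (1 + 9 * ξ ^ 2) ^ 4 * (2 ^ 8 * Pk ξ * (1 + ξ ^ 2)⁻¹ ^ 4)
      = ((1 + 9 * ξ ^ 2) * (1 + ξ ^ 2)⁻¹) ^ 4 * (2 ^ 8 * Pk ξ) := by ring
    _ ≤ 9 ^ 4 * (2 ^ 8 * Pk ξ) := mul_le_mul_of_nonneg_right h2 (by positivity)
    _ = 9 ^ 4 * 2 ^ 8 * Pk ξ := by ring

end Pool.Agent.Lib.MP_730078_an.PC
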