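import Pool.Agent.Lib.MP_730078_an.PC.Defs

set_option autoImplicit false

open MeasureTheory Set Filter Topology Complex
open scoped ENNReal Real NNReal FourierTransform SchwartzMap

namespace Pool.Agent.Lib.MP_730078_an.PC

variable {n : ℕ}

theorem planch_ae {E : Type} [NormedAddCommGroup E] [InnerProductSpace ℝ E] [FiniteDimensional ℝ E]
    [MeasurableSpace E] [BorelSpace E] {f : E → ℂ} (h1 : Integrable f) (h2 : MemLp f 2) :
    ∀ᵐ x, (𝓕 (h2.toLp f) : Lp (α := E) ℂ 2) x = 𝓕 f x := by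
  have hc : Continuous (𝓕 f) := VectorFourier.fourierIntegral_continuous
    Real.continuous_fourierChar (innerSL ℝ).continuous₂ h1
  refine ae_eq_of_integral_contDiff_smul_eq ((Lp.memLp _).locallyIntegrable one_le_two)
    hc.locallyIntegrable fun g hg hs => ?_
  let G : 𝓢(E, ℂ) := HasCompactSupport.toSchwartzMap (f := fun x => ((g x : ℝ) : ℂ))
    (hs.comp_left (g := Complex.ofReal) Complex.ofReal_zero) (Complex.ofRealCLM.contDiff.comp hg)
  have e1 := congrArg (fun T : 𝓢'(E, ℂ) => T G) (Lp.fourier_toTemperedDistribution_eq (h2.toLp f))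
  simp only [TemperedDistribution.fourier_apply, Lp.toTemperedDistribution_apply] at e1
  have e2 : ∫ x, (𝓕 G : 𝓢(E, ℂ)) x • f x = ∫ x, G x • 𝓕 f x := by
    simpa using! VectorFourier.integral_fourierIntegral_smul_eq_flip (L := innerₗ E)
      Real.continuous_fourierChar continuous_inner G.integrable h1
  refine e1.symm.trans (Eq.trans (integral_congr_ae ?_) e2)
  filter_upwards [h2.coeFn_toLp] with x hx
  rw [hx]

theorem planch_E {E : Type} [NormedAddCommGroup E] [InnerProductSpace ℝ E] [FiniteDimensional ℝ E]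
    [MeasurableSpace E] [BorelSpace E] {f : E → ℂ} (h1 : Integrable f) :
    ∫⁻ x, ‖𝓕 f x‖ₑ ^ 2 ≤ ∫⁻ x, ‖f x‖ₑ ^ 2 := by
  have e : ∀ g : E → ℂ, ∫⁻ x, ‖g x‖ₑ ^ 2 = eLpNorm g 2 volume ^ 2 := fun g => by
    simpa using (eLpNorm_nnreal_pow_eq_lintegral (f := g) (μ := volume) (p := 2)
      two_ne_zero).symm
  rw [e, e]
  by_cases h : eLpNorm f 2 volume = ∞
  · rw [h]
    exact le_top
  have h2 : MemLp f 2 := ⟨h1.aestronglyMeasurable, lt_top_iff_ne_top.2 h⟩
  rw [← eLpNorm_congr_ae (planch_ae h1 h2), ← eLpNorm_congr_ae h2.coeFn_toLp, ← Lp.enorm_def,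
    ← Lp.enorm_def, ← ofReal_norm, ← ofReal_norm, Lp.norm_fourier_eq]

theorem fourier_ofLp (f : (Fin n → ℝ) → ℂ) (t : Fin n → ℝ) :
    𝓕 (fun v : EuclideanSpace ℝ (Fin n) => f v.ofLp) (WithLp.toLp 2 t) =
      ∫ u, ch (-(u ⬝ᵥ t)) * f u := by
  rw [Real.fourier_eq', ← (PiLp.volume_preserving_toLp (Fin n)).integral_comp
    (MeasurableEquiv.toLp 2 (Fin n → ℝ)).measurableEmbedding]
  refine integral_congr_ae (Eventually.of_forall fun u => ?_)
  simp only [ch, smul_eq_mul, EuclideanSpace.inner_toLp_toLp, star_trivial, dotProduct_comm t u]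
  congr 2
  push_cast
  ring

/-- Plancherel inequality for integrable functions -/
theorem planch {φ : (Fin n → ℝ) → ℂ} (hm : Measurable φ) (hi : Integrable φ) :
    ∫⁻ x : Fin n → ℝ, ‖∫ t, ch (x ⬝ᵥ t) * φ t‖ₑ ^ 2 ≤ ∫⁻ t, ‖φ t‖ₑ ^ 2 := by
  have h := planch_E ((PiLp.volume_preserving_ofLp (Fin n)).integrable_comp_of_integrable hi)
  have he := (MeasurableEquiv.toLp 2 (Fin n → ℝ)).measurableEmbedding
  rw [← (PiLp.volume_preserving_toLp (Fin n)).lintegral_comp_emb he,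
    ← (PiLp.volume_preserving_toLp (Fin n)).lintegral_comp_emb he, ← lintegral_neg_eq_self] at h
  refine le_trans (le_of_eq (lintegral_congr fun x => ?_)) h
  have := fourier_ofLp φ (-x)
  simp only [dotProduct_neg, neg_neg, dotProduct_comm _ x] at this
  exact congrArg (fun z : ℂ => ‖z‖ₑ ^ 2) this.symm

/-- Fourier inversion -/
theorem inversion {f : (Fin n → ℝ) → ℂ} (hc : Continuous f) (hi : Integrable f)
    (hi' : Integrable fun t : Fin n → ℝ => ∫ u, ch (-(u ⬝ᵥ t)) * f u) (x : Fin n → ℝ) :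
    ∫ t : Fin n → ℝ, ch (x ⬝ᵥ t) * ∫ u, ch (-(u ⬝ᵥ t)) * f u = f x := by
  have e : 𝓕 (fun v : EuclideanSpace ℝ (Fin n) => f v.ofLp) =
      fun v => ∫ u, ch (-(u ⬝ᵥ v.ofLp)) * f u := funext fun v => fourier_ofLp f v.ofLp
  have h := congrFun (Continuous.fourierInv_fourier_eq
    (f := fun v : EuclideanSpace ℝ (Fin n) => f v.ofLp) (hc.comp (PiLp.continuous_ofLp 2 _))
    ((PiLp.volume_preserving_ofLp (Fin n)).integrable_comp_of_integrable hi)
    (by rw [e]; exact (PiLp.volume_preserving_ofLp (Fin n)).integrable_comp_of_integrable hi'))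
    (WithLp.toLp 2 x)
  rw [Real.fourierInv_eq_fourier_neg, e, ← WithLp.toLp_neg,
    fourier_ofLp (fun t => ∫ u, ch (-(u ⬝ᵥ t)) * f u)] at h
  simpa only [dotProduct_neg, neg_neg, dotProduct_comm _ x] using h

end Pool.Agent.Lib.MP_730078_an.PC
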