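import Pool.Agent.Lib.MP_730078_an.PC.Max
import Pool.Agent.Lib.MP_730078_an.PC.Ker
import Pool.Agent.Lib.MP_730078_an.PC.Planch

set_option autoImplicit false

open MeasureTheory Set Filter Topology Complex
open scoped ENNReal Real NNReal

namespace Pool.Agent.Lib.MP_730078_an.PC

/-- one more generator: a Poisson mean along the direction of the generator -/
theorem Ex_step {n : ℕ} {φ : (Fin n → ℝ) → ℂ} (hm : Measurable φ) (hi : Integrable φ)
    {y ω : Fin n → ℝ} (hy : ∀ t, φ t ≠ 0 → 0 ≤ y ⬝ᵥ t) (hω : ∀ t, φ t ≠ 0 → 0 ≤ ω ⬝ᵥ t)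
    (z : Fin n → ℝ) (c : ℝ) {r : ℝ} (hr : 0 ≤ r) :
    Ex φ (z + (c * r) • ω) (y + r • ω) =
      ∫ s : ℝ, (Pk s : ℂ) * Ex φ (z + ((s + c) * r) • ω) y := by
  have hF : Integrable (Function.uncurry fun (s : ℝ) (t : Fin n → ℝ) =>
      (Pk s : ℂ) * (ch ((z + ((s + c) * r) • ω) ⬝ᵥ t) * dm (y ⬝ᵥ t) * φ t))
      ((volume : Measure ℝ).prod volume) := by
    refine Integrable.mono' (integrable_Pk.mul_prod hi.norm) ?_ (ae_of_all _ ?_)
    · refine Measurable.aestronglyMeasurable ?_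
      have h1 : Continuous fun p : ℝ × (Fin n → ℝ) => (Pk p.1 : ℂ) := by fun_prop
      have h2 : Continuous fun p : ℝ × (Fin n → ℝ) =>
          ch ((z + ((p.1 + c) * r) • ω) ⬝ᵥ p.2) * dm (y ⬝ᵥ p.2) := by fun_prop
      exact h1.measurable.mul (h2.measurable.mul (hm.comp measurable_snd))
    · rintro ⟨s, t⟩
      by_cases h0 : φ t = 0
      · simp [Function.uncurry, h0]
      · simp only [Function.uncurry, norm_mul, norm_ch, one_mul, Complex.norm_real,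
          Real.norm_of_nonneg (Pk_pos s).le]
        exact mul_le_mul_of_nonneg_left
          (mul_le_of_le_one_left (norm_nonneg _) (norm_dm_le (hy t h0))) (Pk_pos s).le
  have e1 : ∀ s : ℝ, (Pk s : ℂ) * Ex φ (z + ((s + c) * r) • ω) y =
      ∫ t, (Pk s : ℂ) * (ch ((z + ((s + c) * r) • ω) ⬝ᵥ t) * dm (y ⬝ᵥ t) * φ t) := fun s => by
    rw [Ex, integral_const_mul]
  simp only [e1]
  rw [integral_integral_swap hF, Ex]
  refine integral_congr_ae (ae_of_all _ fun t => ?_)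
  by_cases h0 : φ t = 0
  · simp [h0]
  have ha : 0 ≤ r * (ω ⬝ᵥ t) := mul_nonneg hr (hω t h0)
  have e2 : ∀ s : ℝ, (Pk s : ℂ) * (ch ((z + ((s + c) * r) • ω) ⬝ᵥ t) * dm (y ⬝ᵥ t) * φ t) =
      (Pk s : ℂ) * ch (s * (r * (ω ⬝ᵥ t))) *
        (ch ((z + (c * r) • ω) ⬝ᵥ t) * dm (y ⬝ᵥ t) * φ t) := fun s => by
    have e : (z + ((s + c) * r) • ω) ⬝ᵥ t = s * (r * (ω ⬝ᵥ t)) + (z + (c * r) • ω) ⬝ᵥ t := by
      simp only [add_dotProduct, smul_dotProduct, smul_eq_mul]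
      ring
    rw [e, ch_add]
    ring
  have e3 : (y + r • ω) ⬝ᵥ t = y ⬝ᵥ t + r * (ω ⬝ᵥ t) := by
    simp only [add_dotProduct, smul_dotProduct, smul_eq_mul]
  simp only [e2]
  rw [integral_mul_const, int_Pk, abs_of_nonneg ha, e3, dm_add]
  ring

/-- the maximal inequality for a cone with `N` generators, with shifts -/
theorem iter (n N : ℕ) : ∃ C : ℝ≥0∞, C ≠ ∞ ∧
    ∀ (g : Fin N → Fin n → ℝ) (φ : (Fin n → ℝ) → ℂ), Measurable φ → Integrable φ →
      (∀ t, φ t ≠ 0 → ∀ i, 0 ≤ g i ⬝ᵥ t) → ∃ S : (Fin n → ℝ) → ℝ≥0∞, Measurable S ∧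
        ∫⁻ x, S x ^ 2 ≤ C * ∫⁻ t, ‖φ t‖ₑ ^ 2 ∧
          ∀ (x : Fin n → ℝ) (r c : Fin N → ℝ) (B : ℝ), (∀ i, 0 ≤ r i) → (∀ i, |c i| ≤ B) →
            ‖Ex φ (x + ∑ i, (c i * r i) • g i) (∑ i, r i • g i)‖ₑ ≤
              ENNReal.ofReal ((1 + B ^ 2) ^ N) * S x := by
  induction N with
  | zero =>
    refine ⟨1, ENNReal.one_ne_top, fun g φ hm hi _ =>
      ⟨fun x => ‖∫ t, ch (x ⬝ᵥ t) * φ t‖ₑ, ?_, ?_, ?_⟩⟩
    · have h2 : Continuous fun p : (Fin n → ℝ) × (Fin n → ℝ) => ch (p.1 ⬝ᵥ p.2) := by fun_prop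
      have h3 : StronglyMeasurable fun p : (Fin n → ℝ) × (Fin n → ℝ) =>
          ch (p.1 ⬝ᵥ p.2) * φ p.2 :=
        (h2.measurable.mul (hm.comp measurable_snd)).stronglyMeasurable
      exact (h3.integral_prod_right' (ν := volume)).measurable.enorm
    · rw [one_mul]
      exact planch hm hi
    · intro x r c B _ _
      simp [Ex]
  | succ N ih =>
    obtain ⟨C, hC, H⟩ := ih
    obtain ⟨M, C', hC', HM⟩ := exists_max n
    refine ⟨C' * C, ENNReal.mul_ne_top hC' hC, fun g φ hm hi hg => ?_⟩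
    obtain ⟨S, hS, hS2, hS3⟩ := H (fun i => g i.succ) φ hm hi fun t ht i => hg t ht i.succ
    obtain ⟨m1, m2, m3⟩ := HM (g 0) S hS
    refine ⟨M (g 0) S, m1, m2.trans ?_, fun x r c B hr hc => ?_⟩
    · rw [mul_assoc]
      exact mul_le_mul_right hS2 _
    have hy : ∀ t, φ t ≠ 0 → 0 ≤ (∑ i : Fin N, r i.succ • g i.succ) ⬝ᵥ t := fun t ht => by
      rw [sum_dotProduct]
      exact Finset.sum_nonneg fun i _ => by
        rw [smul_dotProduct, smul_eq_mul]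
        exact mul_nonneg (hr _) (hg t ht _)
    have e1 : x + ∑ i : Fin (N + 1), (c i * r i) • g i =
        (x + ∑ i : Fin N, (c i.succ * r i.succ) • g i.succ) + (c 0 * r 0) • g 0 := by
      rw [Fin.sum_univ_succ]
      abel
    have e2 : ∑ i : Fin (N + 1), r i • g i = ∑ i : Fin N, r i.succ • g i.succ + r 0 • g 0 := by
      rw [Fin.sum_univ_succ, add_comm]
    have hc0 : 1 + c 0 ^ 2 ≤ 1 + B ^ 2 := by
      have := sq_le_sq' (abs_le.1 (hc 0)).1 (abs_le.1 (hc 0)).2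
      linarith
    rw [e1, e2, Ex_step hm hi hy (fun t ht => hg t ht 0) _ _ (hr 0)]
    refine (enorm_integral_le_lintegral_enorm _).trans ?_
    calc ∫⁻ s : ℝ, ‖(Pk s : ℂ) * Ex φ (x + ∑ i : Fin N, (c i.succ * r i.succ) • g i.succ +
            ((s + c 0) * r 0) • g 0) (∑ i : Fin N, r i.succ • g i.succ)‖ₑ
        ≤ ∫⁻ s : ℝ, ENNReal.ofReal ((1 + B ^ 2) ^ N) *
            (ENNReal.ofReal (Pk s) * S (x + ((s + c 0) * r 0) • g 0)) := by
          refine lintegral_mono fun s => ?_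
          have e3 : ‖(Pk s : ℂ)‖ₑ = ENNReal.ofReal (Pk s) := by
            rw [← ofReal_norm, Complex.norm_real, Real.norm_of_nonneg (Pk_pos s).le]
          rw [enorm_mul, e3, add_right_comm, mul_left_comm]
          exact mul_le_mul_right (hS3 _ (fun i => r i.succ) (fun i => c i.succ) B
            (fun i => hr _) fun i => hc _) _
      _ = ENNReal.ofReal ((1 + B ^ 2) ^ N) *
            ∫⁻ s : ℝ, ENNReal.ofReal (Pk s) * S (x + ((s + c 0) * r 0) • g 0) :=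
          lintegral_const_mul' _ _ ENNReal.ofReal_ne_top
      _ ≤ ENNReal.ofReal ((1 + B ^ 2) ^ N) * (ENNReal.ofReal (1 + B ^ 2) * M (g 0) S x) :=
          mul_le_mul_right ((m3 x (c 0) (r 0) (hr 0)).trans
            (mul_le_mul_left (ENNReal.ofReal_le_ofReal hc0) _)) _
      _ = ENNReal.ofReal ((1 + B ^ 2) ^ (N + 1)) * M (g 0) S x := by
          rw [pow_succ (1 + B ^ 2), ENNReal.ofReal_mul (by positivity), mul_assoc]

end Pool.Agent.Lib.MP_730078_an.PC
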