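import Pool.Agent.Lib.MP_730078_an.GLift

set_option autoImplicit false

open MeasureTheory Set Filter Topology Complex
open scoped ENNReal Real NNReal

namespace Pool.Agent.Lib.MP_730078_an.PC

open Pool.Agent.Lib.MP_730078_an.G

/-- a building block which is tall on a fixed proportion of the space -/
def WBlk {n : ℕ} (Γ : Set (Fin n → ℝ)) (p : ℝ≥0∞) (H ε q : ℝ) : Prop :=
  ∃ Φ ∈ Sp (S1 Γ), ∃ (g : (Fin n → ℝ) → ℝ) (ν : Measure (Fin n → ℝ)) (r : ℝ), Av 0 r ν ∧ BU g ∧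
    (∀ x, 0 ≤ g x) ∧ (∀ x, eLpNorm (fun u => Φ (x + u, 0)) p ν ≤ ENNReal.ofReal ε) ∧
    (∀ x, mn ν g x ≤ 1 - q) ∧ G.Tall Γ H Φ g

section
variable {E : Type*} [NormedAddCommGroup E] [NormedSpace ℝ E] [MeasurableSpace E] [BorelSpace E]
  [SecondCountableTopology E]

omit [NormedSpace ℝ E] in
theorem eLp_conv {μ ν : Measure E} [IsProbabilityMeasure μ] [IsProbabilityMeasure ν] {f : E → ℂ}
    (hf : Continuous f) {p a : ℝ≥0∞} (hp0 : p ≠ 0) (hp : p ≠ ∞)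
    (h : ∀ x, eLpNorm (fun u => f (x + u)) p ν ≤ a) (x : E) :
    eLpNorm (fun u => f (x + u)) p (μ ∗ ν) ≤ a := by
  have h0 := ENNReal.toReal_pos hp0 hp
  simp only [eLpNorm_eq_lintegral_rpow_enorm_toReal hp0 hp] at h ⊢
  have hm : Measurable fun u => ‖f (x + u)‖ₑ ^ p.toReal :=
    (hf.comp (continuous_const.add continuous_id)).measurable.enorm.pow_const _
  have h1 : ∀ y, ∫⁻ u, ‖f (y + u)‖ₑ ^ p.toReal ∂ν ≤ a ^ p.toReal := fun y => by
    have := ENNReal.rpow_le_rpow (h y) h0.le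
    rwa [← ENNReal.rpow_mul, one_div_mul_cancel h0.ne', ENNReal.rpow_one] at this
  have h2 : ∫⁻ u, ‖f (x + u)‖ₑ ^ p.toReal ∂(μ ∗ ν) ≤ a ^ p.toReal := by
    rw [Measure.lintegral_conv hm]
    calc ∫⁻ y, ∫⁻ u, ‖f (x + (y + u))‖ₑ ^ p.toReal ∂ν ∂μ ≤ ∫⁻ _, a ^ p.toReal ∂μ :=
          lintegral_mono fun y => by simpa only [add_assoc] using h1 (x + y)
      _ = a ^ p.toReal := by simp
  refine (ENNReal.rpow_le_rpow h2 (by positivity)).trans (le_of_eq ?_)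
  rw [← ENNReal.rpow_mul, mul_one_div_cancel h0.ne', ENNReal.rpow_one]

theorem amp2 {Γ : Set E} (ho : IsOpen Γ) (hΓ : IsCone Γ) (hne : Γ.Nonempty) {q h ε r : ℝ}
    {p a : ℝ≥0∞} (hp1 : 1 ≤ p) (hp : p ≠ ∞)
    (hq : 0 < q) (hε : 0 < ε) {Φ : E × E → ℂ} (hΦ : Φ ∈ Sp (S1 Γ)) {g : E → ℝ}
    {ν : Measure E} (hν : Av 0 r ν) (bg : BU g) (hg0 : ∀ x, 0 ≤ g x)
    (hE : ∀ x, eLpNorm (fun u => Φ (x + u, 0)) p ν ≤ a)
    (hg : ∀ x, mn ν g x ≤ 1 - q) (hG : G.Tall Γ h Φ g) (k : ℕ) :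
    ∃ Ψ ∈ Sp (S1 Γ), ∃ (F : E → ℝ) (μ : Measure E) (r' : ℝ), Av 0 r' μ ∧ BU F ∧ (∀ x, 0 ≤ F x) ∧
      (∀ x, eLpNorm (fun u => Ψ (x + u, 0)) p μ ≤ k * a) ∧
      (∀ x, mn μ F x ≤ (1 - q / 2) ^ k) ∧ G.Tall Γ (h / 2 - k * ε) Ψ F := by
  have hp0 : p ≠ 0 := (zero_lt_one.trans_le hp1).ne'
  induction k with
  | zero => exact ⟨0, Submodule.zero_mem _, fun _ => 1, ν, r, hν, BU.const _, by simp,
      by simp, by simp [hν.const], ∅, isCompact_empty, empty_subset _, by simp⟩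
  | succ k ih =>
    obtain ⟨Ψ, hΨ, F, μ, r', hμ, bG, hG0, h1, h2, h3⟩ := ih
    have hq2 : 0 < 1 - q / 2 := by linarith [mn_nonneg (ν := ν) hg0 0, hg 0]
    obtain ⟨N, hN0, hN2, hN3⟩ := ((eventually_gt_atTop 0).and
      ((mixN hμ hν bG bg hG0 hg0 h2 hg (ε := q / 2 * (1 - q / 2) ^ k) (by positivity)).and
      (G.tall_step ho hΓ hne hΨ hΦ h3 hG (sub_le_self _ (by positivity)) hε))).exists
    have hν' := hν.map (G.dl N⁻¹ : E →L[ℝ] E)
    have hΦ' : pb (G.dl N) Φ ∈ Sp (S1 Γ) := pb_mem (hΓ N hN0) hΦ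
    refine ⟨Ψ + pb (G.dl N) Φ, Submodule.add_mem _ hΨ hΦ',
      fun x => F x * g (N • x), _, _, hμ.conv hν',
      bG.mul (bg.precomp (G.dl N : E →L[ℝ] E).uniformContinuous),
      fun x => mul_nonneg (hG0 _) (hg0 _), fun x => ?_, fun x => ?_, hN3.mono (le_of_eq ?_)⟩
    · have i1 := hμ.prob
      have i2 := hν'.prob
      have c1 := (Sp_BU hΨ 0).cont
      have c2 := (Sp_BU hΦ' 0).cont
      have k1 : eLpNorm (fun u => Ψ (x + u, 0)) p (μ ∗ ν.map (G.dl N⁻¹ : E →L[ℝ] E)) ≤ k * a := by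
        rw [Measure.conv_comm]
        exact eLp_conv (f := fun x => Ψ (x, 0)) c1 hp0 hp h1 x
      have k2 : eLpNorm (fun u => pb (G.dl N) Φ (x + u, 0)) p
          (μ ∗ ν.map (G.dl N⁻¹ : E →L[ℝ] E)) ≤ a := by
        refine eLp_conv (f := fun x => pb (G.dl N) Φ (x, 0)) c2 hp0 hp (fun y => ?_) x
        rw [eLpNorm_map_measure (g := fun u => pb (G.dl N) Φ (y + u, 0))
          (c2.comp (continuous_const.add continuous_id)).aestronglyMeasurable (by fun_prop)]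
        simpa [Function.comp_def, pb, smul_smul, hN0.ne'] using hE (N • y)
      refine (eLpNorm_add_le (f := fun u => Ψ (x + u, 0)) (g := fun u => pb (G.dl N) Φ (x + u, 0))
        (c1.comp (continuous_const.add continuous_id)).aestronglyMeasurable
        (c2.comp (continuous_const.add continuous_id)).aestronglyMeasurable hp1).trans ?_
      rw [Nat.cast_succ, add_mul, one_mul]
      exact add_le_add k1 k2
    · have k1 := hN2 x
      rw [pow_succ]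
      linarith
    · push_cast; ring

end

/-- sums of independent copies -/
theorem blk_of_wblk {n : ℕ} {Γ : Set (Fin n → ℝ)} (hΓ : Regular Γ) (hne : Γ.Nonempty)
    {p : ℝ≥0∞} (hp1 : 1 ≤ p) (hp : p ≠ ∞) {q : ℝ} (hq : 0 < q)
    (h : ∀ H ε : ℝ, 0 < ε → WBlk Γ p H ε q) (H ε : ℝ) (hε : 0 < ε) : Blk Γ p H ε := by
  set L := ⌈2 / ε / q⌉₊ with hL
  obtain ⟨Φ, hΦ, g, ν, r, hν, bg, hg0, hE, hg, hG⟩ := h (2 * H + 2) (ε / (L + 1)) (by positivity)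
  have hq1 : q ≤ 1 := by linarith [mn_nonneg (ν := ν) hg0 0, hg 0]
  obtain ⟨Ψ, hΨ, F, μ, r', hμ, bG, hG0, h1, h2, h3⟩ :=
    amp2 hΓ.1 hΓ.2.2.1 hne hp1 hp hq (ε := 1 / (L + 1)) (by positivity) hΦ hν bg hg0 hE hg hG L
  have k2 : (1 - q / 2) ^ L ≤ ε := by
    have a1 : (1 - q / 2) ^ L ≤ Real.exp (-(q / 2)) ^ L := by
      gcongr
      · linarith
      · linarith [Real.add_one_le_exp (-(q / 2))]
    rw [← Real.exp_nat_mul] at a1
    have a2 : 2 / ε ≤ L * q := (div_le_iff₀ hq).1 (Nat.le_ceil _)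
    refine a1.trans ((Real.exp_le_exp.2 (show _ ≤ -ε⁻¹ by
      rw [div_eq_mul_inv] at a2; linarith)).trans ?_)
    rw [Real.exp_neg, inv_le_comm₀ (Real.exp_pos _) hε]
    linarith [Real.add_one_le_exp ε⁻¹]
  refine ⟨Ψ, hΨ, F, μ, r', hμ, bG, hG0, fun x => (h1 x).trans ?_, fun x => (h2 x).trans k2,
    h3.mono ?_⟩
  · rw [← ENNReal.ofReal_natCast, ← ENNReal.ofReal_mul (Nat.cast_nonneg _)]
    apply ENNReal.ofReal_le_ofReal
    rw [← mul_div_assoc, div_le_iff₀ (by positivity)]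
    linarith
  · have : (L : ℝ) * (1 / (L + 1)) ≤ 1 := by
      rw [← mul_div_assoc, div_le_iff₀ (by positivity)]; linarith
    linarith

end Pool.Agent.Lib.MP_730078_an.PC
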