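import Pool.Agent.Lib.MP_730078_an.PC.NegL
import Pool.Agent.Lib.MP_730078_an.PC.NegA
import Pool.Agent.Lib.MP_730078_an.PC.Geo

set_option autoImplicit false

open MeasureTheory Set Filter Topology Complex
open scoped ENNReal Real NNReal

namespace Pool.Agent.Lib.MP_730078_an.PC

open Pool.Agent.Lib.MP_730078_an.G

noncomputable section

/-- the linear form attached to a vector -/
def lf (t : Fin 4 → ℝ) : (Fin 4 → ℝ) →L[ℝ] ℝ := ∑ i, t i • ContinuousLinearMap.proj i

theorem lf_apply (t x : Fin 4 → ℝ) : lf t x = x ⬝ᵥ t := by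
  simp [lf, dotProduct, mul_comm]

theorem lf_add (s t : Fin 4 → ℝ) : lf s + lf t = lf (s + t) := by
  ext1 x
  simp [lf_apply]

/-- time, slope and carrier coordinates -/
def Lam (N : ℝ) (x : Fin 4 → ℝ) : R3 := (x 0 + x 1, N * (x 0 - (x 0 + x 1) / 4), x 2)

/-- a right inverse of `Lam` -/
def Sm (N : ℝ) (s : R3) : Fin 4 → ℝ := ![s.1 / 4 + s.2.1 / N, 3 * s.1 / 4 - s.2.1 / N, s.2.2, 0]

/-- the transpose of `Lam` -/
def tv (N : ℝ) (t : Z3) : Fin 4 → ℝ := ![t.1 + t.2.1 * (3 * N / 4), t.1 - t.2.1 * (N / 4), t.2.2, 0]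

/-- pull back of a periodic function -/
def pl (N : ℝ) (f : T3 × R3 → ℂ) : (Fin 4 → ℝ) × (Fin 4 → ℝ) → ℂ :=
  fun w => f (mk3 (Lam N w.1), Lam N w.2)

theorem dot_Lam (N : ℝ) (t : Z3) (x : Fin 4 → ℝ) : dot t (Lam N x) = x ⬝ᵥ tv N t := by
  simp [dot, Lam, tv, dotProduct, Fin.sum_univ_four]; ring

theorem Lam_add_Sm {N : ℝ} (hN : N ≠ 0) (x : Fin 4 → ℝ) (s : R3) :
    Lam N (x + Sm N s) = Lam N x + s := by
  ext
  · simp [Lam, Sm]; ring
  · simp [Lam, Sm]; field_simp; ring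
  · simp [Lam, Sm]

theorem Lam_zero (N : ℝ) : Lam N 0 = 0 := by
  ext <;> simp [Lam]

theorem continuous_Sm (N : ℝ) : Continuous (Sm N) := by
  refine continuous_pi fun i => ?_
  fin_cases i <;> simp [Sm] <;> fun_prop

theorem pl_mem (N : ℝ) {S : Set Z3} {f : T3 × R3 → ℂ} (hf : f ∈ V S) :
    pl N f ∈ Sp {L | ∃ t ∈ S, L = lf (tv N t)} := by
  refine V_induction (S := S) (P := fun f => pl N f ∈ Sp {L | ∃ t ∈ S, L = lf (tv N t)})
    (fun t ht => ?_) (Submodule.zero_mem _) (fun _ _ hf hg => Submodule.add_mem _ hf hg)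
    (fun c _ hf => Submodule.smul_mem _ c hf) hf
  have e : pl N (ex t) = ef (lf (tv N t)) := by
    funext w
    simp only [pl, ex, ef, pair_mk3, dot_Lam, lf_apply]
  rw [e]
  exact ef_mem ⟨t, ht, rfl⟩

/-- the unit cube -/
def cube3 : Set R3 := Ioc (0 : ℝ) (0 + 1) ×ˢ (Ioc (0 : ℝ) (0 + 1) ×ˢ Ioc (0 : ℝ) (0 + 1))

theorem mp_mk3 (X : T3) :
    MeasurePreserving (fun s : R3 => X + mk3 s) (volume.restrict cube3) volume := by
  have h0 := UnitAddCircle.measurePreserving_mk 0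
  have h1 : MeasurePreserving mk3 (volume.restrict cube3) volume := by
    have := h0.prod (h0.prod h0)
    rwa [Measure.prod_restrict, Measure.prod_restrict] at this
  exact (measurePreserving_add_left volume X).comp h1

theorem prob_cube3 : IsProbabilityMeasure ((volume : Measure R3).restrict cube3) := by
  refine ⟨?_⟩
  have := (mp_mk3 0).measure_preimage (s := univ) nullMeasurableSet_univ
  simpa using this

theorem av_cube (N : ℝ) : ∃ r, Av 0 r (Measure.map (Sm N) (volume.restrict cube3)) := by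
  have := prob_cube3
  have hc : IsCompact (Sm N '' Metric.closedBall 0 1) :=
    (isCompact_closedBall _ _).image (continuous_Sm N)
  obtain ⟨r, hr⟩ := hc.isBounded.exists_norm_le
  refine ⟨r, Measure.isProbabilityMeasure_map (continuous_Sm N).aemeasurable, ?_⟩
  have hm : MeasurableSet {u : Fin 4 → ℝ | ‖u‖ ≤ r ∧ (0 : (Fin 4 → ℝ) →L[ℝ] ℝ) u = 0} :=
    ((isClosed_le continuous_norm continuous_const).inter
      (isClosed_eq (0 : (Fin 4 → ℝ) →L[ℝ] ℝ).continuous continuous_const)).measurableSet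
  refine (ae_map_iff (continuous_Sm N).aemeasurable hm).2 ?_
  have hcm : MeasurableSet cube3 :=
    measurableSet_Ioc.prod (measurableSet_Ioc.prod measurableSet_Ioc)
  filter_upwards [ae_restrict_mem hcm] with s hs
  refine ⟨hr _ ⟨s, ?_, rfl⟩, rfl⟩
  obtain ⟨h1, h2, h3⟩ := hs
  simp only [Metric.mem_closedBall, dist_zero_right, Prod.norm_def, Real.norm_eq_abs, max_le_iff,
    abs_le]
  refine ⟨⟨?_, ?_⟩, ⟨?_, ?_⟩, ?_, ?_⟩ <;> linarith [h1.1, h1.2, h2.1, h2.2, h3.1, h3.2]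

/-- the exposing functional of a ray is large on the other rays -/
theorem expose {j k : ℕ} (h : j ≠ k) :
    de k / 4 ≤ de k / 2 - de j + de j ^ 2 / (2 * de k) := by
  have hk := de_pos k
  have hj := de_pos j
  rcases lt_or_gt_of_ne h with h | h
  · have h1 : de k ≤ de j / 8 := (de_anti h).trans (de_succ j).le
    have h2 : de j ≤ de j ^ 2 / (2 * de k) := by
      rw [le_div_iff₀ (by positivity)]; nlinarith
    linarith
  · have h1 : de j ≤ de k / 8 := (de_anti h).trans (de_succ k).le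
    have h2 : 0 ≤ de j ^ 2 / (2 * de k) := by positivity
    linarith

theorem slope_lt (D : ℕ) {α : ℕ × ℕ} (hα : α ∈ Idx D) : (slope D α : ℝ) ≤ (NN D : ℝ) ^ 2 := by
  obtain ⟨k, j⟩ := α
  simp only [Idx, Finset.mem_product, Finset.mem_range] at hα
  have h1 : (k : ℝ) + 1 ≤ NN D := by exact_mod_cast hα.1
  have h2 : (j : ℝ) ≤ NN D := by exact_mod_cast hα.2.le
  have h3 := one_le_NN D
  simp only [slope]
  push_cast
  nlinarith

theorem BU_prod {ι : Type*} (s : Finset ι) {f : ι → (Fin 4 → ℝ) → ℝ} (h : ∀ i ∈ s, BU (f i)) :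
    BU fun x => ∏ i ∈ s, f i x := by
  classical
  induction s using Finset.induction_on with
  | empty => simpa using BU.const (1 : ℝ)
  | insert i s hi ih =>
    simp only [Finset.prod_insert hi]
    exact (h i (Finset.mem_insert_self _ _)).mul (ih fun j hj => h j (Finset.mem_insert_of_mem hj))

/-- from lower bounds on the shifted tubes to a weak block -/
theorem wblk_of_good {p : ℝ≥0∞} {H ε N : ℝ} (hN : N ≠ 0) {D : ℕ} (hD0 : 0 < D)
    {Φ : (Fin 4 → ℝ) × (Fin 4 → ℝ) → ℂ} (hΦ : Φ ∈ Sp (S1 Gam))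
    (hp : ∀ x, ∃ Ψ : T3 → ℂ, Continuous Ψ ∧ eLpNorm Ψ p volume ≤ ENNReal.ofReal ε ∧
      ∀ s, Φ (x + Sm N s, 0) = Ψ (mk3 (Lam N x) + mk3 s))
    {y : ℕ × ℕ → Fin 4 → ℝ} (hy : ∀ α, y α ∈ Gam)
    (hlow : ∀ α ∈ Idx D, ∀ x, mk3 (Lam N x) ∈ Good D α → H + 1 ≤ ‖Φ (x, y α)‖) :
    WBlk Gam p H ε (1 / 32) := by
  obtain ⟨r, hr⟩ := av_cube N
  have := prob_cube3
  let b : ℂ → ℝ := fun z => clamp (H + 1 - ‖z‖)
  have hb : Continuous b := by unfold b clamp; fun_prop
  let g : (Fin 4 → ℝ) → ℝ := fun x => ∏ α ∈ Idx D, b (Φ (x, y α))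
  have bg : BU g := BU_prod _ fun α _ => (Sp_BU hΦ (y α)).comp hb
  have g0 : ∀ x, 0 ≤ g x := fun x => Finset.prod_nonneg fun α _ => clamp0 _
  have g1 : ∀ x, g x ≤ 1 := fun x =>
    Finset.prod_le_one (fun α _ => clamp0 _) fun α _ => clamp1 _
  refine ⟨Φ, hΦ, g, _, r, hr, bg, g0, fun x => ?_, fun x => ?_,
    y '' (Idx D : Set (ℕ × ℕ)), ((Idx D).finite_toSet.image y).isCompact, ?_, fun x hx => ?_⟩
  · obtain ⟨Ψ, hΨ, h1, h2⟩ := hp x
    have hc : Continuous fun u => Φ (x + u, 0) := (Sp_BU hΦ 0).cont.comp (by fun_prop)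
    rw [eLpNorm_map_measure hc.aestronglyMeasurable (continuous_Sm N).aemeasurable]
    have e : (fun u => Φ (x + u, 0)) ∘ Sm N = Ψ ∘ fun s : R3 => mk3 (Lam N x) + mk3 s :=
      funext h2
    rw [e, eLpNorm_comp_measurePreserving hΨ.aestronglyMeasurable (mp_mk3 _)]
    exact h1
  · set U : Set T3 := ⋃ α ∈ Idx D, Good D α with hU
    have hUm : MeasurableSet U :=
      Finset.measurableSet_biUnion _ fun α _ => (isClosed_Par _ _ _ _ _).measurableSet
    have hc : Continuous fun u => g (x + u) := bg.cont.comp (by fun_prop)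
    have hi : Integrable (Uᶜ.indicator fun _ : T3 => (1 : ℝ)) volume :=
      (integrable_const 1).indicator hUm.compl
    rw [mn, integral_map (continuous_Sm N).aemeasurable hc.aestronglyMeasurable]
    calc ∫ s in cube3, g (x + Sm N s)
        ≤ ∫ s in cube3, (Uᶜ.indicator fun _ : T3 => (1 : ℝ)) (mk3 (Lam N x) + mk3 s) := by
          refine integral_mono_of_nonneg (Eventually.of_forall fun s => g0 _)
            ((mp_mk3 _).integrable_comp_of_integrable hi) (Eventually.of_forall fun s => ?_)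
          by_cases hs : mk3 (Lam N x) + mk3 s ∈ U
          · simp only [indicator_of_notMem (notMem_compl_iff.2 hs)]
            simp only [hU, mem_iUnion] at hs
            obtain ⟨α, hα, hs⟩ := hs
            rw [← mk3_add, ← Lam_add_Sm hN] at hs
            exact (Finset.prod_eq_zero hα (clamp_zero (by linarith [hlow α hα _ hs]))).le
          · simp only [indicator_of_mem (mem_compl hs)]
            exact g1 _
      _ = ∫ X, (Uᶜ.indicator fun _ : T3 => (1 : ℝ)) X := by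
          rw [← (mp_mk3 (mk3 (Lam N x))).map_eq,
            integral_map (mp_mk3 _).measurable.aemeasurable
              (measurable_const.indicator hUm.compl).aestronglyMeasurable]
      _ = 1 - 1 / 32 := by
          rw [integral_indicator hUm.compl, setIntegral_const, smul_eq_mul, mul_one,
            probReal_compl_eq_one_sub hUm, Measure.real, hU, volume_Good D hD0,
            ENNReal.toReal_ofReal (by norm_num)]
  · rintro _ ⟨α, -, rfl⟩
    exact hy α
  · by_contra hcon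
    push Not at hcon
    refine hx.ne (Finset.prod_eq_one fun α hα => clamp_one ?_)
    linarith [hcon _ ⟨α, hα, rfl⟩]

theorem wblk_Gam {p : ℝ≥0∞} (hp1 : 1 ≤ p) (hp2 : p < 2) (H ε : ℝ) (hε : 0 < ε) :
    WBlk Gam p H ε (1 / 32) := by
  set b : ℝ := 1 + 14 / 100000 with hb
  set B : ℝ := 1 + 3 / 10000 with hB
  have hb0 : 1 ≤ b := by rw [hb]; norm_num
  obtain ⟨ν, hν⟩ : ∃ ν : ℕ, H + 1 ≤ ε * (3 / 160000 * (B / b) ^ ν - 1) := by
    have h1 : Tendsto (fun ν : ℕ => (B / b) ^ ν) atTop atTop :=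
      tendsto_pow_atTop_atTop_of_one_lt (by rw [hB, hb]; norm_num)
    have h2 : Tendsto (fun ν : ℕ => ε * (3 / 160000 * (B / b) ^ ν - 1)) atTop atTop :=
      (tendsto_atTop_add_const_right _ (-1) (h1.const_mul_atTop (by norm_num))).const_mul_atTop hε
    exact (h2.eventually_ge_atTop (H + 1)).exists
  obtain ⟨D, hD5, hDp⟩ : ∃ D : ℕ, 5 ≤ D ∧
      (3 : ℝ) ^ ν * (1 / D : ℝ) ^ (1 / p.toReal - 1 / 2) ≤ 1 := by
    have hθ : 0 < 1 / p.toReal - 1 / 2 := by
      have h1 : p.toReal < 2 := by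
        simpa using ENNReal.toReal_strict_mono (by norm_num) hp2
      have h2 : 1 ≤ p.toReal := by
        simpa using ENNReal.toReal_mono (ne_top_of_lt hp2) hp1
      have := one_div_lt_one_div_of_lt (by linarith) h1
      linarith
    have h1 : Tendsto (fun D : ℕ => (3 : ℝ) ^ ν * (1 / D : ℝ) ^ (1 / p.toReal - 1 / 2)) atTop
        (𝓝 ((3 : ℝ) ^ ν * 0 ^ (1 / p.toReal - 1 / 2))) :=
      (tendsto_one_div_atTop_nhds_zero_nat.rpow_const (Or.inr hθ.le)).const_mul _
    rw [Real.zero_rpow hθ.ne', mul_zero] at h1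
    exact ((eventually_ge_atTop 5).and (h1.eventually (eventually_le_nhds one_pos))).exists
  have hD0 : 0 < D := by omega
  have hD : 100 ≤ MM D := by
    have : (2 : ℝ) ^ 5 ≤ 2 ^ D := pow_le_pow_right₀ (by norm_num) hD5
    unfold MM NN; push_cast; linarith
  have hM := MM_pos D
  have hη : 0 < 1 / (100 * MM D) := by positivity
  have hη1 : 1 / (100 * MM D) ≤ 1 / 10000 := by apply one_div_le_one_div_of_le <;> linarith
  have hq0 : 0 < qq D := by unfold qq; linarith
  have hq1 : qq D < 1 := by unfold qq; linarith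
  obtain ⟨n, hn⟩ : ∃ n : ℕ, qq D ^ n ≤ 1 / 100000 :=
    ((tendsto_pow_atTop_nhds_zero_of_lt_one hq0.le hq1).eventually
      (eventually_le_nhds (by norm_num))).exists
  have h3 : (1 : ℝ) ≤ 3 ^ ν := one_le_pow₀ (by norm_num)
  obtain ⟨s, a, hψ⟩ := exists_bump (w := 1 / MM D) (τ := 1 / (MM D * 3 ^ ν)) (by positivity)
    (by positivity) (by apply one_div_le_one_div_of_le (by norm_num); nlinarith)
  obtain ⟨ρ, hρ0, hρ⟩ : ∃ ρ : ℝ, 0 < ρ ∧ qq D * Real.exp (-(2 * π * ρ)) = 1 - 16 / MM D := by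
    have h1 : 16 / MM D ≤ 16 / 100 := by gcongr
    have h2 : 1 / (100 * MM D) < 16 / MM D := by
      rw [div_lt_div_iff₀ (by positivity) hM]; linarith
    have h4 : 0 < (1 - 16 / MM D) / qq D := div_pos (by linarith) hq0
    have h5 : (1 - 16 / MM D) / qq D < 1 := by rw [div_lt_one hq0]; unfold qq; linarith
    refine ⟨-Real.log ((1 - 16 / MM D) / qq D) / (2 * π), ?_, ?_⟩
    · exact div_pos (neg_pos.2 (Real.log_neg h4 h5)) (by positivity)
    · rw [mul_div_cancel₀ _ (by positivity), neg_neg, Real.exp_log h4]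
      field_simp
  have hgc : ∀ α, Continuous (gg D n ν s a α) := fun α => V_continuous (gg_mem D n ν s a α)
  -- the rays
  have hNN := one_le_NN D
  obtain ⟨N, hN⟩ : ∃ N : ℝ, N = 2 * (NN D : ℝ) ^ 2 := ⟨_, rfl⟩
  have hN0 : 0 < N := by rw [hN]; positivity
  have hσ0 : ∀ α, (0 : ℝ) ≤ slope D α := fun α => by exact_mod_cast slope_nonneg D α
  have hσ1 : ∀ α ∈ Idx D, (slope D α : ℝ) ≤ N / 2 := fun α hα => by
    have := slope_lt D hα
    rw [hN]; linarith
  have hkk : ∀ α ∈ Idx D, ∃ k, aa k = 1 / 4 + slope D α / N := by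
    intro α hα
    have e : (((1 / 4 + slope D α / (2 * (NN D : ℚ) ^ 2) : ℚ)) : ℝ) = 1 / 4 + slope D α / N := by
      rw [hN]; push_cast; ring
    rw [← e]
    refine aa_surj ?_ ?_
    · rw [e]
      have := div_nonneg (hσ0 α) hN0.le
      linarith
    · rw [e]
      have : (slope D α : ℝ) / N ≤ 1 / 2 := by
        rw [div_le_iff₀ hN0]; linarith [hσ1 α hα]
      linarith
  choose! kk hkk using hkk
  have hkne : ∀ α ∈ Idx D, ∀ β ∈ Idx D, β ≠ α → kk α ≠ kk β := by
    intro α hα β hβ hne h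
    have h1 := hkk α hα
    rw [h, hkk β hβ] at h1
    have h2 : (slope D β : ℝ) = slope D α := by
      field_simp at h1
      linarith
    exact hne (slope_injOn D hβ hα (by exact_mod_cast h2))
  have hLr : ∀ α ∈ Idx D, Lam N (ρ • ray (kk α)) = (ρ, ρ * slope D α, -(ρ * de (kk α))) := by
    intro α hα
    ext
    · simp [Lam, ray]; ring
    · simp [Lam, ray, hkk α hα]; field_simp; ring
    · simp [Lam, ray]
  obtain ⟨K, hK⟩ : ∃ K, ∀ α ∈ Idx D, kk α ≤ K :=
    ⟨(Idx D).sup kk, fun α hα => Finset.le_sup hα⟩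
  -- the carrier frequency
  have hR1 : ∀ᶠ R : ℕ in atTop, ∀ α ∈ Idx D, ∀ β ∈ Idx D, ∀ X : T3,
      ‖gg D n ν s a β (X, Lam N (ρ • ray (kk α)))‖ * Real.exp (-(2 * π * (R * (ρ / 2)))) ≤
        1 / (Idx D).card := by
    rw [eventually_all_finset]
    intro α hα
    rw [eventually_all_finset]
    intro β _
    obtain ⟨C, hC⟩ := isCompact_univ.exists_bound_of_continuousOn
      (f := fun X : T3 => gg D n ν s a β (X, Lam N (ρ • ray (kk α)))) (by fun_prop)
    have h1 : Tendsto (fun R : ℕ => C * Real.exp (-(2 * π * (R * (ρ / 2))))) atTop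
        (𝓝 (C * 0)) := by
      refine (Real.tendsto_exp_neg_atTop_nhds_zero.comp ?_).const_mul C
      exact (tendsto_natCast_atTop_atTop.atTop_mul_const (half_pos hρ0)).const_mul_atTop
        (by positivity)
    have hpos : (0 : ℝ) < 1 / (Idx D).card := by
      have : 0 < (Idx D).card := Finset.card_pos.2 ⟨α, hα⟩
      positivity
    rw [mul_zero] at h1
    filter_upwards [h1.eventually (eventually_le_nhds hpos)] with R hR X
    exact (mul_le_mul_of_nonneg_right (hC X (mem_univ X)) (Real.exp_pos _).le).trans hR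
  have hR2 : ∀ᶠ R : ℕ in atTop, ∀ l ∈ s, |(l : ℝ)| * (4 * N) ≤ R := by
    rw [eventually_all_finset]
    intro l _
    exact tendsto_natCast_atTop_atTop.eventually_ge_atTop _
  obtain ⟨R, hR1, hR2, hR0⟩ := (hR1.and (hR2.and (eventually_gt_atTop 0))).exists
  have hR0' : (0 : ℝ) < R := by exact_mod_cast hR0
  let lam : ℕ × ℕ → ℤ := fun α => 2 * 8 ^ K * (R + slope D α)
  let nn : ℕ × ℕ → ℤ := fun α => 8 ^ (K - kk α) * (R + slope D α)
  let cv : ℕ × ℕ → Fin 4 → ℝ := fun α => ![nn α, nn α, lam α, lam α / (2 * de (kk α))]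
  have hlam0 : ∀ α, (0 : ℝ) < lam α := fun α => by
    have := hσ0 α
    simp only [lam]; push_cast; positivity
  have hnn : ∀ α ∈ Idx D, (nn α : ℝ) = lam α * (de (kk α) / 2) := by
    intro α hα
    obtain ⟨d, hd⟩ := Nat.exists_eq_add_of_le (hK α hα)
    simp only [nn, lam, de, hd, Nat.add_sub_cancel_left]
    push_cast
    rw [pow_add, one_div, inv_pow]
    field_simp
  have hnR : ∀ α, (R : ℝ) ≤ nn α := fun α => by
    have h1 : (1 : ℝ) ≤ 8 ^ (K - kk α) := one_le_pow₀ (by norm_num)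
    have := hσ0 α
    simp only [nn]; push_cast; nlinarith
  have hcv : ∀ α ∈ Idx D, ∀ j, ray j ⬝ᵥ cv α =
      lam α * (de (kk α) / 2 - de j + de j ^ 2 / (2 * de (kk α))) := by
    intro α hα j
    rw [ray_dot]
    simp only [cv, Matrix.cons_val_zero, Matrix.cons_val_one, Matrix.cons_val, hnn α hα]
    ring
  have hcv0 : ∀ α ∈ Idx D, ray (kk α) ⬝ᵥ cv α = 0 := by
    intro α hα
    have := (de_pos (kk α)).ne'
    rw [hcv α hα]; field_simp; ring
  have hcv1 : ∀ α ∈ Idx D, ∀ j, j ≠ kk α → (R : ℝ) / 2 ≤ ray j ⬝ᵥ cv α := by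
    intro α hα j hj
    have h1 := mul_le_mul_of_nonneg_left (expose hj) (hlam0 α).le
    have h2 := hnR α
    rw [hnn α hα] at h2
    rw [hcv α hα]; linarith
  obtain ⟨Φ, hΦ⟩ : ∃ Φ : (Fin 4 → ℝ) × (Fin 4 → ℝ) → ℂ,
      Φ = ∑ α ∈ Idx D, pl N (gg D n ν s a α) * ef (lf (cv α)) := ⟨_, rfl⟩
  have hΦm : Φ ∈ Sp (S1 Gam) := by
    rw [hΦ]
    refine Submodule.sum_mem _ fun α hα => Sp_mul (S' := {lf (cv α)}) ?_
      (pl_mem N (gg_mem D n ν s a α)) (ef_mem rfl)
    rintro _ ⟨_, ⟨m, hm, l, hl, rfl⟩, rfl⟩ _ rfl y hy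
    rw [lf_add, lf_apply]
    have hm' : (1 : ℝ) ≤ m := by exact_mod_cast hm
    have k1 := hR2 l hl
    have k2 := hσ0 α
    have k3 := hσ1 α hα
    have k4 := hnR α
    have k5 := abs_nonneg (l : ℝ)
    have k6 : ∀ c : ℝ, |c| ≤ N → -(R / 4 : ℝ) ≤ l * c := fun c hc => by
      have : |(l : ℝ) * c| ≤ |(l : ℝ)| * N := by rw [abs_mul]; gcongr
      linarith [(abs_le.1 this).1]
    refine dot_pos (fun i => ?_) (fun j => ?_) hy
    · fin_cases i
      · have := k6 (3 * N / 4 - slope D α) (abs_le.2 ⟨by linarith, by linarith⟩)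
        simp [tv, cv]; linarith
      · have := k6 (-(N / 4) - slope D α) (abs_le.2 ⟨by linarith, by linarith⟩)
        simp [tv, cv]; linarith
      · simpa [tv, cv] using hlam0 α
      · have := hlam0 α
        have := de_pos (kk α)
        simp [tv, cv]; positivity
    · have e : ray j ⬝ᵥ tv N (m - slope D α * l, l, 0) =
          m + l * (N * (aa j - 1 / 4) - slope D α) := by
        rw [ray_dot]; simp [tv]; ring
      rw [dotProduct_add, e]
      by_cases hj : j = kk α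
      · rw [hj, hcv0 α hα, hkk α hα]
        have : N * (1 / 4 + slope D α / N - 1 / 4) - slope D α = 0 := by field_simp; ring
        rw [this]; linarith
      · have a1 := mul_le_mul_of_nonneg_left (aa_ge j) hN0.le
        have a2 := mul_le_mul_of_nonneg_left (aa_le j) hN0.le
        have := k6 (N * (aa j - 1 / 4) - slope D α) (abs_le.2 ⟨by linarith, by linarith⟩)
        linarith [hcv1 α hα j hj]
  have hlow : ∀ α ∈ Idx D, ∀ x, mk3 (Lam N x) ∈ Good D α →
      3 / 80000 * B ^ ν - 1 ≤ ‖Φ (x, ρ • ray (kk α))‖ := by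
    intro α hα x hx
    have h1 := gg_lower D n ν s a hD hn (fun x => (hψ x).2.2) hρ α hx
    have h0 : gg D n ν s a α (mk3 (Lam N x), Lam N (ρ • ray (kk α))) =
        gg D n ν s a α (mk3 (Lam N x), dir D ρ α) := by
      simp only [gg, Pi.mul_apply]
      rw [hLr α hα, wf_apply, wf_apply, psi_apply _ _ _ _ _ _ rfl,
        psi_apply _ _ _ _ _ _ (by simp [dir])]
      rfl
    simp only [hΦ, Finset.sum_apply, Pi.mul_apply]
    rw [← Finset.add_sum_erase _ _ hα]
    have h2 : ‖pl N (gg D n ν s a α) (x, ρ • ray (kk α)) * ef (lf (cv α)) (x, ρ • ray (kk α))‖ =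
        ‖gg D n ν s a α (mk3 (Lam N x), dir D ρ α)‖ := by
      rw [norm_mul, norm_ef, lf_apply, smul_dotProduct, hcv0 α hα, ← h0]
      simp [pl]
    have h4 : ‖∑ β ∈ (Idx D).erase α, pl N (gg D n ν s a β) (x, ρ • ray (kk α)) *
        ef (lf (cv β)) (x, ρ • ray (kk α))‖ ≤ 1 := by
      have hpos : (0 : ℝ) < (Idx D).card := by
        exact_mod_cast Finset.card_pos.2 ⟨α, hα⟩
      refine (norm_sum_le _ _).trans ?_
      calc _ ≤ ∑ β ∈ (Idx D).erase α, (1 / (Idx D).card : ℝ) := by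
            refine Finset.sum_le_sum fun β hβ => ?_
            obtain ⟨hβ1, hβ2⟩ := Finset.mem_erase.1 hβ
            refine le_trans ?_ (hR1 α hα β hβ2 (mk3 (Lam N x)))
            rw [norm_mul, norm_ef, lf_apply, smul_dotProduct, smul_eq_mul]
            have c4 : (R : ℝ) * (ρ / 2) ≤ ρ * (ray (kk α) ⬝ᵥ cv β) := by
              have := mul_le_mul_of_nonneg_left (hcv1 β hβ2 _ (hkne α hα β hβ2 hβ1)) hρ0.le
              linarith
            simp only [pl]
            gcongr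
        _ ≤ ∑ β ∈ Idx D, (1 / (Idx D).card : ℝ) :=
            Finset.sum_le_sum_of_subset_of_nonneg (Finset.erase_subset _ _)
              (fun _ _ _ => by positivity)
        _ = 1 := by simp only [Finset.sum_const, nsmul_eq_mul]; field_simp
    have h5 := norm_sub_norm_le
      (pl N (gg D n ν s a α) (x, ρ • ray (kk α)) * ef (lf (cv α)) (x, ρ • ray (kk α)))
      (-∑ β ∈ (Idx D).erase α, pl N (gg D n ν s a β) (x, ρ • ray (kk α)) *
        ef (lf (cv β)) (x, ρ • ray (kk α)))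
    rw [sub_neg_eq_add, norm_neg, h2] at h5
    linarith
  have hκ : ∀ᶠ κ : ℝ in 𝓝[>] 0, ∀ α ∈ Idx D, ∀ y, ‖y - ρ • ray (kk α)‖ ≤ κ → ∀ x,
      ‖Φ (x, y) - Φ (x, ρ • ray (kk α))‖ ≤ 1 := by
    rw [eventually_all_finset]
    exact fun α _ => Sp_near' hΦm _ one_pos
  obtain ⟨κ, hκ, hκ0⟩ := (hκ.and self_mem_nhdsWithin).exists
  replace hκ0 : 0 < κ := hκ0
  have hbν : 1 ≤ b ^ ν := one_le_pow₀ hb0
  have hc : 0 < ε / (2 * b ^ ν) := by positivity
  refine wblk_of_good hN0.ne' hD0 (Φ := ((ε / (2 * b ^ ν) : ℝ) : ℂ) • Φ)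
    (Submodule.smul_mem _ _ hΦm) (fun x => ?_) (y := fun α => ρ • ray (kk α) + fun _ => κ)
    (fun α => ray_add_mem _ hρ0.le hκ0) fun α hα x hx => ?_
  · let u : ℕ × ℕ → TT → ℂ := fun α T =>
      e1 (nn α • T) * e1 ((lam α / (2 * de (kk α)) * x 3 : ℝ) : TT)
    have h1 := eLp_bound D n ν s a hD0 hD hn (fun x => (hψ x).1) (fun x => (hψ x).2.1) p hp1
      hp2.le hDp lam (fun α hα β hβ h => slope_injOn D hα hβ (by
        have h' : 2 * 8 ^ K * ((R : ℤ) + slope D α) = 2 * 8 ^ K * (R + slope D β) := h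
        exact add_left_cancel (mul_left_cancel₀ (by positivity) h'))) u
      (fun α => by simp only [u]; fun_prop) (fun α T => by simp [u])
    refine ⟨((ε / (2 * b ^ ν) : ℝ) : ℂ) • fun X : T3 => ∑ α ∈ Idx D,
      gg D n ν s a α (X, 0) * u α X.1 * e1 (lam α • X.2.2), ?_, ?_, fun t => ?_⟩
    · refine Continuous.const_smul (continuous_finsetSum _ fun α _ => ?_) _
      have := hgc α
      simp only [u]
      fun_prop
    · rw [eLpNorm_const_smul, ← ofReal_norm, Complex.norm_real, Real.norm_of_nonneg hc.le]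
      calc _ ≤ ENNReal.ofReal (ε / (2 * b ^ ν)) * ENNReal.ofReal (2 * b ^ ν) := by gcongr
        _ = _ := by rw [← ENNReal.ofReal_mul hc.le]; congr 1; field_simp
    · simp only [Pi.smul_apply, hΦ, Finset.sum_apply, Pi.mul_apply]
      congr 1
      refine Finset.sum_congr rfl fun α _ => ?_
      rw [← mk3_add, ← Lam_add_Sm hN0.ne']
      have e : (x + Sm N t) ⬝ᵥ cv α = nn α • (Lam N (x + Sm N t)).1 +
          lam α / (2 * de (kk α)) * x 3 + lam α • (Lam N (x + Sm N t)).2.2 := by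
        simp [dotProduct, Fin.sum_univ_four, cv, Lam, Sm]; ring
      simp only [pl, ef, lf_apply, Lam_zero, u, e, mk3, AddCircle.coe_add, AddCircle.coe_zsmul,
        e1_add]
      simp [mul_assoc]
  · rw [Pi.smul_apply, norm_smul, Complex.norm_real, Real.norm_of_nonneg hc.le]
    have h1 := hlow α hα x hx
    have h2 := hκ α hα (ρ • ray (kk α) + fun _ => κ) (by
      rw [add_sub_cancel_left]
      exact (pi_norm_le_iff_of_nonneg hκ0.le).2 fun _ => (Real.norm_of_nonneg hκ0.le).le) x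
    have h4 := norm_sub_norm_le (Φ (x, ρ • ray (kk α))) (Φ (x, ρ • ray (kk α) + fun _ => κ))
    rw [norm_sub_rev] at h4
    have h5 : 3 / 80000 * B ^ ν - 2 ≤ ‖Φ (x, ρ • ray (kk α) + fun _ => κ)‖ := by linarith
    refine hν.trans (le_trans ?_ (mul_le_mul_of_nonneg_left h5 hc.le))
    have e : ε / (2 * b ^ ν) * (3 / 80000 * B ^ ν - 2) =
        ε * (3 / 160000 * (B / b) ^ ν - 1 / b ^ ν) := by
      rw [div_pow]; field_simp; ring
    rw [e]
    gcongr
    rw [div_le_one (by positivity)]; exact hbν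

end

end Pool.Agent.Lib.MP_730078_an.PC
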