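import Pool.Agent.Lib.MP_730078_an.PC.PW
import Pool.Agent.Lib.MP_730078_an.PC.Dens
import Pool.Agent.Lib.MP_730078_an.HTree2

set_option autoImplicit false

open MeasureTheory Set Filter Topology Complex
open scoped ENNReal Real NNReal

namespace Pool.Agent.Lib.MP_730078_an.PC

variable {n : ℕ}

theorem pos_rpow_le {a : ℝ≥0∞} {s q : ℝ} (hs : 0 ≤ s) (hq : s ≤ q) : a ^ s ≤ 1 + a ^ q := by
  rcases le_total a 1 with h | h
  · exact (ENNReal.rpow_le_one h hs).trans le_self_add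
  · exact (ENNReal.rpow_le_rpow_of_exponent_le h hq).trans le_add_self

theorem pos_weighted {Γ : Set (Fin n → ℝ)} {p : ℝ≥0∞} (hp : 2 ≤ p) {F : (Fin n → ℂ) → ℂ}
    (hF : MemHp Γ p F) {w : (Fin n → ℝ) → ℝ≥0∞} (hw : Measurable w) (hw1 : ∀ x, w x ≤ 1)
    (hwi : ∫⁻ x, w x ≠ ∞) :
    ∃ B : ℝ≥0∞, B ≠ ∞ ∧ ∀ y ∈ Γ, ∫⁻ x, ‖F (pt x y)‖ₑ * w x ≤ B ∧
      ∫⁻ x, ‖F (pt x y)‖ₑ ^ 2 * w x ≤ B := by
  by_cases h : p = ∞
  · obtain ⟨M, hM⟩ := hF.2.1 h
    have hK : (1 + ENNReal.ofReal M) ^ 2 ≠ ∞ :=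
      ENNReal.pow_ne_top (ENNReal.add_ne_top.2 ⟨ENNReal.one_ne_top, ENNReal.ofReal_ne_top⟩)
    refine ⟨(1 + ENNReal.ofReal M) ^ 2 * ∫⁻ x, w x, ENNReal.mul_ne_top hK hwi, fun y hy => ?_⟩
    have h1 : ∀ x, ‖F (pt x y)‖ₑ ≤ 1 + ENNReal.ofReal M := fun x => by
      rw [← ofReal_norm]
      exact (ENNReal.ofReal_le_ofReal (hM _ ⟨x, y, hy, rfl⟩)).trans le_add_self
    rw [← lintegral_const_mul _ hw]
    refine ⟨lintegral_mono fun x => ?_, lintegral_mono fun x => ?_⟩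
    · refine mul_le_mul_left ((h1 x).trans ?_) _
      exact le_self_pow₀ le_self_add two_ne_zero
    · exact mul_le_mul_left (pow_le_pow_left' (h1 x) 2) _
  · have hq : (2 : ℝ) ≤ p.toReal := by
      simpa using ENNReal.toReal_mono h hp
    have hS := (hF.2.2 h).ne
    refine ⟨(∫⁻ x, w x) + ⨆ y ∈ Γ, ∫⁻ x : Fin n → ℝ, ‖F (pt x y)‖ₑ ^ p.toReal,
      ENNReal.add_ne_top.2 ⟨hwi, hS⟩, fun y hy => ?_⟩
    have key : ∀ s : ℝ, 0 ≤ s → s ≤ p.toReal → ∫⁻ x, ‖F (pt x y)‖ₑ ^ s * w x ≤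
        (∫⁻ x, w x) + ⨆ y ∈ Γ, ∫⁻ x : Fin n → ℝ, ‖F (pt x y)‖ₑ ^ p.toReal := by
      intro s hs hsq
      refine le_trans ?_ (add_le_add_right (le_iSup₂_of_le y hy le_rfl) _)
      rw [← lintegral_add_left hw]
      refine lintegral_mono fun x => ?_
      refine (mul_le_mul_left (pos_rpow_le hs hsq) _).trans ?_
      rw [add_mul, one_mul]
      exact add_le_add_right (mul_le_of_le_one_right' (hw1 x)) _
    constructor
    · simpa using key 1 zero_le_one (by linarith)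
    · simpa using key 2 zero_le_two hq

theorem pos_continuous_pt (x : Fin n → ℝ) : Continuous fun y : Fin n → ℝ => pt x y := by
  unfold pt; fun_prop

theorem good_of_max {Γ : Set (Fin n → ℝ)} (hΓ : Regular Γ) (hM : MaxIneq Γ) {p : ℝ≥0∞}
    (hp : 2 ≤ p) {F : (Fin n → ℂ) → ℂ} (hF : MemHp Γ p F) :
    ∀ᵐ x : Fin n → ℝ, ∃ L : ℂ, Tendsto (fun y => F (pt x y)) (𝓝[Γ] 0) (𝓝 L) := by
  rcases Γ.eq_empty_or_nonempty with rfl | hne
  · exact Eventually.of_forall fun x => ⟨0, by simp⟩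
  obtain ⟨P, C, hP, hC⟩ := G.exists_poly hΓ
  have hP0 : ∀ x, ∀ y ∈ Γ, P (pt x y) ≠ 0 := fun x y hy h0 => by
    have := hC x y hy
    rw [h0, norm_zero, mul_zero] at this
    linarith [norm_nonneg x]
  have hC0 : 0 < C := by
    obtain ⟨y, hy⟩ := hne
    have := hC 0 y hy
    by_contra h
    nlinarith [norm_nonneg (0 : Fin n → ℝ), norm_nonneg (P (pt 0 y)), not_lt.1 h]
  let w : (Fin n → ℝ) → ℝ≥0∞ := fun x => ENNReal.ofReal ((1 + ‖x‖) ^ (-((n + 1 : ℕ) : ℝ)))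
  have hw : Measurable w := by fun_prop
  have hw1 : ∀ x, w x ≤ 1 := fun x => ENNReal.ofReal_le_one.2
    (Real.rpow_le_one_of_one_le_of_nonpos (by linarith [norm_nonneg x])
      (neg_nonpos.2 (Nat.cast_nonneg _)))
  have hwi : ∫⁻ x, w x ≠ ∞ := (finite_integral_one_add_norm (by simp)).ne
  obtain ⟨B, hB, hB'⟩ := pos_weighted hp hF hw hw1 hwi
  set K : ℝ≥0∞ := 1 + ENNReal.ofReal (C ^ (n + 1)) with hK
  have hK1 : 1 ≤ K := le_self_add
  have hKt : K ^ 2 ≠ ∞ :=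
    ENNReal.pow_ne_top (ENNReal.add_ne_top.2 ⟨ENNReal.one_ne_top, ENNReal.ofReal_ne_top⟩)
  have hPw : ∀ x, ∀ y ∈ Γ, ‖(P (pt x y))⁻¹ ^ (n + 1)‖ₑ ≤ K * w x := by
    intro x y hy
    refine le_trans ?_ (mul_le_mul_left le_add_self _)
    rw [← ofReal_norm, ← ENNReal.ofReal_mul (by positivity)]
    refine ENNReal.ofReal_le_ofReal ?_
    have h1 : 0 < 1 + ‖x‖ := by positivity
    have h2 : 0 < ‖P (pt x y)‖ := norm_pos_iff.2 (hP0 x y hy)
    rw [Real.rpow_neg h1.le, Real.rpow_natCast, ← inv_pow, ← mul_pow, norm_pow, norm_inv]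
    refine pow_le_pow_left₀ (by positivity) ?_ _
    rw [← div_eq_mul_inv, le_div_iff₀ h1, inv_mul_le_iff₀ h2, mul_comm]
    exact hC x y hy
  have hd : DifferentiableOn ℂ (fun z => F z * (P z)⁻¹ ^ (n + 1)) (tube Γ) := by
    refine hF.1.mul ?_
    rintro _ ⟨x, y, hy, rfl⟩
    exact (((hP _).inv (hP0 x y hy)).pow _).differentiableWithinAt
  obtain ⟨φ, hc, h2, hs, hi⟩ := paley_wiener hΓ hne hd (ENNReal.mul_ne_top hKt hB)
    (fun y hy => by
      refine le_trans ?_ (mul_le_mul_right (hB' y hy).1 _)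
      rw [← lintegral_const_mul' _ _ hKt]
      refine lintegral_mono fun x => ?_
      rw [enorm_mul, mul_left_comm]
      exact mul_le_mul_right ((hPw x y hy).trans
        (mul_le_mul_left (le_self_pow₀ hK1 two_ne_zero) _)) _)
    (fun y hy => by
      refine le_trans ?_ (mul_le_mul_right (hB' y hy).2 _)
      rw [← lintegral_const_mul' _ _ hKt]
      refine lintegral_mono fun x => ?_
      rw [enorm_mul, mul_pow, mul_left_comm]
      refine mul_le_mul_right ((pow_le_pow_left' (hPw x y hy) 2).trans ?_) _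
      rw [mul_pow]
      refine mul_le_mul_right ?_ _
      rw [sq]
      exact mul_le_of_le_one_right' (hw1 x))
  filter_upwards [ae_of_max hΓ hM hc (ne_top_of_le_ne_top (ENNReal.mul_ne_top hKt hB) h2) hs
    fun y hy => (hi y hy).1] with x hx
  obtain ⟨L, hL⟩ := hx
  have hPc : Tendsto (fun y => P (pt x y) ^ (n + 1)) (𝓝[Γ] 0) (𝓝 (P (pt x 0) ^ (n + 1))) :=
    (((hP.continuous.comp (pos_continuous_pt x)).pow _).tendsto 0).mono_left nhdsWithin_le_nhds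
  refine ⟨_, (hL.mul hPc).congr' ?_⟩
  filter_upwards [self_mem_nhdsWithin] with y hy
  rw [← (hi y hy).2 x, mul_assoc, ← mul_pow, inv_mul_cancel₀ (hP0 x y hy), one_pow, mul_one]

end Pool.Agent.Lib.MP_730078_an.PC
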