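import Pool.Agent.Lib.MP_730078_an.PC.MaxI
import Pool.Agent.Lib.MP_730078_an.PC.Pos
import Pool.Agent.Lib.MP_730078_an.PC.NegB

set_option autoImplicit false

open MeasureTheory Set Filter Topology Complex
open scoped ENNReal Real NNReal

namespace Pool.Agent.Lib.MP_730078_an.PC

theorem Gam_nonempty : Gam.Nonempty := ⟨_, ray_add_mem 0 le_rfl one_pos⟩

theorem bad_Gam {p : ℝ≥0∞} (hp0 : 0 < p) (hp2 : p < 2) : ∃ F : (Fin 4 → ℂ) → ℂ, MemHp Gam p F ∧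
    ∀ᵐ x : Fin 4 → ℝ, ¬ ∃ L : ℂ, Tendsto (fun y => F (pt x y)) (𝓝[Gam] 0) (𝓝 L) := by
  have hp : p ≠ ∞ := ne_top_of_lt hp2
  have h0 : 0 < p.toReal := ENNReal.toReal_pos hp0.ne' hp
  have h2 : p.toReal < 2 := by simpa using ENNReal.toReal_strict_mono (by norm_num) hp2
  have h1 : 1 ≤ ENNReal.ofReal (max p.toReal 1) := by simp
  have h3 : ENNReal.ofReal (max p.toReal 1) < 2 := by
    rw [ENNReal.ofReal_lt_ofNat]
    exact max_lt h2 (by norm_num)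
  obtain ⟨F, hF, hF'⟩ := G.final regular_Gam h0 fun H ε hε =>
    blk_of_wblk regular_Gam Gam_nonempty h1 ENNReal.ofReal_ne_top (q := 1 / 32) (by norm_num)
      (wblk_Gam h1 h3) H ε hε
  exact ⟨F, ⟨hF.1, fun h => absurd h hp, fun _ => hF.2⟩, hF'⟩

theorem main : ∃ Γ : Set (Fin 4 → ℝ), Regular Γ ∧ ∀ p : ℝ≥0∞, 0 < p →
    ((∀ F : (Fin 4 → ℂ) → ℂ, MemHp Γ p F →
      ∀ᵐ x : Fin 4 → ℝ, ∃ L : ℂ, Tendsto (fun y => F (pt x y)) (𝓝[Γ] 0) (𝓝 L)) ↔ 2 ≤ p) := by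
  refine ⟨Gam, regular_Gam, fun p hp => ⟨fun h => ?_, fun h F hF =>
    good_of_max regular_Gam maxIneq_Gam h hF⟩⟩
  by_contra hlt
  obtain ⟨F, hF, hF'⟩ := bad_Gam hp (not_le.1 hlt)
  obtain ⟨x, h1, h2⟩ := ((h F hF).and hF').exists
  exact h2 h1

end Pool.Agent.Lib.MP_730078_an.PC
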