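import Pool.Agent.Lib.MP_730078_an.PC.Defs
import Pool.Agent.Lib.MP_a785f2_an.NH.Max

set_option autoImplicit false

open MeasureTheory Set Filter Topology Complex
open scoped ENNReal Real NNReal

namespace Pool.Agent.Lib.MP_730078_an.PC

theorem mx_scale {h : ℝ → ℝ≥0∞} (hh : Measurable h) (u a : ℝ) {ρ : ℝ} (hρ : 0 < ρ) :
    ENNReal.ofReal ρ * ∫⁻ s in Ioo (-a) a, h (u + s * ρ) = ∫⁻ y in Metric.ball u (a * ρ), h y := by
  have hF : Measurable ((Metric.ball u (a * ρ)).indicator h) :=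
    hh.indicator Metric.isOpen_ball.measurableSet
  have h1 : ∫⁻ s in Ioo (-a) a, h (u + s * ρ) =
      ∫⁻ s, (fun y => (Metric.ball u (a * ρ)).indicator h (u + y)) (s * ρ) := by
    rw [← lintegral_indicator measurableSet_Ioo]
    refine lintegral_congr fun s => ?_
    have e : u + s * ρ ∈ Metric.ball u (a * ρ) ↔ s ∈ Ioo (-a) a := by
      rw [Metric.mem_ball, Real.dist_eq, add_sub_cancel_left, abs_mul, abs_of_pos hρ,
        mul_lt_mul_iff_left₀ hρ, abs_lt, mem_Ioo]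
    by_cases hs : s ∈ Ioo (-a) a
    · simp only [indicator_of_mem hs, indicator_of_mem (e.2 hs)]
    · simp only [indicator_of_notMem hs, indicator_of_notMem (mt e.1 hs)]
  have hF' : Measurable fun y => (Metric.ball u (a * ρ)).indicator h (u + y) :=
    hF.comp (measurable_const_add u)
  rw [h1, ← lintegral_map hF' (measurable_mul_const ρ),
    Real.map_volume_mul_right hρ.ne', lintegral_smul_measure, smul_eq_mul, ← mul_assoc,
    ← ENNReal.ofReal_mul hρ.le, abs_of_pos (inv_pos.2 hρ), mul_inv_cancel₀ hρ.ne',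
    ENNReal.ofReal_one, one_mul, ← lintegral_indicator Metric.isOpen_ball.measurableSet]
  exact lintegral_add_left_eq_self _ u

theorem mx_meas {h : ℝ → ℝ≥0∞} (hh : Measurable h) (ρ : ℝ) :
    Measurable fun u : ℝ => ∫⁻ s in Ioo (-1 : ℝ) 1, h (u + s * ρ) :=
  Measurable.lintegral_prod_right' (f := fun p : ℝ × ℝ => h (p.1 + p.2 * ρ)) (by fun_prop)

theorem mx_line : ∃ C : ℝ≥0∞, C ≠ ∞ ∧ 4 ≤ C ∧ ∀ h : ℝ → ℝ≥0∞, Measurable h →
    ∫⁻ u, (⨆ k : ℤ, ∫⁻ s in Ioo (-1 : ℝ) 1, h (u + s * 2 ^ k)) ^ 2 ≤ C * ∫⁻ u, h u ^ 2 := by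
  refine ⟨ENNReal.ofReal (2 / (2 - 1) * 2 ^ (2 : ℝ) * 4 ^ Module.finrank ℝ ℝ) * 4 + 4,
    by finiteness, le_add_self, fun h hh => ?_⟩
  by_cases hfin : ∫⁻ u, h u ^ 2 = ∞
  · rw [hfin, ENNReal.mul_top (by simp)]
    exact le_top
  refine le_trans ?_ (mul_le_mul_left le_self_add _)
  have hae : ∀ᵐ u, h u ≠ ∞ := by
    filter_upwards [ae_lt_top (hh.pow_const 2) hfin] with u hu h0
    rw [h0] at hu
    simp at hu
  let T : ℕ → ℝ → ℝ≥0∞ := fun N u =>
    min N (⨆ k : ℤ, ⨆ _ : k ≤ N, ∫⁻ s in Ioo (-1 : ℝ) 1, h (u + s * 2 ^ k))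
  have hT : ∀ N, Measurable (T N) := fun N =>
    measurable_const.min (Measurable.iSup fun k => Measurable.iSup fun _ => mx_meas hh _)
  have hTf : ∀ N u, T N u ≠ ∞ := fun N u =>
    ne_top_of_le_ne_top (ENNReal.natCast_ne_top N) (min_le_left _ _)
  have hTm : ∀ u, Monotone fun N => T N u := fun u N N' hN =>
    min_le_min (Nat.cast_le.2 hN) (iSup_mono fun k => iSup_le fun hk =>
      le_iSup_of_le (hk.trans (Nat.cast_le.2 hN)) le_rfl)
  have hsup : ∀ u, (⨆ k : ℤ, ∫⁻ s in Ioo (-1 : ℝ) 1, h (u + s * 2 ^ k)) ^ 2 ≤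
      ⨆ N, T N u ^ 2 := by
    intro u
    rw [← ENNReal.iSup_pow_of_ne_zero two_ne_zero]
    refine pow_le_pow_left' (iSup_le fun k => le_of_forall_lt fun c hc => ?_) 2
    obtain ⟨n, hn⟩ := ENNReal.exists_nat_gt (hc.trans_le le_top).ne
    refine lt_of_lt_of_le (lt_min ?_ ?_) (le_iSup (fun N => T N u) (max n k.toNat))
    · exact hn.trans_le (Nat.cast_le.2 (le_max_left _ _))
    · refine hc.trans_le (le_iSup₂_of_le k ?_ le_rfl)
      omega
  refine (lintegral_mono hsup).trans ?_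
  rw [lintegral_iSup (fun N => (hT N).pow_const 2)
    (fun N N' hN u => pow_le_pow_left' (hTm u hN) 2)]
  refine iSup_le fun N => ?_
  have h2 : ∀ᵐ u, ENNReal.ofReal (2 * (h u).toReal) = 2 * h u := by
    filter_upwards [hae] with u hu
    rw [ENNReal.ofReal_mul zero_le_two, ENNReal.ofReal_ofNat, ENNReal.ofReal_toReal hu]
  have h3 := MP_a785f2_an.NH.max_strong (volume : Measure ℝ)
    (g := fun u => 2 * (h u).toReal) (M := fun u => (T N u).toReal)
    (hh.ennreal_toReal.const_mul 2) (fun u => by positivity)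
    (hT N).ennreal_toReal.aemeasurable (fun u => ENNReal.toReal_nonneg) (2 ^ (N : ℤ))
    (fun u t ht htT => by
      have h4 := ((ENNReal.ofReal_lt_iff_lt_toReal ht.le (hTf N u)).2 htT).trans_le
        (min_le_right _ _)
      obtain ⟨k, hk⟩ := lt_iSup_iff.1 h4
      obtain ⟨hkN, hk⟩ := lt_iSup_iff.1 hk
      have hρ : (0 : ℝ) < 2 ^ k := by positivity
      refine ⟨2 ^ k, hρ, zpow_le_zpow_right₀ one_le_two hkN, ?_⟩
      have h5 := mx_scale hh u 1 hρ
      rw [one_mul] at h5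
      rw [lintegral_congr_ae (ae_restrict_of_ae h2), lintegral_const_mul _ hh, ← h5,
        Real.volume_ball, ENNReal.ofReal_mul zero_le_two, ENNReal.ofReal_ofNat, mul_comm,
        mul_assoc]
      exact mul_le_mul_right (mul_le_mul_right hk.le _) _) (p := 2) one_lt_two
  have h6 : ∀ u, ENNReal.ofReal ((T N u).toReal ^ (2 : ℝ)) = T N u ^ 2 := fun u => by
    rw [Real.rpow_two, ENNReal.ofReal_pow ENNReal.toReal_nonneg, ENNReal.ofReal_toReal (hTf N u)]
  have h7 : ∫⁻ u, ENNReal.ofReal ((2 * (h u).toReal) ^ (2 : ℝ)) = 4 * ∫⁻ u, h u ^ 2 := by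
    rw [← lintegral_const_mul _ (hh.pow_const 2)]
    refine lintegral_congr_ae ?_
    filter_upwards [h2] with u hu
    rw [Real.rpow_two, ENNReal.ofReal_pow (by positivity), hu, mul_pow]
    norm_num
  simp only [h6] at h3
  rwa [h7, ← mul_assoc] at h3

theorem mx_transfer {n : ℕ} {ω : Fin n → ℝ} {i : Fin n} (hi : ω i ≠ 0)
    {H : (Fin n → ℝ) → ℝ≥0∞} (hH : Measurable H) :
    ∫⁻ x, H x = ∫⁻ x : Fin n → ℝ, (Ico (0 : ℝ) 1).indicator 1 (x i / ω i) * ∫⁻ s : ℝ, H (x + s • ω) := by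
  have hI : Measurable ((Ico (0 : ℝ) 1).indicator (1 : ℝ → ℝ≥0∞)) :=
    measurable_one.indicator measurableSet_Ico
  have h1 : ∀ x : Fin n → ℝ, (Ico (0 : ℝ) 1).indicator 1 (x i / ω i) * ∫⁻ s : ℝ, H (x + s • ω) =
      ∫⁻ s : ℝ, (Ico (0 : ℝ) 1).indicator 1 (x i / ω i) * H (x + s • ω) := fun x =>
    (lintegral_const_mul _ (by fun_prop)).symm
  have h2 : ∀ s : ℝ, ∫⁻ x : Fin n → ℝ, (Ico (0 : ℝ) 1).indicator 1 (x i / ω i) * H (x + s • ω) =
      ∫⁻ x : Fin n → ℝ, (Ico (0 : ℝ) 1).indicator 1 (x i / ω i - s) * H x := fun s => by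
    rw [← lintegral_add_right_eq_self
      (fun x : Fin n → ℝ => (Ico (0 : ℝ) 1).indicator 1 (x i / ω i - s) * H x) (s • ω)]
    refine lintegral_congr fun x => ?_
    have e : (x + s • ω) i / ω i - s = x i / ω i := by
      simp only [Pi.add_apply, Pi.smul_apply, smul_eq_mul]
      field_simp
      ring
    simp only [e]
  simp only [h1]
  rw [lintegral_lintegral_swap (Measurable.aemeasurable (by
    exact (hI.comp (by fun_prop)).mul (hH.comp (by fun_prop))))]
  simp only [h2]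
  rw [lintegral_lintegral_swap (Measurable.aemeasurable (by
    exact (hI.comp (by fun_prop)).mul (hH.comp (by fun_prop))))]
  refine lintegral_congr fun x => ?_
  rw [lintegral_mul_const _ (by exact hI.comp (by fun_prop)),
    lintegral_sub_left_eq_self (fun s => (Ico (0 : ℝ) 1).indicator 1 s), lintegral_indicator_one
      measurableSet_Ico]
  simp

theorem mx_peetre (s c : ℝ) : Pk (s - c) ≤ 2 * (1 + c ^ 2) * Pk s := by
  unfold Pk
  rw [mul_left_comm]
  refine mul_le_mul_of_nonneg_left ?_ (by positivity)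
  rw [← div_eq_mul_inv, inv_eq_one_div, div_le_div_iff₀ (by positivity) (by positivity)]
  nlinarith [sq_nonneg (s - 2 * c), sq_nonneg (c * (s - c))]

theorem mx_Pk_le (s : ℝ) : ENNReal.ofReal (Pk s) ≤
    ∑' j : ℕ, (Ioo (-(2 : ℝ) ^ j) (2 ^ j)).indicator (fun _ => 4 * (2⁻¹ : ℝ≥0∞) ^ j * 2⁻¹ ^ j) s := by
  have hπ : π⁻¹ ≤ 1 := inv_le_one_of_one_le₀ (by linarith [Real.two_le_pi])
  have h0 : Pk s ≤ (1 + s ^ 2)⁻¹ := mul_le_of_le_one_left (by positivity) hπ
  have h1 : ∃ j : ℕ, |s| < 2 ^ j ∧ (1 + s ^ 2)⁻¹ ≤ 4 * (2⁻¹ : ℝ) ^ j * 2⁻¹ ^ j := by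
    rcases lt_or_ge |s| 1 with h | h
    · refine ⟨0, by simpa using h, ?_⟩
      have : (1 + s ^ 2)⁻¹ ≤ 1 := inv_le_one_of_one_le₀ (by nlinarith [sq_nonneg s])
      simp only [pow_zero]
      linarith
    · obtain ⟨m, h2, h3⟩ := exists_nat_pow_near h one_lt_two
      refine ⟨m + 1, h3, ?_⟩
      have h4 : (0 : ℝ) < 2 ^ m := by positivity
      have e : 4 * (2⁻¹ : ℝ) ^ (m + 1) * 2⁻¹ ^ (m + 1) = ((2 ^ m) ^ 2)⁻¹ := by
        rw [inv_pow, pow_succ]
        field_simp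
        norm_num
      rw [e]
      refine inv_anti₀ (by positivity) ?_
      nlinarith [sq_abs s, abs_nonneg s]
  obtain ⟨j, h2, h3⟩ := h1
  refine le_trans ?_ (ENNReal.le_tsum j)
  rw [indicator_of_mem (show s ∈ Ioo (-(2 : ℝ) ^ j) (2 ^ j) from abs_lt.1 h2)]
  refine (ENNReal.ofReal_le_ofReal (h0.trans h3)).trans (le_of_eq ?_)
  rw [ENNReal.ofReal_mul (by positivity), ENNReal.ofReal_mul (by positivity),
    ENNReal.ofReal_pow (by positivity), ENNReal.ofReal_inv_of_pos two_pos, ENNReal.ofReal_ofNat,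
    ENNReal.ofReal_ofNat]

theorem mx_dom {h : ℝ → ℝ≥0∞} (hh : Measurable h) {r : ℝ} (hr : 0 < r) :
    ∫⁻ s, ENNReal.ofReal (Pk s) * h (s * r) ≤
      16 * ⨆ k : ℤ, ∫⁻ s in Ioo (-1 : ℝ) 1, h (s * 2 ^ k) := by
  obtain ⟨k, hk1, hk2⟩ := exists_mem_Ioc_zpow hr one_lt_two
  set S := ⨆ k : ℤ, ∫⁻ s in Ioo (-1 : ℝ) 1, h (s * 2 ^ k) with hS
  have h1 : ∀ j : ℕ, (2⁻¹ : ℝ≥0∞) ^ j * ∫⁻ s in Ioo (-(2 : ℝ) ^ j) (2 ^ j), h (s * r) ≤ 2 * S := by
    intro j
    have hρ : (0 : ℝ) < 2 ^ (j + (k + 1)) := by positivity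
    have e : (2 : ℝ) ^ (j + (k + 1)) = 2 ^ j * 2 ^ (k + 1) := by
      rw [zpow_add₀ two_ne_zero, zpow_natCast]
    have h2 := mx_scale hh 0 (2 ^ j) hr
    have h3 := mx_scale hh 0 1 hρ
    simp only [zero_add, one_mul] at h2 h3
    have h4 : ENNReal.ofReal r * ∫⁻ s in Ioo (-(2 : ℝ) ^ j) (2 ^ j), h (s * r) ≤
        ENNReal.ofReal r * (2 ^ j * (2 * S)) := by
      rw [h2]
      refine (lintegral_mono_set (Metric.ball_subset_ball (show 2 ^ j * r ≤ 2 ^ (j + (k + 1)) by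
        rw [e]; gcongr))).trans ?_
      rw [← h3]
      have h5 : ENNReal.ofReal (2 ^ (j + (k + 1))) ≤ ENNReal.ofReal r * (2 ^ j * 2) := by
        rw [← ENNReal.ofReal_ofNat 2, ← ENNReal.ofReal_pow zero_le_two,
          ← ENNReal.ofReal_mul (by positivity), ← ENNReal.ofReal_mul hr.le]
        refine ENNReal.ofReal_le_ofReal ?_
        rw [e, zpow_add_one₀ two_ne_zero]
        have : (0 : ℝ) < 2 ^ j := by positivity
        nlinarith
      refine (mul_le_mul' h5 (le_iSup (fun k : ℤ => ∫⁻ s in Ioo (-1 : ℝ) 1, h (s * 2 ^ k))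
        (j + (k + 1)))).trans (le_of_eq ?_)
      rw [hS]
      ring
    have h6 := (ENNReal.mul_le_mul_iff_right (ENNReal.ofReal_pos.2 hr).ne'
      ENNReal.ofReal_ne_top).1 h4
    refine (mul_le_mul_right h6 _).trans (le_of_eq ?_)
    rw [← mul_assoc, ← mul_pow, ENNReal.inv_mul_cancel two_ne_zero ENNReal.ofNat_ne_top, one_pow,
      one_mul]
  have hm : Measurable fun s => h (s * r) := by fun_prop
  calc ∫⁻ s, ENNReal.ofReal (Pk s) * h (s * r)
      ≤ ∫⁻ s, ∑' j : ℕ, (Ioo (-(2 : ℝ) ^ j) (2 ^ j)).indicator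
          (fun s => 4 * (2⁻¹ : ℝ≥0∞) ^ j * 2⁻¹ ^ j * h (s * r)) s := by
        refine lintegral_mono fun s => (mul_le_mul_left (mx_Pk_le s) _).trans (le_of_eq ?_)
        rw [← ENNReal.tsum_mul_right]
        refine tsum_congr fun j => ?_
        by_cases hs : s ∈ Ioo (-(2 : ℝ) ^ j) (2 ^ j)
        · simp only [indicator_of_mem hs]
        · simp only [indicator_of_notMem hs, zero_mul]
    _ = ∑' j : ℕ, 4 * (2⁻¹ : ℝ≥0∞) ^ j *
          (2⁻¹ ^ j * ∫⁻ s in Ioo (-(2 : ℝ) ^ j) (2 ^ j), h (s * r)) := by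
        rw [lintegral_tsum fun j => ((hm.const_mul _).indicator measurableSet_Ioo).aemeasurable]
        refine tsum_congr fun j => ?_
        rw [lintegral_indicator measurableSet_Ioo, lintegral_const_mul _ hm, mul_assoc]
    _ ≤ ∑' j : ℕ, 4 * (2⁻¹ : ℝ≥0∞) ^ j * (2 * S) :=
        ENNReal.tsum_le_tsum fun j => mul_le_mul_right (h1 j) _
    _ = 16 * S := by
        rw [ENNReal.tsum_mul_right, ENNReal.tsum_mul_left, ENNReal.tsum_geometric,
          ENNReal.one_sub_inv_two, inv_inv]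
        ring

/-- a maximal operator along a direction: bounded on `L²` with a constant which does not depend on
the direction, and it dominates the shifted Poisson means -/
theorem exists_max (n : ℕ) :
    ∃ (M : (Fin n → ℝ) → ((Fin n → ℝ) → ℝ≥0∞) → (Fin n → ℝ) → ℝ≥0∞) (C : ℝ≥0∞), C ≠ ∞ ∧
      ∀ (ω : Fin n → ℝ) (g : (Fin n → ℝ) → ℝ≥0∞), Measurable g →
        Measurable (M ω g) ∧ ∫⁻ x, M ω g x ^ 2 ≤ C * ∫⁻ x, g x ^ 2 ∧
          ∀ (x : Fin n → ℝ) (c r : ℝ), 0 ≤ r →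
            ∫⁻ s : ℝ, ENNReal.ofReal (Pk s) * g (x + ((s + c) * r) • ω) ≤
              ENNReal.ofReal (1 + c ^ 2) * M ω g x := by
  obtain ⟨C, hC, hC4, hline⟩ := mx_line
  let K : ℝ≥0∞ := 32 + ∫⁻ s, ENNReal.ofReal (Pk s)
  have hK : K ≠ ∞ := ENNReal.add_ne_top.2 ⟨by simp, integrable_Pk.lintegral_lt_top.ne⟩
  let A : (Fin n → ℝ) → ((Fin n → ℝ) → ℝ≥0∞) → (Fin n → ℝ) → ℝ≥0∞ := fun ω g x =>
    ⨆ k : ℤ, ∫⁻ s in Ioo (-1 : ℝ) 1, g (x + (s * 2 ^ k) • ω)
  refine ⟨fun ω g x => K * max (g x) (A ω g x), K ^ 2 * (1 + C), by finiteness,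
    fun ω g hg => ?_⟩
  have hA : Measurable (A ω g) := Measurable.iSup fun k => Measurable.lintegral_prod_right'
    (f := fun p : (Fin n → ℝ) × ℝ => g (p.1 + (p.2 * 2 ^ k) • ω)) (by fun_prop)
  have hL : ∫⁻ x, A ω g x ^ 2 ≤ C * ∫⁻ x, g x ^ 2 := by
    by_cases hω : ω = 0
    · rw [← lintegral_const_mul _ (hg.pow_const 2)]
      refine lintegral_mono fun x => le_trans ?_ (mul_le_mul_left hC4 _)
      have e : A ω g x = 2 * g x := by
        simp only [A, hω, smul_zero, add_zero, setLIntegral_const, Real.volume_Ioo, iSup_const]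
        norm_num [mul_comm]
      rw [e, mul_pow]
      norm_num
    · obtain ⟨i, hi⟩ := Function.ne_iff.1 hω
      rw [mx_transfer hi (hA.pow_const 2), mx_transfer hi (hg.pow_const 2),
        ← lintegral_const_mul' _ _ hC]
      refine lintegral_mono fun x => ?_
      rw [mul_left_comm]
      refine mul_le_mul_right (le_trans (le_of_eq ?_)
        (hline (fun u => g (x + u • ω)) (by fun_prop))) _
      simp only [A, add_smul, add_assoc]
  refine ⟨(hg.max hA).const_mul K, ?_, fun x c r hr => ?_⟩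
  · calc ∫⁻ x, (K * max (g x) (A ω g x)) ^ 2 ≤ ∫⁻ x, K ^ 2 * (g x ^ 2 + A ω g x ^ 2) := by
          refine lintegral_mono fun x => ?_
          rw [mul_pow]
          refine mul_le_mul_right ?_ _
          rcases le_total (g x) (A ω g x) with h | h
          · rw [max_eq_right h]; exact le_add_self
          · rw [max_eq_left h]; exact le_self_add
      _ ≤ _ := by
          rw [lintegral_const_mul' _ _ (ENNReal.pow_ne_top hK),
            lintegral_add_left (hg.pow_const 2), mul_assoc, add_mul, one_mul]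
          exact mul_le_mul_right (add_le_add_right hL _) _
  · rcases hr.eq_or_lt with h0 | h0
    · simp only [← h0, mul_zero, zero_smul, add_zero]
      rw [lintegral_mul_const _ continuous_Pk.measurable.ennreal_ofReal]
      refine (mul_le_mul' (le_add_self : _ ≤ K) (le_max_left _ (A ω g x))).trans
        (le_mul_of_one_le_left' ?_)
      exact ENNReal.one_le_ofReal.2 (by nlinarith [sq_nonneg c])
    · have hm : Measurable fun u : ℝ => g (x + u • ω) := by fun_prop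
      calc ∫⁻ s : ℝ, ENNReal.ofReal (Pk s) * g (x + ((s + c) * r) • ω)
          = ∫⁻ s : ℝ, ENNReal.ofReal (Pk (s - c)) * g (x + (s * r) • ω) := by
            rw [← lintegral_add_right_eq_self
              (fun s : ℝ => ENNReal.ofReal (Pk (s - c)) * g (x + (s * r) • ω)) c]
            simp only [add_sub_cancel_right]
        _ ≤ ∫⁻ s : ℝ, ENNReal.ofReal (1 + c ^ 2) * 2 *
              (ENNReal.ofReal (Pk s) * g (x + (s * r) • ω)) := by
            refine lintegral_mono fun s => ?_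
            rw [← mul_assoc]
            refine mul_le_mul_left ((ENNReal.ofReal_le_ofReal (mx_peetre s c)).trans
              (le_of_eq ?_)) _
            rw [ENNReal.ofReal_mul (by positivity), ENNReal.ofReal_mul zero_le_two,
              ENNReal.ofReal_ofNat, mul_comm 2]
        _ ≤ ENNReal.ofReal (1 + c ^ 2) * 2 * (16 * A ω g x) := by
            rw [lintegral_const_mul' _ _ (by finiteness)]
            exact mul_le_mul_right (mx_dom hm h0) _
        _ ≤ _ := by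
            rw [mul_assoc, ← mul_assoc 2, show (2 * 16 : ℝ≥0∞) = 32 by norm_num]
            exact mul_le_mul_right (mul_le_mul' le_self_add (le_max_right _ _)) _

end Pool.Agent.Lib.MP_730078_an.PC
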