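import Pool.Agent.Lib.MP_730078_an.PC.Oct
import Pool.Agent.Lib.MP_730078_an.PC.Geo

set_option autoImplicit false

open MeasureTheory Set Filter Topology Complex
open scoped ENNReal Real NNReal

namespace Pool.Agent.Lib.MP_730078_an.PC

theorem maxI_add_sq (a b : ℝ≥0∞) : (a + b) ^ 2 ≤ 2 * a ^ 2 + 2 * b ^ 2 := by
  rcases eq_or_ne a ∞ with rfl | ha
  · simp
  rcases eq_or_ne b ∞ with rfl | hb
  · simp
  lift a to ℝ≥0 using ha
  lift b to ℝ≥0 using hb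
  have h : (a + b) ^ 2 ≤ 2 * a ^ 2 + 2 * b ^ 2 := by
    rw [← NNReal.coe_le_coe]
    push_cast
    nlinarith [sq_nonneg ((a : ℝ) - b)]
  exact_mod_cast h

theorem maxI_iSup_sq (a : ℕ → ℝ≥0∞) : (⨆ m, a m) ^ 2 ≤ ∑' m, a m ^ 2 := by
  have h : (⨆ m, a m) ≤ (∑' m, a m ^ 2) ^ (1 / 2 : ℝ) := by
    refine iSup_le fun m => ?_
    have h1 : a m = (a m ^ 2) ^ (1 / 2 : ℝ) := by
      rw [← ENNReal.rpow_natCast, ← ENNReal.rpow_mul]; norm_num
    rw [h1]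
    exact ENNReal.rpow_le_rpow (ENNReal.le_tsum (f := fun m => a m ^ 2) m) (by norm_num)
  calc (⨆ m, a m) ^ 2 ≤ ((∑' m, a m ^ 2) ^ (1 / 2 : ℝ)) ^ 2 := pow_le_pow_left' h 2
    _ = ∑' m, a m ^ 2 := by
      rw [← ENNReal.rpow_natCast, ← ENNReal.rpow_mul]; norm_num

theorem maxI_int {ψ h : (Fin 4 → ℝ) → ℂ} (hi : Integrable ψ) (hc : Continuous h) {B : ℝ}
    (hB : ∀ t, ψ t ≠ 0 → ‖h t‖ ≤ B) (x : Fin 4 → ℝ) :
    Integrable fun t => ch (x ⬝ᵥ t) * h t * ψ t := by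
  have hc' : Continuous fun t : Fin 4 → ℝ => ch (x ⬝ᵥ t) * h t := by fun_prop
  refine Integrable.mono' (hi.norm.const_mul B) (hc'.aestronglyMeasurable.mul hi.1)
    (Eventually.of_forall fun t => ?_)
  rw [norm_mul, norm_mul, norm_ch, one_mul]
  by_cases h0 : ψ t = 0
  · simp [h0]
  · exact mul_le_mul_of_nonneg_right (hB t h0) (norm_nonneg _)

theorem maxI_tsum {φ : (Fin 4 → ℝ) → ℂ} (hs : ∀ t, φ t ≠ 0 → t ∈ Du Gam) (t : Fin 4 → ℝ) :
    ∑' m, ‖(piece m).indicator φ t‖ₑ ^ 2 ≤ ‖φ t‖ₑ ^ 2 := by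
  by_cases h0 : φ t = 0
  · have : ∀ m, (piece m).indicator φ t = 0 := fun m => indicator_apply_eq_zero.2 fun _ => h0
    simp [this]
  have h3 : 0 ≤ t 3 := (mem_Du.1 (hs t h0)).1 3
  by_cases hex : ∃ m, t ∈ piece m
  · obtain ⟨m, hm⟩ := hex
    rw [tsum_eq_single m, indicator_of_mem hm]
    intro l hl
    rw [indicator_of_notMem fun h => hl (piece_unique h3 h hm)]
    simp
  · have : ∀ m, (piece m).indicator φ t = 0 := fun m => indicator_of_notMem (fun h => hex ⟨m, h⟩) _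
    simp [this]

theorem maxI_three {φ : (Fin 4 → ℝ) → ℂ} {t : Fin 4 → ℝ} (h3 : 0 ≤ t 3) {m : ℕ}
    (h : t ∈ piece m ∨ t ∈ piece (m + 1) ∨ t ∈ piece (m + 2)) :
    (piece m).indicator φ t + (piece (m + 1)).indicator φ t + (piece (m + 2)).indicator φ t =
      φ t := by
  rcases h with h | h | h
  · rw [indicator_of_mem h, indicator_of_notMem fun h' => by have := piece_unique h3 h h'; omega,
      indicator_of_notMem fun h' => by have := piece_unique h3 h h'; omega]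
    simp
  · rw [indicator_of_mem h, indicator_of_notMem fun h' => by have := piece_unique h3 h h'; omega,
      indicator_of_notMem fun h' => by have := piece_unique h3 h h'; omega]
    simp
  · rw [indicator_of_mem h, indicator_of_notMem fun h' => by have := piece_unique h3 h h'; omega,
      indicator_of_notMem fun h' => by have := piece_unique h3 h h'; omega]
    simp

theorem maxIneq_Gam : MaxIneq Gam := by
  obtain ⟨C1, hC1, H1⟩ := iter 4 8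
  obtain ⟨Gm, B, C2, hC2, Gc, Gb, Ge, H2⟩ := oct
  refine ⟨2 * C2 + 18 * (2 * C1 + 2 * C2), by finiteness, fun φ hm hi hs => ?_⟩
  obtain ⟨ψ, hψ⟩ : ∃ ψ : ℕ → (Fin 4 → ℝ) → ℂ, ψ = fun m => (piece m).indicator φ := ⟨_, rfl⟩
  have ψm : ∀ m, Measurable (ψ m) := fun m => by
    rw [hψ]; exact hm.indicator (measurableSet_piece m)
  have ψi : ∀ m, Integrable (ψ m) := fun m => by
    rw [hψ]; exact hi.indicator (measurableSet_piece m)
  have ψs : ∀ m t, ψ m t ≠ 0 → t ∈ Du Gam ∧ t ∈ piece m := fun m t h => by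
    rw [hψ] at h
    have h' := indicator_apply_ne_zero.1 h
    exact ⟨hs t h'.2, h'.1⟩
  have A1 : ∀ m, ∃ S : (Fin 4 → ℝ) → ℝ≥0∞, Measurable S ∧
      ∫⁻ x, S x ^ 2 ≤ C1 * ∫⁻ t, ‖ψ m t‖ₑ ^ 2 ∧ ∀ x, ∀ y ∈ Gam, ‖Ex (ψ m) x y‖ₑ ≤ S x := by
    intro m
    obtain ⟨g, g1, g2⟩ := exists_gen m
    obtain ⟨S, s1, s2, s3⟩ := H1 g (ψ m) (ψm m) (ψi m)
      fun t h => g1 t (ψs m t h).1 (ψs m t h).2
    refine ⟨S, s1, s2, fun x y hy => ?_⟩
    obtain ⟨r, r1, r2⟩ := g2 y hy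
    have := s3 x r (fun _ => 0) 0 r1 (fun _ => by simp)
    rw [← r2] at this
    simpa using this
  choose S1 s11 s12 s13 using A1
  choose S2 s21 s22 s23 s24 using fun m => H2 (ψ m) (ψm m) (ψi m)
    fun t h => (mem_Du.1 (ψs m t h).1).1
  obtain ⟨S0, s01, s02, s03, s04⟩ := H2 φ hm hi fun t h => (mem_Du.1 (hs t h)).1
  have hT : Measurable fun x => ⨆ m, (S1 m x + S2 m x) :=
    Measurable.iSup fun m => (s11 m).add (s21 m)
  refine ⟨fun x => S0 x + 3 * ⨆ m, (S1 m x + S2 m x), s01.add (hT.const_mul 3), ?_, ?_⟩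
  · have hN : ∑' m, ∫⁻ t, ‖ψ m t‖ₑ ^ 2 ≤ ∫⁻ t, ‖φ t‖ₑ ^ 2 := by
      rw [← lintegral_tsum fun m => ((ψm m).enorm.pow_const 2).aemeasurable]
      refine lintegral_mono fun t => ?_
      rw [hψ]
      exact maxI_tsum hs t
    have hm2 : ∀ m, ∫⁻ x, (S1 m x + S2 m x) ^ 2 ≤ (2 * C1 + 2 * C2) * ∫⁻ t, ‖ψ m t‖ₑ ^ 2 := by
      intro m
      calc ∫⁻ x, (S1 m x + S2 m x) ^ 2 ≤ ∫⁻ x, (2 * S1 m x ^ 2 + 2 * S2 m x ^ 2) :=
            lintegral_mono fun x => maxI_add_sq _ _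
        _ = 2 * (∫⁻ x, S1 m x ^ 2) + 2 * ∫⁻ x, S2 m x ^ 2 := by
            rw [lintegral_add_left (((s11 m).pow_const 2).const_mul 2),
              lintegral_const_mul _ ((s11 m).pow_const 2),
              lintegral_const_mul _ ((s21 m).pow_const 2)]
        _ ≤ 2 * (C1 * ∫⁻ t, ‖ψ m t‖ₑ ^ 2) + 2 * (C2 * ∫⁻ t, ‖ψ m t‖ₑ ^ 2) :=
            add_le_add (mul_le_mul_right (s12 m) 2) (mul_le_mul_right (s22 m) 2)
        _ = _ := by ring
    have hT2 : ∫⁻ x, (⨆ m, (S1 m x + S2 m x)) ^ 2 ≤ (2 * C1 + 2 * C2) * ∫⁻ t, ‖φ t‖ₑ ^ 2 := by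
      calc ∫⁻ x, (⨆ m, (S1 m x + S2 m x)) ^ 2 ≤ ∫⁻ x, ∑' m, (S1 m x + S2 m x) ^ 2 :=
            lintegral_mono fun x => maxI_iSup_sq _
        _ = ∑' m, ∫⁻ x, (S1 m x + S2 m x) ^ 2 :=
            lintegral_tsum fun m => (((s11 m).add (s21 m)).pow_const 2).aemeasurable
        _ ≤ ∑' m, (2 * C1 + 2 * C2) * ∫⁻ t, ‖ψ m t‖ₑ ^ 2 := ENNReal.tsum_le_tsum hm2
        _ = (2 * C1 + 2 * C2) * ∑' m, ∫⁻ t, ‖ψ m t‖ₑ ^ 2 := ENNReal.tsum_mul_left
        _ ≤ _ := mul_le_mul_right hN _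
    calc ∫⁻ x, (S0 x + 3 * ⨆ m, (S1 m x + S2 m x)) ^ 2
        ≤ ∫⁻ x, (2 * S0 x ^ 2 + 18 * (⨆ m, (S1 m x + S2 m x)) ^ 2) := by
          refine lintegral_mono fun x => (maxI_add_sq _ _).trans (le_of_eq ?_)
          ring
      _ = 2 * (∫⁻ x, S0 x ^ 2) + 18 * ∫⁻ x, (⨆ m, (S1 m x + S2 m x)) ^ 2 := by
          rw [lintegral_add_left ((s01.pow_const 2).const_mul 2),
            lintegral_const_mul _ (s01.pow_const 2), lintegral_const_mul _ (hT.pow_const 2)]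
      _ ≤ 2 * (C2 * ∫⁻ t, ‖φ t‖ₑ ^ 2) + 18 * ((2 * C1 + 2 * C2) * ∫⁻ t, ‖φ t‖ₑ ^ 2) :=
          add_le_add (mul_le_mul_right s02 2) (mul_le_mul_right hT2 18)
      _ = _ := by ring
  · intro x y hy
    obtain ⟨y0, y1, y3⟩ := Gam_pos hy
    rcases le_total 0 (y 2) with y2 | y2
    · refine (s03 x y fun i => ?_).trans le_self_add
      fin_cases i
      · exact y0.le
      · exact y1.le
      · exact y2
      · exact y3.le
    obtain ⟨m, hm3⟩ := few hy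
    have dc : Continuous fun t : Fin 4 → ℝ => dm (y ⬝ᵥ t) := by fun_prop
    have iD : ∀ j, Integrable fun t => ch (x ⬝ᵥ t) * dm (y ⬝ᵥ t) * ψ j t := fun j =>
      maxI_int (ψi j) dc (fun t h => norm_dm_le ((ψs j t h).1 y hy)) x
    have iG : ∀ j, Integrable fun t => ch (x ⬝ᵥ t) * Gm y t * ψ j t := fun j =>
      maxI_int (ψi j) (Gc y)
        (fun t h => Gb y t y0.le y1.le y2 y3.le (mem_Du.1 (ψs j t h).1).1) x
    have iG0 : Integrable fun t => ch (x ⬝ᵥ t) * Gm y t * φ t :=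
      maxI_int hi (Gc y) (fun t h => Gb y t y0.le y1.le y2 y3.le (mem_Du.1 (hs t h)).1) x
    obtain ⟨E, hE⟩ : ∃ E : ℕ → (Fin 4 → ℝ) → ℂ, E = fun j t =>
        ch (x ⬝ᵥ t) * dm (y ⬝ᵥ t) * ψ j t - ch (x ⬝ᵥ t) * Gm y t * ψ j t := ⟨_, rfl⟩
    have iE : ∀ j, Integrable (E j) := fun j => by rw [hE]; exact (iD j).sub (iG j)
    have bE : ∀ j, ‖∫ t, E j t‖ₑ ≤ ⨆ m, (S1 m x + S2 m x) := by
      intro j
      refine le_trans ?_ (le_iSup (fun m => S1 m x + S2 m x) j)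
      rw [hE]
      simp only
      rw [integral_sub (iD j) (iG j)]
      exact enorm_sub_le.trans (add_le_add (s13 j x y hy) (s24 j x y y0.le y1.le y2 y3.le))
    have key : ∀ t, ch (x ⬝ᵥ t) * dm (y ⬝ᵥ t) * φ t =
        ch (x ⬝ᵥ t) * Gm y t * φ t + (E m t + E (m + 1) t + E (m + 2) t) := by
      intro t
      rw [hE]
      simp only
      by_cases h0 : φ t = 0
      · have : ∀ j, ψ j t = 0 := fun j => by
          rw [hψ]; exact indicator_apply_eq_zero.2 fun _ => h0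
        simp [h0, this]
      rcases le_or_gt (-y 2 * t 2) ((y 0 * t 0 + y 1 * t 1 + y 3 * t 3) / 2) with hg | hg
      · rw [Ge y t hg]; ring
      · have h3 := maxI_three (φ := φ) ((mem_Du.1 (hs t h0)).1 3) (hm3 t (hs t h0) hg)
        have h4 : ψ m t + ψ (m + 1) t + ψ (m + 2) t = φ t := by rw [hψ]; exact h3
        rw [← h4]; ring
    have hEx : Ex φ x y = (∫ t, ch (x ⬝ᵥ t) * Gm y t * φ t) +
        ((∫ t, E m t) + (∫ t, E (m + 1) t) + ∫ t, E (m + 2) t) := by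
      have i2 : Integrable fun t => E m t + E (m + 1) t := (iE m).add (iE (m + 1))
      have i3 : Integrable fun t => E m t + E (m + 1) t + E (m + 2) t := i2.add (iE (m + 2))
      rw [Ex, ← integral_add (iE m) (iE (m + 1)), ← integral_add i2 (iE (m + 2)),
        ← integral_add iG0 i3]
      exact integral_congr_ae (Eventually.of_forall key)
    rw [hEx]
    refine (enorm_add_le _ _).trans (add_le_add (s04 x y y0.le y1.le y2 y3.le) ?_)
    refine (enorm_add_le _ _).trans ((add_le_add ((enorm_add_le _ _).trans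
      (add_le_add (bE m) (bE (m + 1)))) (bE (m + 2))).trans (le_of_eq ?_))
    ring

end Pool.Agent.Lib.MP_730078_an.PC
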