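import Pool.Agent.Lib.MP_730078_an.Block2

set_option autoImplicit false

open MeasureTheory Set Filter Topology Complex
open scoped ENNReal Real NNReal

namespace Pool.Agent.Lib.MP_730078_an.PC

noncomputable section

/-- the sum of wave packets with arbitrary carriers -/
def SumG (D n ν : ℕ) (s : Finset ℤ) (a : ℤ → ℂ) (lam : ℕ × ℕ → ℤ) (w : ℕ × ℕ → TT → ℂ)
    (x : T3) : ℂ :=
  ∑ α ∈ Idx D, gg D n ν s a α (x, 0) * w α x.1 * e1 (lam α • x.2.2)

theorem SumG_eq (D n ν : ℕ) (s : Finset ℤ) (a : ℤ → ℂ) (lam : ℕ × ℕ → ℤ) (w : ℕ × ℕ → TT → ℂ)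
    (x : T3) : SumG D n ν s a lam w x =
    ∑ α ∈ Idx D, (prof (qq D) n ν (e1 (x.1 - (ctr D α : TT))) * psi0 s a (dev D α (x.1, x.2.1, 0)) *
      w α x.1) * e1 (lam α • x.2.2) := by
  simp only [SumG, Pi.mul_apply, gg]
  refine Finset.sum_congr rfl fun α _ => ?_
  rw [wf_apply, psi_apply _ _ _ _ _ _ (by simp)]
  simp [dev]

theorem continuous_SumG (D n ν : ℕ) (s : Finset ℤ) (a : ℤ → ℂ) (lam : ℕ × ℕ → ℤ)
    (w : ℕ × ℕ → TT → ℂ) (hw : ∀ α, Continuous (w α)) : Continuous (SumG D n ν s a lam w) := by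
  have e : SumG D n ν s a lam w = fun x : T3 =>
      ∑ α ∈ Idx D, (prof (qq D) n ν (e1 (x.1 - (ctr D α : TT))) *
        psi0 s a (dev D α (x.1, x.2.1, 0)) * w α x.1) * e1 (lam α • x.2.2) :=
    funext fun x => SumG_eq D n ν s a lam w x
  rw [e]
  fun_prop

theorem L2_boundG (D n ν : ℕ) (s : Finset ℤ) (a : ℤ → ℂ) (lam : ℕ × ℕ → ℤ)
    (hlam : Set.InjOn lam (Idx D)) (w : ℕ × ℕ → TT → ℂ)
    (hw : ∀ α, Continuous (w α)) (hw1 : ∀ α x, ‖w α x‖ ≤ 1) (hD : 100 ≤ MM D) {S : Set T3} (hS : MeasurableSet S)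
    (hS3 : ∀ x : T3, x ∈ S ↔ (x.1, x.2.1, 0) ∈ S) {C₁ C₂ : ℝ} (h1 : 0 ≤ C₁) (h2 : 0 ≤ C₂)
    (hb : ∀ α ∈ Idx D, ∀ x ∈ S,
      ‖prof (qq D) n ν (e1 (x.1 - (ctr D α : TT)))‖ ^ 2 * ‖psi0 s a (dev D α x)‖ ^ 2 ≤
        ‖Wn (qq D) n (e1 (x.1 - (ctr D α : TT)))‖ ^ 2 *
          ((if ‖dev D α x‖ ≤ 1 / MM D then C₁ else 0) + C₂)) :
    ∫⁻ x in S, ENNReal.ofReal (‖SumG D n ν s a lam w x‖ ^ 2) ≤
      ENNReal.ofReal (C₁ / 800 + MM D * C₂ / 1600) := by
  have hM := MM_pos D
  have hq0 : 0 ≤ qq D := by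
    have : 1 / (100 * MM D) ≤ 1 := by rw [div_le_one (by positivity)]; linarith
    unfold qq; linarith
  have hq1 : qq D ≤ 1 := by
    have : 0 < 1 / (100 * MM D) := by positivity
    unfold qq; linarith
  have hcont : Continuous fun x : T3 => SumG D n ν s a lam w x := continuous_SumG D n ν s a lam w hw
  have hmeas : Measurable (S.indicator fun x : T3 =>
      ENNReal.ofReal (‖SumG D n ν s a lam w x‖ ^ 2)) :=
    Measurable.indicator (hcont.norm.pow 2).measurable.ennreal_ofReal hS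
  let u : ℕ × ℕ → TT → ℝ≥0∞ := fun α x₁ =>
    ENNReal.ofReal (‖Wn (qq D) n (e1 (x₁ - (ctr D α : TT)))‖ ^ 2)
  let v : TT → ℝ≥0∞ := fun z =>
    (Metric.closedBall (0 : TT) (1 / MM D)).indicator (fun _ => ENNReal.ofReal C₁) z +
      ENNReal.ofReal C₂
  have hu : ∀ α, Measurable (u α) := fun α => by simp only [u]; fun_prop
  have hv : Measurable v :=
    (Measurable.indicator measurable_const measurableSet_closedBall).add measurable_const
  have hvi : ∫⁻ z, v z ≤ ENNReal.ofReal (C₁ * (2 * (1 / MM D)) + C₂) := by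
    simp only [v]
    rw [lintegral_add_right _ measurable_const, lintegral_indicator measurableSet_closedBall,
      setLIntegral_const, lintegral_const, AddCircle.volume_closedBall, measure_univ, mul_one,
      ENNReal.ofReal_add (by positivity) h2, ENNReal.ofReal_mul h1]
    gcongr
    exact min_le_right _ _
  have hui : ∀ α, ∫⁻ x₁, u α x₁ ≤ ENNReal.ofReal (1 / (100 * MM D)) := by
    intro α
    have := lintegral_Wn hq0 hq1 n
    rw [← lintegral_sub_right_eq_self _ (ctr D α : TT)] at this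
    refine this.trans (le_of_eq ?_)
    unfold qq; congr 1; ring
  have step : ∀ x₁ x₂ : TT, ∫⁻ x₃ : TT, S.indicator (fun x : T3 =>
      ENNReal.ofReal (‖SumG D n ν s a lam w x‖ ^ 2)) (x₁, x₂, x₃) ≤
      ∑ α ∈ Idx D, u α x₁ * v (x₂ - (slope D α • x₁ + (off D α : TT))) := by
    intro x₁ x₂
    by_cases hx : (x₁, x₂, (0 : TT)) ∈ S
    · have hx' : ∀ x₃ : TT, (x₁, x₂, x₃) ∈ S := fun x₃ => (hS3 _).2 hx
      simp only [indicator_of_mem (hx' _), SumG_eq]
      rw [parseval1 (Idx D) lam hlam,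
        ENNReal.ofReal_sum_of_nonneg (fun _ _ => by positivity)]
      refine Finset.sum_le_sum fun α hα => ?_
      have h0 := hb α hα _ hx
      have h00 : ‖prof (qq D) n ν (e1 (x₁ - (ctr D α : TT))) * psi0 s a (dev D α (x₁, x₂, 0)) *
          w α x₁‖ ^ 2 ≤ ‖prof (qq D) n ν (e1 (x₁ - (ctr D α : TT)))‖ ^ 2 *
            ‖psi0 s a (dev D α (x₁, x₂, 0))‖ ^ 2 := by
        rw [norm_mul, norm_mul, ← mul_pow]
        exact pow_le_pow_left₀ (by positivity)
          (mul_le_of_le_one_right (by positivity) (hw1 α x₁)) 2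
      have := h00.trans h0
      refine (ENNReal.ofReal_le_ofReal this).trans (le_of_eq ?_)
      rw [ENNReal.ofReal_mul (by positivity)]
      simp only [u, v]
      congr 1
      have e : x₂ - (slope D α • x₁ + (off D α : TT)) = dev D α (x₁, x₂, 0) := by
        simp only [dev]; abel
      rw [e]
      by_cases hc : ‖dev D α (x₁, x₂, 0)‖ ≤ 1 / MM D
      · rw [if_pos hc, indicator_of_mem (by simpa using hc), ENNReal.ofReal_add h1 h2]
      · rw [if_neg hc, indicator_of_notMem (by simpa using hc), zero_add, zero_add]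
    · have hx' : ∀ x₃ : TT, (x₁, x₂, x₃) ∉ S := fun x₃ h => hx ((hS3 _).1 h)
      simp [indicator_of_notMem (hx' _)]
  rw [← lintegral_indicator hS, Measure.volume_eq_prod, lintegral_prod _ hmeas.aemeasurable]
  calc _ ≤ ∫⁻ x₁ : TT, ∑ α ∈ Idx D, u α x₁ * ENNReal.ofReal (C₁ * (2 * (1 / MM D)) + C₂) := by
        refine lintegral_mono fun x₁ => ?_
        have hm1 : Measurable fun y : TT × TT => S.indicator (fun x : T3 =>
            ENNReal.ofReal (‖SumG D n ν s a lam w x‖ ^ 2)) (x₁, y) :=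
          hmeas.comp measurable_prodMk_left
        rw [Measure.volume_eq_prod, lintegral_prod _ hm1.aemeasurable]
        refine (lintegral_mono fun x₂ => step x₁ x₂).trans ?_
        rw [lintegral_finsetSum _ (fun α _ => by fun_prop)]
        refine Finset.sum_le_sum fun α _ => ?_
        rw [lintegral_const_mul _ (by fun_prop), lintegral_sub_right_eq_self v]
        gcongr
    _ ≤ ∑ α ∈ Idx D, ENNReal.ofReal (1 / (100 * MM D)) *
          ENNReal.ofReal (C₁ * (2 * (1 / MM D)) + C₂) := by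
        rw [lintegral_finsetSum _ (fun α _ => by fun_prop)]
        refine Finset.sum_le_sum fun α _ => ?_
        rw [lintegral_mul_const _ (hu α)]
        gcongr
        exact hui α
    _ = _ := by
        simp only [Finset.sum_const, Idx, Finset.card_product, Finset.card_range, nsmul_eq_mul]
        rw [← ENNReal.ofReal_natCast, ← ENNReal.ofReal_mul (by positivity),
          ← ENNReal.ofReal_mul (by positivity)]
        congr 1
        have := one_le_NN D
        unfold MM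
        push_cast
        field_simp
        ring

end

/-- `Phi_eLpNorm` for arbitrary distinct carrier frequencies and unimodular factors -/
theorem eLp_bound (D n ν : ℕ) (s : Finset ℤ) (a : ℤ → ℂ) (hD0 : 0 < D)
    (hD : 100 ≤ MM D) (hn : qq D ^ n ≤ 1 / 100000)
    (hψ1 : ∀ x, ‖psi0 s a x‖ ≤ 2)
    (hψ2 : ∀ x, 1 / MM D ≤ ‖x‖ → ‖psi0 s a x‖ ≤ 1 / (MM D * 3 ^ ν))
    (p : ℝ≥0∞) (hp1 : 1 ≤ p) (hp2 : p ≤ 2)
    (hDp : (3 : ℝ) ^ ν * (1 / D : ℝ) ^ (1 / p.toReal - 1 / 2) ≤ 1)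
    (lam : ℕ × ℕ → ℤ) (hlam : Set.InjOn lam (Idx D)) (u : ℕ × ℕ → TT → ℂ)
    (hu : ∀ α, Continuous (u α)) (hu1 : ∀ α x, ‖u α x‖ ≤ 1) :
    eLpNorm (fun x : T3 => ∑ α ∈ Idx D, gg D n ν s a α (x, 0) * u α x.1 * e1 (lam α • x.2.2))
      p volume ≤ ENNReal.ofReal (2 * (1 + 14 / 100000) ^ ν) := by
  have hM := MM_pos D
  have hq0 : 0 ≤ qq D := by
    have : 1 / (100 * MM D) ≤ 1 := by rw [div_le_one (by positivity)]; linarith
    unfold qq; linarith
  have hq1 : qq D < 1 := by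
    have : 0 < 1 / (100 * MM D) := by positivity
    unfold qq; linarith
  set b : ℝ := 1 + 14 / 100000 with hb
  have hb1 : 1 ≤ b ^ ν := one_le_pow₀ (by rw [hb]; norm_num)
  have hb3 : b ^ ν ≤ 3 ^ ν := by gcongr; rw [hb]; norm_num
  have h31 : (1 : ℝ) ≤ 3 ^ ν := hb1.trans hb3
  change eLpNorm (SumG D n ν s a lam u) p volume ≤ _
  set f : T3 → ℂ := SumG D n ν s a lam u with hf
  have hcont : Continuous f := continuous_SumG D n ν s a lam u hu
  set C₂ : ℝ := 1 / MM D ^ 2 with hC₂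
  have hC₂0 : 0 ≤ C₂ := by positivity
  have hC₂1 : MM D * C₂ / 1600 ≤ 1 / 1600 := by
    have : MM D * C₂ = 1 / MM D := by rw [hC₂]; field_simp
    rw [this]
    gcongr
    rw [div_le_one hM]; linarith
  have hfar : ∀ (α : ℕ × ℕ) (x : T3), ¬ ‖dev D α x‖ ≤ 1 / MM D →
      ‖prof (qq D) n ν (e1 (x.1 - (ctr D α : TT)))‖ ^ 2 * ‖psi0 s a (dev D α x)‖ ^ 2 ≤
        ‖Wn (qq D) n (e1 (x.1 - (ctr D α : TT)))‖ ^ 2 * (0 + C₂) := by
    intro α x hx
    have h1 := norm_prof_le (ν := ν) (norm_e1 (x.1 - (ctr D α : TT))).le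
      (norm_one_add_Wn_le hq0 hq1 n (norm_e1 _).le)
    have h2 := hψ2 _ (not_le.1 hx).le
    calc _ ≤ (‖Wn (qq D) n (e1 (x.1 - (ctr D α : TT)))‖ ^ 2 * (3 ^ ν) ^ 2) *
          (1 / (MM D * 3 ^ ν)) ^ 2 := by gcongr
      _ = _ := by rw [hC₂]; field_simp; ring
  have hnear : ∀ (α : ℕ × ℕ) (x : T3) (c : ℝ), 0 ≤ c →
      ‖1 + Wn (qq D) n (e1 (x.1 - (ctr D α : TT)))‖ ≤ c →
      ‖prof (qq D) n ν (e1 (x.1 - (ctr D α : TT)))‖ ^ 2 * ‖psi0 s a (dev D α x)‖ ^ 2 ≤
        ‖Wn (qq D) n (e1 (x.1 - (ctr D α : TT)))‖ ^ 2 * (4 * (c ^ ν) ^ 2 + C₂) := by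
    intro α x c hc0 hc
    have h1 := norm_prof_le (ν := ν) (norm_e1 (x.1 - (ctr D α : TT))).le hc
    have h2 := hψ1 (dev D α x)
    calc _ ≤ (‖Wn (qq D) n (e1 (x.1 - (ctr D α : TT)))‖ ^ 2 * (c ^ ν) ^ 2) * 2 ^ 2 := by gcongr
      _ = ‖Wn (qq D) n (e1 (x.1 - (ctr D α : TT)))‖ ^ 2 * (4 * (c ^ ν) ^ 2 + 0) := by ring
      _ ≤ _ := by gcongr
  have A1 : eLpNorm f 2 volume ≤ ENNReal.ofReal (3 ^ ν) := by
    apply eLpNorm_two_le (by positivity)
    have := L2_boundG D n ν s a lam hlam u hu hu1 hD (S := univ) MeasurableSet.univ (by simp)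
      (C₁ := 4 * (3 ^ ν) ^ 2) (C₂ := C₂) (by positivity) hC₂0 (by
        intro α _ x _
        split_ifs with h
        · exact hnear α x 3 (by norm_num) (norm_one_add_Wn_le hq0 hq1 n (norm_e1 _).le)
        · exact hfar α x h)
    rw [Measure.restrict_univ] at this
    refine this.trans (ENNReal.ofReal_le_ofReal ?_)
    nlinarith
  have A2 : eLpNorm f 2 (volume.restrict (Kak D)ᶜ) ≤ ENNReal.ofReal (b ^ ν) := by
    apply eLpNorm_two_le (by positivity)
    have := L2_boundG D n ν s a lam hlam u hu hu1 hD (S := (Kak D)ᶜ) (measurableSet_Kak D).compl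
      (fun x => by simp only [mem_compl_iff]; rw [Kak_inv])
      (C₁ := 4 * (b ^ ν) ^ 2) (C₂ := C₂) (by positivity) hC₂0 (by
        intro α hα x hx
        split_ifs with h
        · refine hnear α x b (by positivity) (Wn_off hD hn ?_)
          by_contra hh
          exact hx (Tube_subset_Kak D hD0 hα ⟨(not_le.1 hh).le, h⟩)
        · exact hfar α x h)
    refine this.trans (ENNReal.ofReal_le_ofReal ?_)
    have h1 : 1 ≤ (b ^ ν) ^ 2 := one_le_pow₀ hb1
    generalize (b ^ ν) ^ 2 = X at h1 ⊢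
    generalize MM D * C₂ = Y at hC₂1 ⊢
    linarith only [h1, hC₂1]
  have hθ : 0 ≤ 1 / p.toReal - 1 / 2 := by
    have h1 : p.toReal ≤ 2 := by
      simpa using ENNReal.toReal_mono (by norm_num) hp2
    have h2 : 1 ≤ p.toReal := by
      simpa using ENNReal.toReal_mono (ne_top_of_le_ne_top (by norm_num) hp2) hp1
    have := one_div_le_one_div_of_le (by linarith) h1
    linarith
  have B1 : eLpNorm f p (volume.restrict (Kak D)) ≤ ENNReal.ofReal 1 := by
    refine (eLpNorm_le_eLpNorm_mul_rpow_measure_univ hp2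
      hcont.aestronglyMeasurable).trans ?_
    rw [Measure.restrict_apply_univ, ENNReal.toReal_ofNat]
    calc _ ≤ ENNReal.ofReal (3 ^ ν) * (ENNReal.ofReal (1 / D)) ^ (1 / p.toReal - 1 / 2) := by
          gcongr
          · exact (eLpNorm_mono_measure _ Measure.restrict_le_self).trans A1
          · exact volume_Kak D hD0
      _ ≤ _ := by
          rw [ENNReal.ofReal_rpow_of_nonneg (by positivity) hθ,
            ← ENNReal.ofReal_mul (by positivity)]
          exact ENNReal.ofReal_le_ofReal hDp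
  have B2 : eLpNorm f p (volume.restrict (Kak D)ᶜ) ≤ ENNReal.ofReal (b ^ ν) := by
    refine (eLpNorm_le_eLpNorm_mul_rpow_measure_univ hp2
      hcont.aestronglyMeasurable).trans ?_
    rw [Measure.restrict_apply_univ, ENNReal.toReal_ofNat]
    calc _ ≤ ENNReal.ofReal (b ^ ν) * 1 ^ (1 / p.toReal - 1 / 2) := by
          gcongr
          exact prob_le_one
      _ = _ := by simp
  have e : f = (Kak D).indicator f + (Kak D)ᶜ.indicator f := by
    rw [Set.indicator_self_add_compl]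
  rw [e]
  refine (eLpNorm_add_le (hcont.aestronglyMeasurable.indicator (measurableSet_Kak D))
    (hcont.aestronglyMeasurable.indicator (measurableSet_Kak D).compl) hp1).trans ?_
  rw [eLpNorm_indicator_eq_eLpNorm_restrict (measurableSet_Kak D),
    eLpNorm_indicator_eq_eLpNorm_restrict (measurableSet_Kak D).compl]
  refine (add_le_add B1 B2).trans ?_
  rw [← ENNReal.ofReal_add (by norm_num) (by positivity)]
  apply ENNReal.ofReal_le_ofReal
  linarith

end Pool.Agent.Lib.MP_730078_an.PC
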