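import Pool.Agent.Lib.MP_730078_an.PC.Iter

set_option autoImplicit false

open MeasureTheory Set Filter Topology Complex
open scoped ENNReal Real NNReal

namespace Pool.Agent.Lib.MP_730078_an.PC

theorem oct_sum (a : Fin 4 → ℝ) : ∑ i, a i • (Pi.single i 1 : Fin 4 → ℝ) = a := by
  funext j
  simp [Finset.sum_apply, Pi.single_apply]

/-- the reduced height -/
noncomputable def octY (y : Fin 4 → ℝ) : Fin 4 → ℝ := ![y 0 / 4, y 1 / 4, -y 2 / 2, y 3 / 4]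

/-- the signs of the shift -/
noncomputable def octC : Fin 4 → ℝ := ![-3, -3, 3, -3]

/-- the direction of the shift -/
noncomputable def octW (y : Fin 4 → ℝ) : Fin 4 → ℝ := fun i => octC i * octY y i

theorem octY_nonneg {y : Fin 4 → ℝ} (h0 : 0 ≤ y 0) (h1 : 0 ≤ y 1) (h2 : y 2 ≤ 0) (h3 : 0 ≤ y 3)
    (i : Fin 4) : 0 ≤ octY y i := by
  fin_cases i <;> simp [octY] <;> linarith

theorem abs_octC (i : Fin 4) : |octC i| = 3 := by
  fin_cases i <;> simp [octC]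

theorem octW_dot (y t : Fin 4 → ℝ) :
    octW y ⬝ᵥ t = -(3 / 4) * (y 0 * t 0 + y 1 * t 1 + y 3 * t 3) - 3 / 2 * (y 2 * t 2) := by
  simp [octW, octC, octY, dotProduct, Fin.sum_univ_four]; ring

theorem octY_dot (y t : Fin 4 → ℝ) : octY y ⬝ᵥ t + -(octW y ⬝ᵥ t) = y ⬝ᵥ t := by
  simp [octW, octC, octY, dotProduct, Fin.sum_univ_four]; ring

theorem oct_dot_nonneg {y t : Fin 4 → ℝ} (hy : ∀ i, 0 ≤ y i) (ht : ∀ i, 0 ≤ t i) : 0 ≤ y ⬝ᵥ t :=
  Finset.sum_nonneg fun i _ => mul_nonneg (hy i) (ht i)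

theorem oct_fubini {k : ℝ → ℂ} (hkc : Continuous k) (hk : Integrable k)
    {φ : (Fin 4 → ℝ) → ℂ} (hm : Measurable φ) (hi : Integrable φ)
    (x u w : Fin 4 → ℝ) (hu : ∀ t, φ t ≠ 0 → 0 ≤ u ⬝ᵥ t) :
    ∫ t, ch (x ⬝ᵥ t) * (dm (u ⬝ᵥ t) * ∫ ξ : ℝ, k ξ * ch (ξ * (w ⬝ᵥ t))) * φ t =
      ∫ ξ : ℝ, k ξ * Ex φ (x + ξ • w) u := by
  have hF : Integrable (Function.uncurry fun (t : Fin 4 → ℝ) (ξ : ℝ) =>
      k ξ * (ch ((x + ξ • w) ⬝ᵥ t) * dm (u ⬝ᵥ t) * φ t)) (volume.prod volume) := by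
    refine (hi.norm.mul_prod hk.norm).mono' ?_ (Eventually.of_forall fun z => ?_)
    · have h1 : Continuous fun z : (Fin 4 → ℝ) × ℝ =>
          k z.2 * (ch ((x + z.2 • w) ⬝ᵥ z.1) * dm (u ⬝ᵥ z.1)) := by fun_prop
      have h2 : Measurable fun z : (Fin 4 → ℝ) × ℝ =>
          k z.2 * (ch ((x + z.2 • w) ⬝ᵥ z.1) * dm (u ⬝ᵥ z.1)) * φ z.1 :=
        h1.measurable.mul (hm.comp measurable_fst)
      refine h2.aestronglyMeasurable.congr (Eventually.of_forall fun z => ?_)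
      simp only [Function.uncurry]; ring
    · simp only [Function.uncurry, norm_mul, norm_ch, one_mul]
      by_cases h : φ z.1 = 0
      · simp [h]
      · have := norm_dm_le (hu _ h)
        calc ‖k z.2‖ * (‖dm (u ⬝ᵥ z.1)‖ * ‖φ z.1‖) ≤ ‖k z.2‖ * (1 * ‖φ z.1‖) := by gcongr
          _ = ‖φ z.1‖ * ‖k z.2‖ := by ring
  calc ∫ t, ch (x ⬝ᵥ t) * (dm (u ⬝ᵥ t) * ∫ ξ : ℝ, k ξ * ch (ξ * (w ⬝ᵥ t))) * φ t
      = ∫ t, ∫ ξ : ℝ, k ξ * (ch ((x + ξ • w) ⬝ᵥ t) * dm (u ⬝ᵥ t) * φ t) := by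
        refine integral_congr_ae (Eventually.of_forall fun t => ?_)
        have : ∀ ξ : ℝ, k ξ * (ch ((x + ξ • w) ⬝ᵥ t) * dm (u ⬝ᵥ t) * φ t) =
            (ch (x ⬝ᵥ t) * dm (u ⬝ᵥ t) * φ t) * (k ξ * ch (ξ * (w ⬝ᵥ t))) := fun ξ => by
          rw [add_dotProduct, smul_dotProduct, smul_eq_mul, ch_add]; ring
        simp only [this, integral_const_mul]
        ring
    _ = ∫ ξ : ℝ, ∫ t, k ξ * (ch ((x + ξ • w) ⬝ᵥ t) * dm (u ⬝ᵥ t) * φ t) :=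
        integral_integral_swap hF
    _ = ∫ ξ : ℝ, k ξ * Ex φ (x + ξ • w) u := by
        simp only [integral_const_mul, Ex]

/-- a multiplier which agrees with the damping factor on the good region and is controlled by the
maximal function of the octant -/
theorem oct : ∃ (Gm : (Fin 4 → ℝ) → (Fin 4 → ℝ) → ℂ) (B : ℝ) (C : ℝ≥0∞), C ≠ ∞ ∧
    (∀ y, Continuous (Gm y)) ∧
    (∀ y t : Fin 4 → ℝ, 0 ≤ y 0 → 0 ≤ y 1 → y 2 ≤ 0 → 0 ≤ y 3 → (∀ i, 0 ≤ t i) → ‖Gm y t‖ ≤ B) ∧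
    (∀ y t : Fin 4 → ℝ, -y 2 * t 2 ≤ (y 0 * t 0 + y 1 * t 1 + y 3 * t 3) / 2 →
      Gm y t = dm (y ⬝ᵥ t)) ∧
    ∀ φ : (Fin 4 → ℝ) → ℂ, Measurable φ → Integrable φ → (∀ t, φ t ≠ 0 → ∀ i, 0 ≤ t i) →
      ∃ S : (Fin 4 → ℝ) → ℝ≥0∞, Measurable S ∧ ∫⁻ x, S x ^ 2 ≤ C * ∫⁻ t, ‖φ t‖ₑ ^ 2 ∧
        (∀ x y : Fin 4 → ℝ, (∀ i, 0 ≤ y i) → ‖Ex φ x y‖ₑ ≤ S x) ∧
        ∀ x y : Fin 4 → ℝ, 0 ≤ y 0 → 0 ≤ y 1 → y 2 ≤ 0 → 0 ≤ y 3 →
          ‖∫ t, ch (x ⬝ᵥ t) * Gm y t * φ t‖ₑ ≤ S x := by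
  obtain ⟨k, hkc, hki, hk⟩ := exists_ker
  obtain ⟨C, hC, hit⟩ := iter 4 4
  have hk1 : Integrable k := by
    refine hki.mono' hkc.aestronglyMeasurable (Eventually.of_forall fun ξ => ?_)
    exact le_mul_of_one_le_left (norm_nonneg _) (one_le_pow₀ (by nlinarith [sq_nonneg ξ]))
  set K : ℝ≥0∞ := ∫⁻ ξ : ℝ, ENNReal.ofReal ((1 + 9 * ξ ^ 2) ^ 4 * ‖k ξ‖) with hK
  have hKf : K ≠ ∞ := hki.lintegral_lt_top.ne
  refine ⟨fun y t => dm (octY y ⬝ᵥ t) * ∫ ξ : ℝ, k ξ * ch (ξ * (octW y ⬝ᵥ t)), ∫ ξ, ‖k ξ‖,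
    (1 + K) ^ 2 * C, ENNReal.mul_ne_top (ENNReal.pow_ne_top (by simp [hKf])) hC, fun y => ?_,
    fun y t h0 h1 h2 h3 ht => ?_, fun y t h => ?_, fun φ hm hi hs => ?_⟩
  · refine Continuous.mul (by fun_prop) ?_
    refine continuous_of_dominated (bound := fun ξ => ‖k ξ‖) (fun t => ?_) (fun t => ?_) hk1.norm
      (Eventually.of_forall fun ξ => by fun_prop)
    · exact Continuous.aestronglyMeasurable (by fun_prop)
    · exact Eventually.of_forall fun ξ => by simp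
  · rw [norm_mul]
    have ha := norm_dm_le (oct_dot_nonneg (octY_nonneg h0 h1 h2 h3) ht)
    have hb : ‖∫ ξ : ℝ, k ξ * ch (ξ * (octW y ⬝ᵥ t))‖ ≤ ∫ ξ, ‖k ξ‖ :=
      (norm_integral_le_integral_norm _).trans (le_of_eq (by simp))
    calc _ ≤ 1 * ∫ ξ, ‖k ξ‖ := by gcongr
      _ = _ := one_mul _
  · have hw : octW y ⬝ᵥ t ≤ 0 := by rw [octW_dot]; linarith
    simp only []
    rw [hk _ hw, ← dm_add, octY_dot]
  · obtain ⟨S, hSm, hS2, hS⟩ := hit (fun i => Pi.single i 1) φ hm hi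
      (fun t ht i => by simpa using hs t ht i)
    refine ⟨fun x => (1 + K) * S x, hSm.const_mul _, ?_, fun x y hy => ?_,
      fun x y h0 h1 h2 h3 => ?_⟩
    · simp only [mul_pow]
      rw [lintegral_const_mul _ (hSm.pow_const 2), mul_assoc]
      gcongr
    · have := hS x y 0 0 hy (fun i => by simp)
      rw [oct_sum y] at this
      simp only [Pi.zero_apply, zero_mul, zero_smul, Finset.sum_const_zero, add_zero, ne_eq,
        OfNat.ofNat_ne_zero, not_false_eq_true, zero_pow, one_pow, ENNReal.ofReal_one,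
        one_mul] at this
      refine this.trans ?_
      simp only []
      rw [add_mul, one_mul]
      exact le_self_add
    · have hy := octY_nonneg h0 h1 h2 h3
      simp only []
      rw [oct_fubini hkc hk1 hm hi x (octY y) (octW y) fun t ht => oct_dot_nonneg hy (hs t ht)]
      refine (enorm_integral_le_lintegral_enorm _).trans ?_
      have hb : ∀ ξ : ℝ, ‖k ξ * Ex φ (x + ξ • octW y) (octY y)‖ₑ ≤
          ENNReal.ofReal ((1 + 9 * ξ ^ 2) ^ 4 * ‖k ξ‖) * S x := fun ξ => by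
        have := hS x (octY y) (fun i => ξ * octC i) (3 * |ξ|) hy
          (fun i => by rw [abs_mul, abs_octC]; linarith)
        rw [oct_sum, oct_sum] at this
        have e : (fun i => ξ * octC i * octY y i) = ξ • octW y := by
          funext i; simp [octW, mul_assoc]
        rw [e, show (3 * |ξ|) ^ 2 = 9 * ξ ^ 2 by rw [mul_pow, sq_abs]; norm_num] at this
        rw [enorm_mul, ENNReal.ofReal_mul (by positivity), ofReal_norm, mul_comm _ ‖k ξ‖ₑ,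
          mul_assoc]
        gcongr
      refine (lintegral_mono hb).trans ?_
      rw [lintegral_mul_const _ (by fun_prop), ← hK]
      gcongr
      exact le_add_self

end Pool.Agent.Lib.MP_730078_an.PC
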