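import Pool.Agent.Lib.MP_730078_an.PC.Planch

set_option autoImplicit false

open MeasureTheory Set Filter Topology Complex
open scoped ENNReal Real NNReal

namespace Pool.Agent.Lib.MP_730078_an.PC

variable {n : ℕ}

theorem pw_avg {G : (Fin n → ℝ) → ℝ → ℂ} (hG : Continuous (Function.uncurry G)) {B : ℝ≥0∞}
    (hB : B ≠ ∞) (hb : ∀ s, ∫⁻ x, ‖G x s‖ₑ ≤ B) :
    Integrable (fun x => ∫ s in (0 : ℝ)..1, G x s) ∧
      ∫ x, ∫ s in (0 : ℝ)..1, G x s = ∫ s in (0 : ℝ)..1, ∫ x, G x s := by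
  have hi : Integrable (Function.uncurry G) (volume.prod (volume.restrict (Ioc (0 : ℝ) 1))) := by
    refine ⟨hG.aestronglyMeasurable, ?_⟩
    rw [hasFiniteIntegral_iff_enorm, lintegral_prod_symm' _ hG.measurable.enorm]
    refine (lintegral_mono fun s => hb s).trans_lt ?_
    simp [hB.lt_top]
  simp only [intervalIntegral.integral_of_le zero_le_one]
  exact ⟨hi.integral_prod_left, integral_integral_swap hi⟩

theorem pw_cont {Γ : Set (Fin n → ℝ)} {H : (Fin n → ℂ) → ℂ} (hH : ContinuousOn H (tube Γ))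
    {X : Type*} [TopologicalSpace X] {a b : X → Fin n → ℝ} (ha : Continuous a) (hb : Continuous b)
    (hm : ∀ q, b q ∈ Γ) : Continuous fun q => H (pt (a q) (b q)) := by
  refine hH.comp_continuous ?_ fun q => ⟨_, _, hm q, rfl⟩
  unfold pt
  fun_prop

/-- the integral over a horizontal slice does not depend on the height -/
theorem pw_indep {Γ : Set (Fin n → ℝ)} (hΓ : Convex ℝ Γ) {H : (Fin n → ℂ) → ℂ}
    (hH : DifferentiableOn ℂ H (tube Γ)) {y v : Fin n → ℝ} (hy : y ∈ Γ) (hv : y + v ∈ Γ)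
    {B : ℝ≥0∞} (hB : B ≠ ∞) (hb : ∀ τ ∈ Icc (0 : ℝ) 1, ∫⁻ x, ‖H (pt x (y + τ • v))‖ₑ ≤ B) :
    ∫ x, H (pt x y) = ∫ x, H (pt x (y + v)) := by
  have hm : ∀ τ ∈ Icc (0 : ℝ) 1, y + τ • v ∈ Γ := fun τ hτ => hΓ.add_smul_mem hy hv hτ
  have hσ : ∀ τ : ℝ, max 0 (min 1 τ) ∈ Icc (0 : ℝ) 1 := fun τ =>
    ⟨le_max_left _ _, max_le zero_le_one (min_le_left _ _)⟩
  have hor : ∀ τ ∈ Icc (0 : ℝ) 1,
      Integrable (fun x => ∫ s in (0 : ℝ)..1, H (pt (x + s • v) (y + τ • v))) ∧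
      ∫ x, ∫ s in (0 : ℝ)..1, H (pt (x + s • v) (y + τ • v)) = ∫ x, H (pt x (y + τ • v)) := by
    intro τ hτ
    have := pw_avg (G := fun x s => H (pt (x + s • v) (y + τ • v)))
      (pw_cont hH.continuousOn (a := fun q : (Fin n → ℝ) × ℝ => q.1 + q.2 • v) (by fun_prop)
        continuous_const fun _ => hm τ hτ) hB fun s =>
      (lintegral_add_right_eq_self (fun x => ‖H (pt x (y + τ • v))‖ₑ) (s • v)).trans_le (hb τ hτ)
    refine ⟨this.1, this.2.trans ?_⟩
    have e : ∀ s : ℝ, ∫ x, H (pt (x + s • v) (y + τ • v)) = ∫ x, H (pt x (y + τ • v)) := fun s =>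
      integral_add_right_eq_self (fun x => H (pt x (y + τ • v))) (s • v)
    simp [e]
  have ver := (pw_avg (G := fun x τ => H (pt x (y + max 0 (min 1 τ) • v)))
    (pw_cont hH.continuousOn (a := fun q : (Fin n → ℝ) × ℝ => q.1)
      (b := fun q : (Fin n → ℝ) × ℝ => y + max 0 (min 1 q.2) • v) continuous_fst (by fun_prop)
      fun q => hm _ (hσ _)) hB fun τ => hb _ (hσ τ)).1
  set V : (Fin n → ℝ) → ℂ := fun x => ∫ τ in (0 : ℝ)..1, H (pt x (y + max 0 (min 1 τ) • v))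
    with hV
  have hV' : ∀ x, V x = ∫ τ in (0 : ℝ)..1, H (pt x (y + τ • v)) := fun x =>
    intervalIntegral.integral_congr fun τ hτ => by
      rw [uIcc_of_le zero_le_one] at hτ
      simp only [min_eq_right hτ.2, max_eq_right hτ.1]
  have hpt : ∀ (x : Fin n → ℝ) (ζ : ℂ),
      pt x y + ζ • (fun j => (v j : ℂ)) = pt (x + ζ.re • v) (y + ζ.im • v) := by
    intro x ζ
    funext j
    apply Complex.ext <;> simp [pt]
  have rect : ∀ x, (∫ s in (0 : ℝ)..1, H (pt (x + s • v) (y + (0 : ℝ) • v))) -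
      (∫ s in (0 : ℝ)..1, H (pt (x + s • v) (y + (1 : ℝ) • v))) = I * (V x - V (x + v)) := by
    intro x
    have := Complex.integral_boundary_rect_eq_zero_of_differentiableOn
      (fun ζ : ℂ => H (pt x y + ζ • fun j => (v j : ℂ))) 0 (1 + I)
      (hH.comp (by fun_prop) fun ζ hζ => by
        have h2 : ζ.im ∈ Icc (0 : ℝ) 1 := by simpa using hζ.2
        exact ⟨_, _, hm _ h2, hpt x ζ⟩)
    simp only [hpt] at this
    simp only [zero_re, zero_im, add_re, one_re, I_re, add_im, one_im, I_im, ofReal_re, ofReal_im,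
      mul_re, mul_im, mul_zero, mul_one, add_zero, zero_add, smul_eq_mul,
      ofReal_zero, ofReal_one, sub_self, one_smul, zero_smul] at this
    rw [hV', hV']
    simp only [zero_smul, one_smul, add_zero]
    linear_combination this
  obtain ⟨i0, e0⟩ := hor 0 ⟨le_rfl, zero_le_one⟩
  obtain ⟨i1, e1⟩ := hor 1 ⟨zero_le_one, le_rfl⟩
  have e2 := integral_sub i0 i1
  rw [e0, e1] at e2
  simp only [rect] at e2
  rw [integral_const_mul, integral_sub ver (ver.comp_add_right v), integral_add_right_eq_self,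
    sub_self, mul_zero, zero_smul, one_smul, add_zero] at e2
  exact sub_eq_zero.1 e2.symm

theorem pw_exp {c : ℝ} (hc : 0 < c) :
    Integrable fun t : Fin n → ℝ => Real.exp (-c * ∑ j, |t j|) := by
  have h1 : Integrable fun u : ℝ => Real.exp (-c * |u|) := by
    rw [← integrableOn_univ, ← Iic_union_Ioi (a := (0 : ℝ)), integrableOn_union]
    constructor
    · refine (integrableOn_exp_mul_Iic hc 0).congr_fun (fun u hu => ?_) measurableSet_Iic
      simp only [abs_of_nonpos (mem_Iic.1 hu)]; congr 1; ring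
    · refine (integrableOn_exp_mul_Ioi (neg_lt_zero.2 hc) 0).congr_fun (fun u hu => ?_)
        measurableSet_Ioi
      simp only [abs_of_pos (mem_Ioi.1 hu)]
  have := Integrable.fintype_prod (ι := Fin n) (f := fun _ u => Real.exp (-c * |u|)) fun _ => h1
  simp only [Finset.mul_sum, Real.exp_sum]
  exact this

theorem pw_dual {Γ : Set (Fin n → ℝ)} (hΓ : IsOpen Γ) {y : Fin n → ℝ} (hy : y ∈ Γ) :
    ∃ κ : ℝ, 0 < κ ∧ ∀ t ∈ Du Γ, κ * ∑ j, |t j| ≤ y ⬝ᵥ t := by
  obtain ⟨ε, hε, hb⟩ := Metric.isOpen_iff.1 hΓ y hy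
  refine ⟨ε / 2, by positivity, fun t ht => ?_⟩
  have hw : y - (fun j => if 0 ≤ t j then ε / 2 else -(ε / 2)) ∈ Γ := hb (by
    rw [mem_ball_iff_norm, sub_sub_cancel_left, norm_neg]
    refine ((pi_norm_le_iff_of_nonneg (by positivity : (0 : ℝ) ≤ ε / 2)).2 fun j => ?_).trans_lt
      (by linarith)
    split_ifs
    · exact (Real.norm_of_nonneg (by positivity)).le
    · rw [norm_neg]; exact (Real.norm_of_nonneg (by positivity)).le)
  have := ht _ hw
  rw [sub_dotProduct, sub_nonneg] at this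
  refine le_trans (le_of_eq ?_) this
  rw [Finset.mul_sum, dotProduct]
  refine Finset.sum_congr rfl fun j _ => ?_
  split_ifs with h
  · rw [abs_of_nonneg h]
  · rw [abs_of_neg (not_le.1 h)]; ring

theorem pw_kernel (x y t : Fin n → ℝ) :
    cexp (-(2 * π * I) * ∑ j, pt x y j * (t j : ℂ)) = dm (-(y ⬝ᵥ t)) * ch (-(x ⬝ᵥ t)) := by
  rw [dm, ch, Complex.ofReal_exp, ← Complex.exp_add]
  congr 1
  simp only [pt, dotProduct, add_mul, Finset.sum_add_distrib]
  have e : ∑ j, (y j : ℂ) * I * (t j : ℂ) = I * ∑ j, (y j : ℂ) * (t j : ℂ) := by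
    rw [Finset.mul_sum]
    exact Finset.sum_congr rfl fun j _ => by ring
  rw [e]
  push_cast
  linear_combination (-(2 * π) * ∑ j, (y j : ℂ) * (t j : ℂ)) * I_mul_I

/-- Paley-Wiener for functions which are in `H¹` and in `H²` -/
theorem paley_wiener {Γ : Set (Fin n → ℝ)} (hΓ : Regular Γ) (hne : Γ.Nonempty)
    {F : (Fin n → ℂ) → ℂ} (hF : DifferentiableOn ℂ F (tube Γ)) {A : ℝ≥0∞} (hA : A ≠ ∞)
    (h1 : ∀ y ∈ Γ, ∫⁻ x, ‖F (pt x y)‖ₑ ≤ A) (h2 : ∀ y ∈ Γ, ∫⁻ x, ‖F (pt x y)‖ₑ ^ 2 ≤ A) :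
    ∃ φ : (Fin n → ℝ) → ℂ, Continuous φ ∧ ∫⁻ t, ‖φ t‖ₑ ^ 2 ≤ A ∧ (∀ t, φ t ≠ 0 → t ∈ Du Γ) ∧
      ∀ y ∈ Γ, Integrable (fun t => dm (y ⬝ᵥ t) * φ t) ∧ ∀ x, F (pt x y) = Ex φ x y := by
  obtain ⟨y₀, hy₀⟩ := hne
  obtain ⟨hop, hcv, hsc, -⟩ := hΓ
  have hc : ∀ y ∈ Γ, Continuous fun x => F (pt x y) := fun y hy =>
    pw_cont hF.continuousOn continuous_id continuous_const fun _ => hy
  have hi : ∀ y ∈ Γ, Integrable fun x => F (pt x y) := fun y hy =>
    ⟨(hc y hy).aestronglyMeasurable, (h1 y hy).trans_lt hA.lt_top⟩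
  obtain ⟨fh, hfh⟩ : ∃ fh : (Fin n → ℝ) → (Fin n → ℝ) → ℂ,
      ∀ y t, fh y t = ∫ u, ch (-(u ⬝ᵥ t)) * F (pt u y) := ⟨_, fun _ _ => rfl⟩
  have fc : ∀ y ∈ Γ, Continuous (fh y) := by
    intro y hy
    rw [show fh y = fun t => ∫ u, ch (-(u ⬝ᵥ t)) * F (pt u y) from funext (hfh y)]
    refine continuous_of_dominated (bound := fun u => ‖F (pt u y)‖) (fun t => ?_)
      (fun t => Eventually.of_forall fun u => by rw [norm_mul, norm_ch, one_mul]) (hi y hy).norm
      (Eventually.of_forall fun u => by fun_prop)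
    exact (Continuous.mul (by fun_prop) (hc y hy)).aestronglyMeasurable
  have fb : ∀ y ∈ Γ, ∀ t, ‖fh y t‖ ≤ A.toReal := by
    intro y hy t
    rw [hfh, ← toReal_enorm]
    refine ENNReal.toReal_mono hA ((enorm_integral_le_lintegral_enorm _).trans
      (le_trans (le_of_eq (lintegral_congr fun u => ?_)) (h1 y hy)))
    rw [← ofReal_norm, ← ofReal_norm, norm_mul, norm_ch, one_mul]
  have ind : ∀ y ∈ Γ, ∀ t, dm (-(y₀ ⬝ᵥ t)) * fh y₀ t = dm (-(y ⬝ᵥ t)) * fh y t := by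
    intro y hy t
    have hv : y₀ + (y - y₀) ∈ Γ := by rwa [add_sub_cancel]
    have := pw_indep hcv (H := fun z => cexp (-(2 * π * I) * ∑ j, z j * (t j : ℂ)) * F z)
      (DifferentiableOn.mul (by fun_prop) hF) hy₀ hv
      (B := ENNReal.ofReal (Real.exp (2 * π * (|y₀ ⬝ᵥ t| + |(y - y₀) ⬝ᵥ t|))) * A)
      (ENNReal.mul_ne_top ENNReal.ofReal_ne_top hA) fun τ hτ => by
        refine le_trans ?_ (mul_le_mul_right (h1 _ (hcv.add_smul_mem hy₀ hv hτ)) _)
        rw [← lintegral_const_mul' _ _ ENNReal.ofReal_ne_top]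
        refine lintegral_mono fun x => ?_
        simp only [pw_kernel]
        rw [enorm_mul]
        refine mul_le_mul_left ?_ _
        rw [← ofReal_norm, norm_mul, norm_ch, mul_one, norm_dm]
        refine ENNReal.ofReal_le_ofReal (Real.exp_le_exp.2 ?_)
        rw [mul_neg, neg_neg, add_dotProduct, smul_dotProduct, smul_eq_mul]
        refine mul_le_mul_of_nonneg_left (add_le_add (le_abs_self _) ?_) (by positivity)
        exact (mul_le_mul_of_nonneg_left (le_abs_self _) hτ.1).trans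
          (mul_le_of_le_one_left (abs_nonneg _) hτ.2)
    simp only [pw_kernel, add_sub_cancel] at this
    simp only [mul_assoc, integral_const_mul] at this
    rw [hfh, hfh, this]
  obtain ⟨φ, hφ⟩ : ∃ φ : (Fin n → ℝ) → ℂ, φ = fun t => dm (-(y₀ ⬝ᵥ t)) * fh y₀ t := ⟨_, rfl⟩
  have φc : Continuous φ := by
    have := fc y₀ hy₀
    rw [hφ]
    fun_prop
  have key : ∀ y ∈ Γ, ∀ t, dm (y ⬝ᵥ t) * φ t = fh y t := by
    intro y hy t
    rw [hφ]
    simp only
    rw [ind y hy, ← mul_assoc, ← dm_add, add_neg_cancel, dm_zero, one_mul]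
  have supp : ∀ t, φ t ≠ 0 → t ∈ Du Γ := by
    intro t ht y hy
    by_contra hneg
    have hc0 : 0 < 2 * π * -(y ⬝ᵥ t) := mul_pos (by positivity) (neg_pos.2 (not_le.1 hneg))
    have hn : 0 < ‖φ t‖ := norm_pos_iff.2 ht
    have hs : 0 < (A.toReal / ‖φ t‖ + 1) / (2 * π * -(y ⬝ᵥ t)) := by positivity
    have := fb _ (hsc _ hs y hy) t
    rw [← key _ (hsc _ hs y hy), norm_mul, norm_dm, smul_dotProduct, smul_eq_mul] at this
    have e : -(2 * π * ((A.toReal / ‖φ t‖ + 1) / (2 * π * -(y ⬝ᵥ t)) * (y ⬝ᵥ t))) =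
        A.toReal / ‖φ t‖ + 1 := by
      rw [← div_mul_cancel₀ (A.toReal / ‖φ t‖ + 1) hc0.ne']
      rw [mul_div_cancel_right₀ _ hc0.ne']
      ring
    rw [e, ← le_div_iff₀ hn] at this
    linarith [Real.add_one_le_exp (A.toReal / ‖φ t‖ + 1)]
  have int : ∀ y ∈ Γ, Integrable fun t => dm (y ⬝ᵥ t) * φ t := by
    intro y hy
    have hy2 := hsc (1 / 2) (by norm_num) y hy
    obtain ⟨κ, hκ, hk⟩ := pw_dual hop hy2
    refine ((pw_exp (c := 2 * π * κ) (by positivity)).mul_const A.toReal).mono'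
      (Continuous.aestronglyMeasurable (by fun_prop)) (Eventually.of_forall fun t => ?_)
    by_cases ht : φ t = 0
    · rw [ht, mul_zero, norm_zero]
      positivity
    have e : y ⬝ᵥ t = ((1 / 2 : ℝ) • y) ⬝ᵥ t + ((1 / 2 : ℝ) • y) ⬝ᵥ t := by
      rw [smul_dotProduct, smul_eq_mul]; ring
    rw [e, dm_add, mul_assoc, key _ hy2, norm_mul, norm_dm]
    refine mul_le_mul (Real.exp_le_exp.2 ?_) (fb _ hy2 t) (norm_nonneg _) (Real.exp_pos _).le
    have := mul_le_mul_of_nonneg_left (hk t (supp t ht)) (by positivity : (0 : ℝ) ≤ 2 * π)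
    linarith
  have l2 : ∀ y ∈ Γ, ∫⁻ t, ‖dm (y ⬝ᵥ t) * φ t‖ₑ ^ 2 ≤ A := by
    intro y hy
    refine le_trans (le_of_eq ?_) ((planch (hc y hy).measurable (hi y hy)).trans (h2 y hy))
    rw [← lintegral_neg_eq_self]
    refine lintegral_congr fun t => ?_
    rw [key y hy, hfh]
    simp only [dotProduct_neg, neg_neg, dotProduct_comm]
  refine ⟨φ, φc, ?_, supp, fun y hy => ⟨int y hy, fun x => ?_⟩⟩
  · have lim : ∀ t, Tendsto (fun k : ℕ => ‖dm (((1 / ((k : ℝ) + 1)) • y₀) ⬝ᵥ t) * φ t‖ₑ ^ 2) atTop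
        (𝓝 (‖φ t‖ₑ ^ 2)) := by
      intro t
      have c1 : Continuous fun s : ℝ => ‖dm ((s • y₀) ⬝ᵥ t) * φ t‖ₑ ^ 2 :=
        (ENNReal.continuous_pow 2).comp (Continuous.enorm (by fun_prop))
      have := (c1.tendsto 0).comp (tendsto_one_div_add_atTop_nhds_zero_nat (𝕜 := ℝ))
      simpa only [zero_smul, zero_dotProduct, dm_zero, one_mul, Function.comp_def] using this
    rw [← lintegral_congr fun t => (lim t).liminf_eq]
    refine (lintegral_liminf_le fun k => ?_).trans (liminf_le_of_frequently_le'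
      (Frequently.of_forall fun k => l2 _ (hsc _ (by positivity) y₀ hy₀)))
    exact (Continuous.measurable (by fun_prop)).enorm.pow_const 2
  · have i1 := int y hy
    simp only [key y hy, hfh] at i1
    rw [← inversion (hc y hy) (hi y hy) i1 x, Ex]
    simp only [mul_assoc, key y hy, hfh]

end Pool.Agent.Lib.MP_730078_an.PC
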